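import Pool.Agent.Lib.MP_478c11_gt.DB.GeoS

/-!
# MP_478c11_gt, module CHT: the charts at the poles
-/

set_option autoImplicit false

namespace Pool.Agent.Lib.MP478c11.DB.S

open Set Filter Topology MeasureTheory
open scoped ContDiff InnerProductSpace

noncomputable section

namespace CHTM

/-- the local inverse at the lower pole -/
theorem left {h : ℝ → ℝ} {a p q b : ℝ} (hD : Dumb h a p q b) :
    ∃ (φ : ℝ → ℝ) (e₀ η : ℝ), 0 < e₀ ∧ 0 < η ∧ ContDiffOn ℝ ∞ φ (Ioo (-e₀) e₀) ∧ φ 0 = a ∧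
      (∀ s ∈ Ico 0 e₀, a ≤ φ s ∧ φ s ≤ b ∧ h (φ s) = s) ∧
      ∀ z, a < z → z < a + η → φ (h z) = z := by
  have hs := hD.smooth
  have hab : a < b := hD.ap.trans (hD.pq.trans hD.qb)
  have hdiff : Differentiable ℝ h := hs.differentiable (by simp)
  have hd : ∀ z, HasDerivAt h (deriv h z) z := fun z => (hdiff z).hasDerivAt
  have hdc : Continuous (deriv h) := hs.continuous_deriv (by simp)
  have hda := hD.da
  obtain ⟨ρ, hρ, hpos⟩ : ∃ ρ > 0, ∀ z, |z - a| < ρ → 0 < deriv h z := by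
    have h1 : ∀ᶠ z in 𝓝 a, 0 < deriv h z := hdc.continuousAt.eventually (lt_mem_nhds hda)
    obtain ⟨ρ, hρ, h2⟩ := Metric.eventually_nhds_iff.1 h1
    exact ⟨ρ, hρ, fun z hz => h2 (by rwa [Real.dist_eq])⟩
  have hmono : StrictMonoOn h (Ioo (a - ρ) (a + ρ)) := by
    refine strictMonoOn_of_deriv_pos (convex_Ioo _ _) hs.continuous.continuousOn ?_
    intro z hz
    rw [interior_Ioo] at hz
    exact hpos z (abs_sub_lt_iff.2 ⟨by linarith [hz.2], by linarith [hz.1]⟩)
  have hsd : HasStrictDerivAt h (deriv h a) a := hs.contDiffAt.hasStrictDerivAt (by simp)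
  set e := (hsd.hasStrictFDerivAt_equiv hda.ne').toOpenPartialHomeomorph h with he
  have hecoe : (e : ℝ → ℝ) = h := HasStrictFDerivAt.toOpenPartialHomeomorph_coe _
  have hsrc : a ∈ e.source := HasStrictFDerivAt.mem_toOpenPartialHomeomorph_source _
  have htgt : (0 : ℝ) ∈ e.target := by
    have h1 := e.map_source hsrc
    rw [hecoe, hD.ha] at h1
    exact h1
  have hsymm0 : e.symm 0 = a := by
    have h1 := e.left_inv hsrc
    rw [hecoe, hD.ha] at h1
    exact h1
  have hcs : Tendsto e.symm (𝓝 0) (𝓝 a) := by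
    have h1 := e.continuousAt_symm htgt
    have h2 : Tendsto e.symm (𝓝 0) (𝓝 (e.symm 0)) := h1
    rwa [hsymm0] at h2
  have hev : ∀ᶠ s in 𝓝 (0 : ℝ), s ∈ e.target ∧ e.symm s ∈ Ioo (a - ρ) (min (a + ρ) b) := by
    have h1 : ∀ᶠ s in 𝓝 (0 : ℝ), s ∈ e.target := e.open_target.mem_nhds htgt
    have h2 : ∀ᶠ s in 𝓝 (0 : ℝ), e.symm s ∈ Ioo (a - ρ) (min (a + ρ) b) :=
      hcs.eventually (Ioo_mem_nhds (by linarith) (lt_min (by linarith) hab))
    exact h1.and h2
  obtain ⟨e₀, he₀, h2⟩ := Metric.eventually_nhds_iff.1 hev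
  have hev' : ∀ᶠ z in 𝓝 a, z ∈ e.source := e.open_source.mem_nhds hsrc
  obtain ⟨η, hη, h3⟩ := Metric.eventually_nhds_iff.1 hev'
  have hin : ∀ s, |s| < e₀ → s ∈ e.target ∧ e.symm s ∈ Ioo (a - ρ) (min (a + ρ) b) := by
    intro s hs1
    exact h2 (by rwa [Real.dist_eq, sub_zero])
  have hinv : ∀ s, |s| < e₀ → h (e.symm s) = s := by
    intro s hs1
    have h4 := e.right_inv (hin s hs1).1
    rwa [hecoe] at h4
  refine ⟨e.symm, e₀, η, he₀, hη, ?_, hsymm0, ?_, ?_⟩
  · intro s hs1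
    have hs2 : |s| < e₀ := abs_lt.2 ⟨hs1.1, hs1.2⟩
    have h4 := (hin s hs2).2
    have h5 : 0 < deriv h (e.symm s) := by
      apply hpos
      have h6 : e.symm s < a + ρ := h4.2.trans_le (min_le_left _ _)
      exact abs_sub_lt_iff.2 ⟨by linarith, by linarith [h4.1]⟩
    have h6 : ContDiffAt ℝ ∞ e.symm s := e.contDiffAt_symm_deriv h5.ne' (hin s hs2).1
      (by rw [hecoe]; exact hd _) (by rw [hecoe]; exact hs.contDiffAt)
    exact h6.contDiffWithinAt
  · intro s hs1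
    have hs2 : |s| < e₀ := by
      rw [abs_of_nonneg hs1.1]
      exact hs1.2
    have h4 := (hin s hs2).2
    have h5 := hinv s hs2
    refine ⟨?_, (h4.2.trans_le (min_le_right _ _)).le, h5⟩
    by_contra hlt
    rw [not_le] at hlt
    have h6 : h (e.symm s) < h a := hmono ⟨h4.1, by linarith⟩ ⟨by linarith, by linarith⟩ hlt
    rw [h5, hD.ha] at h6
    exact absurd hs1.1 (not_le.2 h6)
  · intro z hz1 hz2
    have h4 : z ∈ e.source := h3 (by
      rw [Real.dist_eq, abs_of_pos (by linarith)]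
      linarith)
    have h5 := e.left_inv h4
    rwa [hecoe] at h5

/-- `h` is small near a zero -/
theorem small {h : ℝ → ℝ} (hc : Continuous h) {c ε : ℝ} (h0 : h c = 0) (hε : 0 < ε) :
    ∃ δ > 0, ∀ z, |z - c| < δ → h z < ε ^ 2 := by
  have h1 : ∀ᶠ z in 𝓝 c, h z < ε ^ 2 := hc.continuousAt.eventually (gt_mem_nhds (by
    rw [h0]
    positivity))
  obtain ⟨δ, hδ, h2⟩ := Metric.eventually_nhds_iff.1 h1
  exact ⟨δ, hδ, fun z hz => h2 (by rwa [Real.dist_eq])⟩

end CHTM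

open CHTM in
theorem specCHT (hREF : SpecREF) : SpecCHT := by
  intro h a p q b hD
  have hab : a < b := hD.ap.trans (hD.pq.trans hD.qb)
  have hD' := hREF h a p q b hD
  obtain ⟨φa, e₁, η₁, he₁, hη₁, sa, a0, ra, ia⟩ := left hD
  obtain ⟨φ₂, e₂, η₂, he₂, hη₂, s2, b0, r2, i2⟩ := left hD'
  set m : ℝ := min 1 (min e₁ e₂) with hm
  have hm0 : 0 < m := lt_min one_pos (lt_min he₁ he₂)
  have hm1 : m ≤ 1 := min_le_left _ _
  have hme₁ : m ≤ e₁ := (min_le_right _ _).trans (min_le_left _ _)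
  have hme₂ : m ≤ e₂ := (min_le_right _ _).trans (min_le_right _ _)
  have hε4 : 4 * (m / 4) ^ 2 ≤ m := by nlinarith
  have hε : 0 < m / 4 := by positivity
  obtain ⟨δ₁, hδ₁, hs1⟩ := small hD.smooth.continuous hD.ha hε
  obtain ⟨δ₂, hδ₂, hs2⟩ := small hD.smooth.continuous hD.hb hε
  set δ : ℝ := min (min δ₁ δ₂) (min (min η₁ η₂) ((b - a) / 4)) with hδ
  have hδ0 : 0 < δ := lt_min (lt_min hδ₁ hδ₂) (lt_min (lt_min hη₁ hη₂) (by linarith))
  have hd1 : δ ≤ δ₁ := (min_le_left _ _).trans (min_le_left _ _)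
  have hd2 : δ ≤ δ₂ := (min_le_left _ _).trans (min_le_right _ _)
  have hd3 : δ ≤ η₁ := (min_le_right _ _).trans ((min_le_left _ _).trans (min_le_left _ _))
  have hd4 : δ ≤ η₂ := (min_le_right _ _).trans ((min_le_left _ _).trans (min_le_right _ _))
  have hd5 : δ ≤ (b - a) / 4 := (min_le_right _ _).trans (min_le_right _ _)
  refine ⟨φa, fun s => -φ₂ s, m / 4, δ, ?_⟩
  exact
    { e0 := hε
      d0 := hδ0
      d1 := hd5
      sa := sa.mono (Ioo_subset_Ioo (by linarith) (by linarith))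
      sb := (s2.mono (Ioo_subset_Ioo (by linarith) (by linarith))).neg
      a0 := a0
      b0 := by
        show -φ₂ 0 = b
        rw [b0, neg_neg]
      ra := fun s hs => ra s ⟨hs.1, hs.2.trans_le (hε4.trans hme₁)⟩
      rb := fun s hs => by
        obtain ⟨h1, h2, h3⟩ := r2 s ⟨hs.1, hs.2.trans_le (hε4.trans hme₂)⟩
        exact ⟨by linarith, by linarith, h3⟩
      ia := fun z hz1 hz2 => ⟨hs1 z (by
        rw [abs_of_pos (by linarith)]
        linarith), ia z hz1 (by linarith)⟩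
      ib := fun z hz1 hz2 => ⟨hs2 z (by
        rw [abs_of_neg (by linarith)]
        linarith), by
          have h1 := i2 (-z) (by linarith) (by linarith)
          have h2 : φ₂ (h (- -z)) = -z := h1
          rw [neg_neg] at h2
          show -φ₂ (h z) = z
          rw [h2, neg_neg]⟩ }

end

end Pool.Agent.Lib.MP478c11.DB.S
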