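import Pool.Agent.Lib.MP_478c11_gt.DB.GeoS

/-!
# MP_478c11_gt, DB: module CPT (helper74)

Uniform bounds for the derivatives of a bending in the charts: words of partial derivatives of a
smooth family are smooth in the parameter, so bounded on compact sets.
-/

set_option autoImplicit false

namespace Pool.Agent.Lib.MP478c11.DB.S

open Set Filter Topology MeasureTheory
open scoped ContDiff InnerProductSpace

noncomputable section

namespace CPTM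

/-- the direction of a letter -/
def dir (i : Bool) : ℝ × ℝ := if i then (1, 0) else (0, 1)

lemma pd_eq (i : Bool) (g : ℝ × ℝ → E3) (p : ℝ × ℝ) : pd i g p = fderiv ℝ g p (dir i) := by
  unfold pd dir
  cases i <;> rfl

section

variable {P Q : Type} [NormedAddCommGroup P] [NormedSpace ℝ P] [NormedAddCommGroup Q]
  [NormedSpace ℝ Q]

/-- partial derivative of a smooth function with a parameter -/
lemma partial_fderiv (H : P × Q → E3) (x : P × Q) (h : DifferentiableAt ℝ H x) (v : Q) :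
    fderiv ℝ (fun q => H (x.1, q)) x.2 v = fderiv ℝ H x (0, v) := by
  have h1 : HasFDerivAt (fun q : Q => (x.1, q)) (ContinuousLinearMap.inr ℝ P Q) x.2 :=
    hasFDerivAt_prodMk_right x.1 x.2
  have h2 : HasFDerivAt H (fderiv ℝ H x) ((fun q : Q => (x.1, q)) x.2) := h.hasFDerivAt
  have h3 : HasFDerivAt (fun q => H (x.1, q)) ((fderiv ℝ H x).comp
      (ContinuousLinearMap.inr ℝ P Q)) x.2 := h2.comp x.2 h1
  rw [h3.fderiv]
  rfl

lemma dw_smooth (Ω : Set (P × (ℝ × ℝ))) (hΩ : IsOpen Ω) (G : P × (ℝ × ℝ) → E3)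
    (hG : ContDiffOn ℝ ∞ G Ω) (w : List Bool) :
    ContDiffOn ℝ ∞ (fun x : P × (ℝ × ℝ) => dw w (fun p => G (x.1, p)) x.2) Ω := by
  induction w with
  | nil => exact hG
  | cons i w ih =>
    have h1 : ContDiffOn ℝ ∞ (fun x : P × (ℝ × ℝ) =>
        fderiv ℝ (fun x : P × (ℝ × ℝ) => dw w (fun p => G (x.1, p)) x.2) x (0, dir i)) Ω :=
      (ih.fderiv_of_isOpen hΩ (by simp)).clm_apply contDiffOn_const
    refine h1.congr fun x hx => ?_
    have hd := (ih.contDiffAt (hΩ.mem_nhds hx)).differentiableAt (by simp)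
    change pd i (dw w (fun p => G (x.1, p))) x.2 = _
    rw [pd_eq]
    exact partial_fderiv (fun x : P × (ℝ × ℝ) => dw w (fun p => G (x.1, p)) x.2) x hd (dir i)

lemma it_smooth (Ω : Set (P × ℝ)) (hΩ : IsOpen Ω) (G : P × ℝ → E3)
    (hG : ContDiffOn ℝ ∞ G Ω) (J : ℕ) :
    ContDiffOn ℝ ∞ (fun x : P × ℝ => iteratedDeriv J (fun t => G (x.1, t)) x.2) Ω := by
  induction J with
  | zero =>
    simp only [iteratedDeriv_zero]
    exact hG
  | succ J ih =>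
    have h1 : ContDiffOn ℝ ∞ (fun x : P × ℝ =>
        fderiv ℝ (fun x : P × ℝ => iteratedDeriv J (fun t => G (x.1, t)) x.2) x (0, 1)) Ω :=
      (ih.fderiv_of_isOpen hΩ (by simp)).clm_apply contDiffOn_const
    refine h1.congr fun x hx => ?_
    have hd := (ih.contDiffAt (hΩ.mem_nhds hx)).differentiableAt (by simp)
    rw [iteratedDeriv_succ, ← fderiv_apply_one_eq_deriv]
    exact partial_fderiv (fun x : P × ℝ => iteratedDeriv J (fun t => G (x.1, t)) x.2) x hd 1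

end

lemma bound_words (Ω : Set (ℝ × (ℝ × ℝ))) (hΩ : IsOpen Ω) (G : ℝ × (ℝ × ℝ) → E3)
    (hG : ContDiffOn ℝ ∞ G Ω) (Kc : Set (ℝ × (ℝ × ℝ))) (hK : IsCompact Kc) (hKΩ : Kc ⊆ Ω) :
    ∃ M : ℝ, ∀ w : List Bool, w.length ≤ 21 → ∀ x ∈ Kc,
      ‖dw w (fun p => G (x.1, p)) x.2‖ ≤ M := by
  have h1 : ∀ w : List Bool, ∃ M : ℝ, ∀ x ∈ Kc, ‖dw w (fun p => G (x.1, p)) x.2‖ ≤ M := by
    intro w
    exact hK.exists_bound_of_continuousOn ((dw_smooth Ω hΩ G hG w).continuousOn.mono hKΩ)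
  choose Mw hMw using h1
  obtain ⟨M, hM⟩ := ((List.finite_length_le Bool 21).image Mw).bddAbove
  exact ⟨M, fun w hw x hx => (hMw w x hx).trans (hM ⟨w, hw, rfl⟩)⟩

lemma chart_bound (h φ : ℝ → ℝ) (a b ε : ℝ) (he : 0 < ε)
    (hφ : ContDiffOn ℝ ∞ φ (Ioo (-(4 * ε ^ 2)) (4 * ε ^ 2)))
    (hr : ∀ s ∈ Ico 0 (4 * ε ^ 2), a ≤ φ s ∧ φ s ≤ b ∧ h (φ s) = s) (F : ℝ → E3 → E3)
    (hF : Bending h a b F) :
    ∃ M : ℝ, ∀ α ∈ Icc (0 : ℝ) 1, ∀ w : List Bool, w.length ≤ 21 →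
      ∀ p ∈ Icc (-ε) ε ×ˢ Icc (-ε) ε, ‖dw w (fun p => F α (Ps φ p)) p‖ ≤ M := by
  obtain ⟨Ω₀, hΩ₀, hsub, hFc⟩ := hF.smooth
  have he2 : 0 < ε ^ 2 := by positivity
  let V : Set (ℝ × (ℝ × ℝ)) := {x | x.2.1 ^ 2 + x.2.2 ^ 2 < 4 * ε ^ 2}
  have hVo : IsOpen V := isOpen_lt (by fun_prop) continuous_const
  have hc : ContDiffOn ℝ ∞ (fun x : ℝ × (ℝ × ℝ) => ((x.1, Ps φ x.2) : ℝ × E3)) V := by
    apply ContDiffOn.prodMk contDiff_fst.contDiffOn
    rw [contDiffOn_euclidean]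
    intro i
    fin_cases i
    · exact (contDiff_fst.comp contDiff_snd).contDiffOn
    · exact (contDiff_snd.comp contDiff_snd).contDiffOn
    · have h1 : ContDiffOn ℝ ∞ (fun x : ℝ × (ℝ × ℝ) => x.2.1 ^ 2 + x.2.2 ^ 2) V := by fun_prop
      exact hφ.comp h1 (fun x hx => ⟨by nlinarith [sq_nonneg x.2.1, sq_nonneg x.2.2], hx⟩)
  have hΩ : IsOpen (V ∩ (fun x : ℝ × (ℝ × ℝ) => ((x.1, Ps φ x.2) : ℝ × E3)) ⁻¹' Ω₀) :=
    hc.continuousOn.isOpen_inter_preimage hVo hΩ₀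
  have hG : ContDiffOn ℝ ∞ (fun x : ℝ × (ℝ × ℝ) => F x.1 (Ps φ x.2))
      (V ∩ (fun x : ℝ × (ℝ × ℝ) => ((x.1, Ps φ x.2) : ℝ × E3)) ⁻¹' Ω₀) :=
    hFc.comp (hc.mono inter_subset_left) (fun x hx => hx.2)
  obtain ⟨M, hM⟩ := bound_words _ hΩ (fun x => F x.1 (Ps φ x.2)) hG
    (Icc 0 1 ×ˢ (Icc (-ε) ε ×ˢ Icc (-ε) ε))
    (isCompact_Icc.prod (isCompact_Icc.prod isCompact_Icc)) (by
      rintro ⟨α, x, y⟩ ⟨hα, hx, hy⟩
      have hx2 : x ^ 2 ≤ ε ^ 2 := sq_le_sq' hx.1 hx.2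
      have hy2 : y ^ 2 ≤ ε ^ 2 := sq_le_sq' hy.1 hy.2
      have hlt : x ^ 2 + y ^ 2 < 4 * ε ^ 2 := by linarith
      refine ⟨hlt, hsub ⟨hα, ?_⟩⟩
      obtain ⟨r1, r2, r3⟩ := hr (x ^ 2 + y ^ 2) ⟨by positivity, hlt⟩
      exact ⟨r1, r2, r3.symm⟩)
  exact ⟨M, fun α hα w hw p hp => hM w hw (α, p) ⟨hα, hp⟩⟩

lemma dw_periodic (g : ℝ × ℝ → E3) (v : ℝ × ℝ) (hg : ∀ p, g (p + v) = g p) (w : List Bool) :
    ∀ p, dw w g (p + v) = dw w g p := by
  induction w with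
  | nil => exact hg
  | cons i w ih =>
    intro p
    change pd i (dw w g) (p + v) = pd i (dw w g) p
    rw [pd_eq, pd_eq, ← fderiv_comp_add_right v]
    have h1 : (fun x => dw w g (x + v)) = dw w g := funext ih
    rw [h1]

lemma polar_bound (h : ℝ → ℝ) (a b δ : ℝ) (hh : ContDiff ℝ ∞ h)
    (hpos : ∀ z, a < z → z < b → 0 < h z) (hδ : 0 < δ) (F : ℝ → E3 → E3)
    (hF : Bending h a b F) :
    ∃ M : ℝ, ∀ α ∈ Icc (0 : ℝ) 1, ∀ w : List Bool, w.length ≤ 21 →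
      ∀ z ∈ Icc (a + δ / 2) (b - δ / 2), ∀ θ : ℝ,
        ‖dw w (fun p => F α (X h p.1 p.2)) (z, θ)‖ ≤ M := by
  obtain ⟨Ω₀, hΩ₀, hsub, hFc⟩ := hF.smooth
  let V : Set (ℝ × (ℝ × ℝ)) := {x | a < x.2.1 ∧ x.2.1 < b}
  have hcz : Continuous (fun x : ℝ × (ℝ × ℝ) => x.2.1) := by fun_prop
  have hVo : IsOpen V := (isOpen_lt continuous_const hcz).inter (isOpen_lt hcz continuous_const)
  have hs : ContDiffOn ℝ ∞ (fun x : ℝ × (ℝ × ℝ) => √(h x.2.1)) V := by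
    have h1 : ContDiff ℝ ∞ (fun x : ℝ × (ℝ × ℝ) => h x.2.1) :=
      hh.comp (contDiff_fst.comp contDiff_snd)
    exact h1.contDiffOn.sqrt fun x hx => (hpos _ hx.1 hx.2).ne'
  have hc : ContDiffOn ℝ ∞ (fun x : ℝ × (ℝ × ℝ) => ((x.1, X h x.2.1 x.2.2) : ℝ × E3)) V := by
    apply ContDiffOn.prodMk contDiff_fst.contDiffOn
    rw [contDiffOn_euclidean]
    intro i
    fin_cases i
    · exact hs.mul (Real.contDiff_cos.comp (contDiff_snd.comp contDiff_snd)).contDiffOn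
    · exact hs.mul (Real.contDiff_sin.comp (contDiff_snd.comp contDiff_snd)).contDiffOn
    · exact (contDiff_fst.comp contDiff_snd).contDiffOn
  have hΩ : IsOpen (V ∩ (fun x : ℝ × (ℝ × ℝ) => ((x.1, X h x.2.1 x.2.2) : ℝ × E3)) ⁻¹' Ω₀) :=
    hc.continuousOn.isOpen_inter_preimage hVo hΩ₀
  have hG : ContDiffOn ℝ ∞ (fun x : ℝ × (ℝ × ℝ) => F x.1 (X h x.2.1 x.2.2))
      (V ∩ (fun x : ℝ × (ℝ × ℝ) => ((x.1, X h x.2.1 x.2.2) : ℝ × E3)) ⁻¹' Ω₀) :=
    hFc.comp (hc.mono inter_subset_left) (fun x hx => hx.2)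
  obtain ⟨M, hM⟩ := bound_words _ hΩ (fun x => F x.1 (X h x.2.1 x.2.2)) hG
    (Icc 0 1 ×ˢ (Icc (a + δ / 2) (b - δ / 2) ×ˢ Icc 0 (2 * Real.pi)))
    (isCompact_Icc.prod (isCompact_Icc.prod isCompact_Icc)) (by
      rintro ⟨α, z, θ⟩ ⟨hα, hz, hθ⟩
      have hz1 : a < z := by linarith [hz.1]
      have hz2 : z < b := by linarith [hz.2]
      refine ⟨⟨hz1, hz2⟩, hsub ⟨hα, hz1.le, hz2.le, ?_⟩⟩
      change (√(h z) * Real.cos θ) ^ 2 + (√(h z) * Real.sin θ) ^ 2 = h z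
      rw [mul_pow, mul_pow, ← mul_add, Real.cos_sq_add_sin_sq, mul_one,
        Real.sq_sqrt (hpos z hz1 hz2).le])
  refine ⟨M, fun α hα w hw z hz θ => ?_⟩
  have hper : Function.Periodic (fun θ => dw w (fun p => F α (X h p.1 p.2)) (z, θ))
      (2 * Real.pi) := by
    intro θ
    have h1 := dw_periodic (fun p => F α (X h p.1 p.2)) (0, 2 * Real.pi) (by
      intro p
      simp only [Prod.fst_add, Prod.snd_add, add_zero, X, Real.cos_add_two_pi,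
        Real.sin_add_two_pi]) w (z, θ)
    rw [Prod.mk_add_mk, add_zero] at h1
    exact h1
  obtain ⟨y, hy, hyeq⟩ := hper.exists_mem_Ico₀ Real.two_pi_pos θ
  have hyeq' : dw w (fun p => F α (X h p.1 p.2)) (z, θ) =
      dw w (fun p => F α (X h p.1 p.2)) (z, y) := hyeq
  rw [hyeq']
  exact hM w hw (α, z, y) ⟨hα, hz, hy.1, hy.2.le⟩

lemma surf_compact (h : ℝ → ℝ) (a b : ℝ) (hh : Continuous h) : IsCompact (Surf h a b) := by
  have c : ∀ i : Fin 3, Continuous (fun x : E3 => x i) := fun i => by fun_prop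
  apply Metric.isCompact_of_isClosed_isBounded
  · exact (isClosed_le continuous_const (c 2)).inter ((isClosed_le (c 2) continuous_const).inter
      (isClosed_eq (((c 0).pow 2).add ((c 1).pow 2)) (hh.comp (c 2))))
  · obtain ⟨R, hR⟩ := (isCompact_Icc (a := a) (b := b)).exists_bound_of_continuousOn
      (f := fun z => h z + z ^ 2) (hh.add (continuous_pow 2)).continuousOn
    rw [isBounded_iff_forall_norm_le]
    refine ⟨√R, fun x hx => ?_⟩
    rw [EuclideanSpace.norm_eq]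
    apply Real.sqrt_le_sqrt
    rw [Fin.sum_univ_three]
    simp only [Real.norm_eq_abs, sq_abs]
    have h1 := hR (x 2) ⟨hx.1, hx.2.1⟩
    rw [Real.norm_eq_abs] at h1
    have h2 := le_abs_self (h (x 2) + x 2 ^ 2)
    have h3 := hx.2.2
    linarith

lemma rot_mem (h : ℝ → ℝ) (a b θ : ℝ) (x : E3) (hx : x ∈ Surf h a b) :
    rot θ x ∈ Surf h a b := by
  refine ⟨hx.1, hx.2.1, ?_⟩
  change (Real.cos θ * x 0 - Real.sin θ * x 1) ^ 2 + (Real.sin θ * x 0 + Real.cos θ * x 1) ^ 2 =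
    h (x 2)
  rw [← hx.2.2]
  linear_combination (x 0 ^ 2 + x 1 ^ 2) * Real.sin_sq_add_cos_sq θ

lemma rot_add (t θ : ℝ) (x : E3) : rot (t + θ) x = rot t (rot θ x) := by
  ext i
  fin_cases i
  · change Real.cos (t + θ) * x 0 - Real.sin (t + θ) * x 1 =
      Real.cos t * (Real.cos θ * x 0 - Real.sin θ * x 1) -
        Real.sin t * (Real.sin θ * x 0 + Real.cos θ * x 1)
    rw [Real.cos_add, Real.sin_add]
    ring
  · change Real.sin (t + θ) * x 0 + Real.cos (t + θ) * x 1 =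
      Real.sin t * (Real.cos θ * x 0 - Real.sin θ * x 1) +
        Real.cos t * (Real.sin θ * x 0 + Real.cos θ * x 1)
    rw [Real.cos_add, Real.sin_add]
    ring
  · rfl

lemma rot_zero (x : E3) : rot 0 x = x := by
  ext i
  fin_cases i
  · change Real.cos 0 * x 0 - Real.sin 0 * x 1 = x 0
    simp
  · change Real.sin 0 * x 0 + Real.cos 0 * x 1 = x 1
    simp
  · rfl

lemma rot_bound (h : ℝ → ℝ) (a b : ℝ) (hh : Continuous h) (F : ℝ → E3 → E3)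
    (hF : Bending h a b F) (J : ℕ) :
    ∃ M : ℝ, ∀ α ∈ Icc (0 : ℝ) 1, ∀ x ∈ Surf h a b, ∀ θ,
      ‖iteratedDeriv J (fun t => F α (rot t x)) θ‖ ≤ M := by
  obtain ⟨Ω₀, hΩ₀, hsub, hFc⟩ := hF.smooth
  have hc : ContDiff ℝ ∞ (fun x : (ℝ × E3) × ℝ => ((x.1.1, rot x.2 x.1.2) : ℝ × E3)) := by
    have p0 : ∀ i : Fin 3, ContDiff ℝ ∞ (fun x : (ℝ × E3) × ℝ => x.1.2 i) := fun i => by fun_prop
    have pc : ContDiff ℝ ∞ (fun x : (ℝ × E3) × ℝ => Real.cos x.2) :=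
      Real.contDiff_cos.comp contDiff_snd
    have ps : ContDiff ℝ ∞ (fun x : (ℝ × E3) × ℝ => Real.sin x.2) :=
      Real.contDiff_sin.comp contDiff_snd
    apply ContDiff.prodMk (contDiff_fst.comp contDiff_fst)
    rw [contDiff_euclidean]
    intro i
    fin_cases i
    · exact (pc.mul (p0 0)).sub (ps.mul (p0 1))
    · exact (ps.mul (p0 0)).add (pc.mul (p0 1))
    · exact p0 2
  have hΩ : IsOpen ((fun x : (ℝ × E3) × ℝ => ((x.1.1, rot x.2 x.1.2) : ℝ × E3)) ⁻¹' Ω₀) :=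
    hΩ₀.preimage hc.continuous
  have hG : ContDiffOn ℝ ∞ (fun x : (ℝ × E3) × ℝ => F x.1.1 (rot x.2 x.1.2))
      ((fun x : (ℝ × E3) × ℝ => ((x.1.1, rot x.2 x.1.2) : ℝ × E3)) ⁻¹' Ω₀) :=
    hFc.comp hc.contDiffOn (fun x hx => hx)
  have hK : IsCompact ((Icc (0 : ℝ) 1 ×ˢ Surf h a b) ×ˢ ({0} : Set ℝ)) :=
    (isCompact_Icc.prod (surf_compact h a b hh)).prod isCompact_singleton
  obtain ⟨M, hM⟩ := hK.exists_bound_of_continuousOn
    ((it_smooth _ hΩ (fun x => F x.1.1 (rot x.2 x.1.2)) hG J).continuousOn.mono (by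
      rintro ⟨⟨α, x⟩, t⟩ ⟨⟨hα, hx⟩, ht⟩
      have ht0 : t = 0 := ht
      subst ht0
      refine hsub ⟨hα, ?_⟩
      exact rot_mem h a b 0 x hx))
  refine ⟨M, fun α hα x hx θ => ?_⟩
  have h1 : iteratedDeriv J (fun t => F α (rot t (rot θ x))) 0 =
      iteratedDeriv J (fun t => F α (rot t x)) θ := by
    have h2 : (fun t => F α (rot t (rot θ x))) = fun t => (fun t => F α (rot t x)) (t + θ) := by
      funext t
      simp only [rot_add]
    rw [h2]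
    have h3 := congrFun (iteratedDeriv_comp_add_const J (fun t => F α (rot t x)) θ) 0
    rw [zero_add] at h3
    exact h3
  rw [← h1]
  exact hM ((α, rot θ x), 0) ⟨⟨hα, rot_mem h a b θ x hx⟩, rfl⟩

end CPTM

open CPTM

/-- **CPT**: uniform bounds. -/
theorem specCPT : SpecCPT := by
  intro h a p q b φa φb ε δ D Ch F hF J
  obtain ⟨M₁, h1⟩ := chart_bound h φa a b ε Ch.e0 Ch.sa Ch.ra F hF
  obtain ⟨M₂, h2⟩ := chart_bound h φb a b ε Ch.e0 Ch.sb Ch.rb F hF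
  obtain ⟨M₃, h3⟩ := polar_bound h a b δ D.smooth D.pos Ch.d0 F hF
  obtain ⟨M₄, h4⟩ := rot_bound h a b D.smooth.continuous F hF J
  refine ⟨max (max M₁ M₂) (max M₃ M₄), fun α hα => ⟨?_, ?_, ?_, ?_⟩⟩
  · intro w hw p hp
    exact (h1 α hα w hw p hp).trans ((le_max_left _ _).trans (le_max_left _ _))
  · intro w hw p hp
    exact (h2 α hα w hw p hp).trans ((le_max_right _ _).trans (le_max_left _ _))
  · intro w hw z hz θ
    exact (h3 α hα w hw z hz θ).trans ((le_max_left _ _).trans (le_max_right _ _))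
  · intro x hx θ
    exact (h4 α hα x hx θ).trans ((le_max_right _ _).trans (le_max_right _ _))

end

end Pool.Agent.Lib.MP478c11.DB.S
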