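import Pool.Agent.Lib.MP_478c11_gt.DB.GeoS

/-!
# MP_478c11_gt, module ISE: the displacement in polar coordinates
-/

set_option autoImplicit false

namespace Pool.Agent.Lib.MP478c11.DB.S

open Set Filter Topology MeasureTheory
open scoped ContDiff InnerProductSpace

namespace ISEM

lemma X0 (h : ℝ → ℝ) (z θ : ℝ) : X h z θ 0 = √(h z) * Real.cos θ := rfl
lemma X1 (h : ℝ → ℝ) (z θ : ℝ) : X h z θ 1 = √(h z) * Real.sin θ := rfl
lemma X2 (h : ℝ → ℝ) (z θ : ℝ) : X h z θ 2 = z := rfl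

lemma X_mem {h : ℝ → ℝ} {a p q b : ℝ} (hD : Dumb h a p q b) {z : ℝ} (hz : z ∈ Ioo a b) (θ : ℝ) :
    X h z θ ∈ Surf h a b := by
  refine ⟨hz.1.le, hz.2.le, ?_⟩
  rw [X0, X1, X2]
  have h1 : √(h z) ^ 2 = h z := Real.sq_sqrt (hD.pos z hz.1 hz.2).le
  have h2 := Real.sin_sq_add_cos_sq θ
  calc (√(h z) * Real.cos θ) ^ 2 + (√(h z) * Real.sin θ) ^ 2
      = √(h z) ^ 2 * (Real.sin θ ^ 2 + Real.cos θ ^ 2) := by ring
    _ = h z := by rw [h1, h2, mul_one]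

lemma X_smooth {h : ℝ → ℝ} {a p q b : ℝ} (hD : Dumb h a p q b) :
    ContDiffOn ℝ ∞ (fun p : ℝ × ℝ => X h p.1 p.2) (Ioo a b ×ˢ univ) := by
  have hs : ContDiffOn ℝ ∞ (fun p : ℝ × ℝ => √(h p.1)) (Ioo a b ×ˢ univ) := by
    apply ContDiffOn.sqrt
    · exact (hD.smooth.comp contDiff_fst).contDiffOn
    · rintro ⟨z, θ⟩ ⟨hz, -⟩
      exact (hD.pos z hz.1 hz.2).ne'
  rw [contDiffOn_euclidean]
  intro i
  fin_cases i
  · exact hs.mul (Real.contDiff_cos.comp contDiff_snd).contDiffOn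
  · exact hs.mul (Real.contDiff_sin.comp contDiff_snd).contDiffOn
  · exact contDiff_fst.contDiffOn

lemma tan_curve {h : ℝ → ℝ} (hh : ContDiff ℝ ∞ h) {a b : ℝ} {c : ℝ → E3} {v : E3} {t : ℝ}
    (hc : HasDerivAt c v t) (hS : ∀ᶠ s in 𝓝 t, c s ∈ Surf h a b) : Tan h (c t) v := by
  have hi : ∀ i, HasDerivAt (fun s => c s i) (v i) t := by
    intro i
    exact (EuclideanSpace.proj (𝕜 := ℝ) i : E3 →L[ℝ] ℝ).hasFDerivAt.comp_hasDerivAt t hc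
  have h1 : HasDerivAt (fun s => c s 0 ^ 2 + c s 1 ^ 2) (2 * (c t 0 * v 0 + c t 1 * v 1)) t := by
    have := ((hi 0).pow 2).add ((hi 1).pow 2)
    refine this.congr_deriv ?_
    simp
    ring
  have h2 : HasDerivAt (fun s => h (c s 2)) (deriv h (c t 2) * v 2) t := by
    have hd : HasDerivAt h (deriv h (c t 2)) (c t 2) :=
      (hh.differentiable (by simp)).differentiableAt.hasDerivAt
    exact hd.comp t (hi 2)
  have h3 : (fun s => c s 0 ^ 2 + c s 1 ^ 2) =ᶠ[𝓝 t] (fun s => h (c s 2)) := by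
    filter_upwards [hS] with s hs
    exact hs.2.2
  exact (h1.congr_of_eventuallyEq h3.symm).unique h2

lemma tan_add {h : ℝ → ℝ} {x v w : E3} (hv : Tan h x v) (hw : Tan h x w) : Tan h x (v + w) := by
  unfold Tan at *
  have e : ∀ i, (v + w) i = v i + w i := fun i => rfl
  rw [e, e, e]
  linarith

lemma inner_facts {A B v w : E3} (h1 : ‖A‖ = ‖v‖) (h2 : ‖B‖ = ‖w‖) (h3 : ‖A + B‖ = ‖v + w‖) :
    ⟪A - v, v⟫_ℝ = -‖A - v‖ ^ 2 / 2 ∧ ⟪B - w, w⟫_ℝ = -‖B - w‖ ^ 2 / 2 ∧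
      ⟪A - v, w⟫_ℝ + ⟪B - w, v⟫_ℝ = -⟪A - v, B - w⟫_ℝ := by
  have e1 : ‖A - v‖ ^ 2 = ‖A‖ ^ 2 - 2 * ⟪A, v⟫_ℝ + ‖v‖ ^ 2 := norm_sub_sq_real A v
  have e2 : ‖B - w‖ ^ 2 = ‖B‖ ^ 2 - 2 * ⟪B, w⟫_ℝ + ‖w‖ ^ 2 := norm_sub_sq_real B w
  have e3 : ‖A + B‖ ^ 2 = ‖A‖ ^ 2 + 2 * ⟪A, B⟫_ℝ + ‖B‖ ^ 2 := norm_add_sq_real A B
  have e4 : ‖v + w‖ ^ 2 = ‖v‖ ^ 2 + 2 * ⟪v, w⟫_ℝ + ‖w‖ ^ 2 := norm_add_sq_real v w
  have e5 : ⟪v, v⟫_ℝ = ‖v‖ ^ 2 := real_inner_self_eq_norm_sq v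
  have e6 : ⟪w, w⟫_ℝ = ‖w‖ ^ 2 := real_inner_self_eq_norm_sq w
  have e7 : ⟪w, v⟫_ℝ = ⟪v, w⟫_ℝ := real_inner_comm v w
  have e8 : ⟪v, B⟫_ℝ = ⟪B, v⟫_ℝ := real_inner_comm B v
  refine ⟨?_, ?_, ?_⟩
  · rw [inner_sub_left, e1, e5, h1]; ring
  · rw [inner_sub_left, e2, e6, h2]; ring
  · rw [h3, e4, h1, h2] at e3
    simp only [inner_sub_left, inner_sub_right]
    rw [e7, e8]
    linarith

end ISEM

open ISEM in
theorem specISE : SpecISE := by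
  intro h a p q b hD f hG
  obtain ⟨Ω, hΩ, hS, hf⟩ := hG.smooth
  have hX := X_smooth hD
  have hmaps : MapsTo (fun p : ℝ × ℝ => X h p.1 p.2) (Ioo a b ×ˢ univ) Ω := by
    rintro ⟨z, θ⟩ ⟨hz, -⟩
    exact hS (X_mem hD hz θ)
  have hfX : ContDiffOn ℝ ∞ (fun p : ℝ × ℝ => f (X h p.1 p.2)) (Ioo a b ×ˢ univ) :=
    hf.comp hX hmaps
  refine ⟨⟨hfX.sub hX, ?_⟩, ?_⟩
  · intro z θ
    have : X h z (θ + 2 * Real.pi) = X h z θ := by
      unfold X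
      rw [Real.cos_add_two_pi, Real.sin_add_two_pi]
    unfold Uf
    rw [this]
  · intro z hz θ
    have hopen : IsOpen (Ioo a b ×ˢ (univ : Set ℝ)) := isOpen_Ioo.prod isOpen_univ
    have hmem : (z, θ) ∈ Ioo a b ×ˢ (univ : Set ℝ) := ⟨hz, mem_univ _⟩
    have hXd : DifferentiableAt ℝ (fun p : ℝ × ℝ => X h p.1 p.2) (z, θ) :=
      (hX.contDiffAt (hopen.mem_nhds hmem)).differentiableAt (by simp)
    have hdz : HasDerivAt (fun s => X h s θ) (dz (X h) z θ) z := by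
      have h1 : DifferentiableAt ℝ (fun s : ℝ => (s, θ)) z := by fun_prop
      have h2 : DifferentiableAt ℝ ((fun p : ℝ × ℝ => X h p.1 p.2) ∘ (fun s : ℝ => (s, θ))) z :=
        DifferentiableAt.comp z hXd h1
      exact h2.hasDerivAt
    have hdt : HasDerivAt (fun s => X h z s) (dt (X h) z θ) θ := by
      have h1 : DifferentiableAt ℝ (fun s : ℝ => (z, s)) θ := by fun_prop
      have h2 : DifferentiableAt ℝ ((fun p : ℝ × ℝ => X h p.1 p.2) ∘ (fun s : ℝ => (z, s))) θ :=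
        DifferentiableAt.comp θ hXd h1
      exact h2.hasDerivAt
    have hfd : HasFDerivAt f (fderiv ℝ f (X h z θ)) (X h z θ) :=
      ((hf.contDiffAt (hΩ.mem_nhds (hS (X_mem hD hz θ)))).differentiableAt (by simp)).hasFDerivAt
    have huz : dz (Uf h f) z θ = fderiv ℝ f (X h z θ) (dz (X h) z θ) - dz (X h) z θ := by
      have h1 : HasDerivAt (fun s => f (X h s θ)) (fderiv ℝ f (X h z θ) (dz (X h) z θ)) z :=
        hfd.comp_hasDerivAt z hdz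
      exact (h1.sub hdz).deriv
    have hut : dt (Uf h f) z θ = fderiv ℝ f (X h z θ) (dt (X h) z θ) - dt (X h) z θ := by
      have h1 : HasDerivAt (fun s => f (X h z s)) (fderiv ℝ f (X h z θ) (dt (X h) z θ)) θ :=
        hfd.comp_hasDerivAt θ hdt
      exact (h1.sub hdt).deriv
    have tz1 : Tan h (X h z θ) (dz (X h) z θ) := by
      refine tan_curve (a := a) (b := b) (c := fun s => X h s θ) (t := z) hD.smooth hdz ?_
      filter_upwards [isOpen_Ioo.mem_nhds hz] with s hs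
      exact X_mem hD hs θ
    have tt1 : Tan h (X h z θ) (dt (X h) z θ) := by
      refine tan_curve (a := a) (b := b) (c := fun s => X h z s) (t := θ) hD.smooth hdt ?_
      filter_upwards with s
      exact X_mem hD hz s
    have n1 := hG.iso _ (X_mem hD hz θ) _ tz1
    have n2 := hG.iso _ (X_mem hD hz θ) _ tt1
    have n3 := hG.iso _ (X_mem hD hz θ) _ (tan_add tz1 tt1)
    rw [map_add] at n3
    rw [huz, hut]
    exact inner_facts n1 n2 n3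

end Pool.Agent.Lib.MP478c11.DB.S
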