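import Pool.Agent.Lib.MP_478c11_gt.DB.GeoS

/-!
# MP_478c11_gt, DB, module MEQ: the equations of the modes
-/

set_option autoImplicit false

namespace Pool.Agent.Lib.MP478c11.DB.S

open Set Filter Topology MeasureTheory
open scoped ContDiff InnerProductSpace

namespace MEQM

section basic

variable {E : Type} [NormedAddCommGroup E] [NormedSpace ℝ E]

lemma hasZ {a b : ℝ} {U : ℝ → ℝ → E} (hU : Fld a b U) {z : ℝ} (hz : z ∈ Ioo a b) (θ : ℝ) :
    HasDerivAt (fun s => U s θ) (dz U z θ) z := by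
  have h1 : DifferentiableAt ℝ (fun p : ℝ × ℝ => U p.1 p.2) ((fun s : ℝ => ((s, θ) : ℝ × ℝ)) z) :=
    (hU.1.contDiffAt ((isOpen_Ioo.prod isOpen_univ).mem_nhds ⟨hz, mem_univ _⟩)).differentiableAt
      (by simp)
  have h2 : DifferentiableAt ℝ (fun s : ℝ => ((s, θ) : ℝ × ℝ)) z := by fun_prop
  have h3 := DifferentiableAt.comp z h1 h2
  exact h3.hasDerivAt

lemma hasT {a b : ℝ} {U : ℝ → ℝ → E} (hU : Fld a b U) {z : ℝ} (hz : z ∈ Ioo a b) (θ : ℝ) :
    HasDerivAt (fun s => U z s) (dt U z θ) θ := by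
  have h1 : DifferentiableAt ℝ (fun p : ℝ × ℝ => U p.1 p.2) ((fun s : ℝ => ((z, s) : ℝ × ℝ)) θ) :=
    (hU.1.contDiffAt ((isOpen_Ioo.prod isOpen_univ).mem_nhds ⟨hz, mem_univ _⟩)).differentiableAt
      (by simp)
  have h2 : DifferentiableAt ℝ (fun s : ℝ => ((z, s) : ℝ × ℝ)) θ := by fun_prop
  have h3 := DifferentiableAt.comp θ h1 h2
  exact h3.hasDerivAt

end basic

lemma cf_congr {n : ℤ} {φ ψ : ℝ → ℝ → ℝ} {z : ℝ} (h : ∀ θ, φ z θ = ψ z θ) :
    cf n φ z = cf n ψ z := by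
  unfold cf
  simp only [h]

lemma fld_lin {a b : ℝ} {φ ψ : ℝ → ℝ → ℝ} (s t : ℝ) (h1 : Fld a b φ) (h2 : Fld a b ψ) :
    Fld a b (fun z θ => s * φ z θ + t * ψ z θ) := by
  refine ⟨(contDiffOn_const.mul h1.1).add (contDiffOn_const.mul h2.1), ?_⟩
  intro z θ
  simp only [h1.2, h2.2]

lemma inner3 (u v : E3) : ⟪u, v⟫_ℝ = u 0 * v 0 + u 1 * v 1 + u 2 * v 2 := by
  rw [PiLp.inner_apply, Fin.sum_univ_three]
  simp only [RCLike.inner_apply, conj_trivial]
  ring

lemma fld_X {h : ℝ → ℝ} {a b : ℝ} (hs : ContDiff ℝ ∞ h) (hpos : ∀ z ∈ Ioo a b, 0 < h z) :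
    Fld a b (X h) := by
  constructor
  · have hsq : ContDiffOn ℝ ∞ (fun p : ℝ × ℝ => √(h p.1)) (Ioo a b ×ˢ univ) := by
      apply ContDiffOn.sqrt
      · exact (hs.comp contDiff_fst).contDiffOn
      · intro p hp
        exact (hpos p.1 hp.1).ne'
    rw [contDiffOn_euclidean]
    intro i
    fin_cases i
    · exact hsq.mul (Real.contDiff_cos.comp contDiff_snd).contDiffOn
    · exact hsq.mul (Real.contDiff_sin.comp contDiff_snd).contDiffOn
    · exact contDiff_fst.contDiffOn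
  · intro z θ
    simp [X]

lemma hasR {h : ℝ → ℝ} (hs : ContDiff ℝ ∞ h) {z : ℝ} (hz : 0 < h z) :
    HasDerivAt (fun s => √(h s)) (deriv h z / (2 * √(h z))) z := by
  have h1 : HasDerivAt h (deriv h z) z :=
    (hs.differentiable (by simp) z).hasDerivAt
  exact h1.sqrt hz.ne'

/-- the pointwise equations -/
lemma pointwise (hFLE : SpecFLE) {h : ℝ → ℝ} {a p q b : ℝ} (hD : Dumb h a p q b) {U : ℝ → ℝ → E3}
    (hU : Fld a b U) (hI : IsoEq h a b U) {z : ℝ} (hz : z ∈ Ioo a b) (θ : ℝ) :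
    (deriv h z / (2 * √(h z)) * dz (cA U) z θ + dz (cw U) z θ = -(1 / (2 * h z)) * s1 h U z θ) ∧
    (cA U z θ + dt (cB U) z θ = -(√(h z) / 2) * s2 h U z θ) ∧
    (√(h z) * dz (cB U) z θ + deriv h z / (2 * √(h z)) * (dt (cA U) z θ - cB U z θ)
      + dt (cw U) z θ = -s3 U z θ) := by
  have hpos : ∀ z ∈ Ioo a b, 0 < h z := fun z hz => hD.pos z hz.1 hz.2
  have hh := hpos z hz
  obtain ⟨f1, f2, f3, fA, fB, fw, fs1, fs2, fs3, f4⟩ := hFLE h a b U hD.smooth hpos hU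
  obtain ⟨-, -, -, -, -, -, -, -, -, g4⟩ :=
    hFLE h a b (X h) hD.smooth hpos (fld_X hD.smooth hpos)
  -- components of the derivatives of `U`
  have cz : ∀ i, HasDerivAt (fun s => U s θ i) (dz U z θ i) z := by
    intro i
    have h1 := hasZ (f3 i) hz θ
    rwa [((f4 z hz θ).2 i).1] at h1
  have ct : ∀ i, HasDerivAt (fun s => U z s i) (dt U z θ i) θ := by
    intro i
    have h1 := hasT (f3 i) hz θ
    rwa [((f4 z hz θ).2 i).2] at h1
  -- components of the derivatives of `X`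
  have hR := hasR hD.smooth hh
  have x0 : dz (X h) z θ 0 = deriv h z / (2 * √(h z)) * Real.cos θ := by
    rw [← ((g4 z hz θ).2 0).1]
    exact (hR.mul_const (Real.cos θ)).deriv
  have x1 : dz (X h) z θ 1 = deriv h z / (2 * √(h z)) * Real.sin θ := by
    rw [← ((g4 z hz θ).2 1).1]
    exact (hR.mul_const (Real.sin θ)).deriv
  have x2 : dz (X h) z θ 2 = 1 := by
    rw [← ((g4 z hz θ).2 2).1]
    exact (hasDerivAt_id z).deriv
  have y0 : dt (X h) z θ 0 = √(h z) * (-Real.sin θ) := by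
    rw [← ((g4 z hz θ).2 0).2]
    exact ((Real.hasDerivAt_cos θ).const_mul (√(h z))).deriv
  have y1 : dt (X h) z θ 1 = √(h z) * Real.cos θ := by
    rw [← ((g4 z hz θ).2 1).2]
    exact ((Real.hasDerivAt_sin θ).const_mul (√(h z))).deriv
  have y2 : dt (X h) z θ 2 = 0 := by
    rw [← ((g4 z hz θ).2 2).2]
    exact (hasDerivAt_const θ z).deriv
  -- the components in the rotating frame
  have az : dz (cA U) z θ = Real.cos θ * dz U z θ 0 + Real.sin θ * dz U z θ 1 :=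
    (((cz 0).const_mul (Real.cos θ)).add ((cz 1).const_mul (Real.sin θ))).deriv
  have bz : dz (cB U) z θ = -Real.sin θ * dz U z θ 0 + Real.cos θ * dz U z θ 1 :=
    (((cz 0).const_mul (-Real.sin θ)).add ((cz 1).const_mul (Real.cos θ))).deriv
  have wz : dz (cw U) z θ = dz U z θ 2 := (cz 2).deriv
  have at' : dt (cA U) z θ = (-Real.sin θ * U z θ 0 + Real.cos θ * dt U z θ 0)
      + (Real.cos θ * U z θ 1 + Real.sin θ * dt U z θ 1) :=
    (((Real.hasDerivAt_cos θ).mul (ct 0)).add ((Real.hasDerivAt_sin θ).mul (ct 1))).deriv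
  have bt : dt (cB U) z θ = (-Real.cos θ * U z θ 0 + -Real.sin θ * dt U z θ 0)
      + (-Real.sin θ * U z θ 1 + Real.cos θ * dt U z θ 1) :=
    (((Real.hasDerivAt_sin θ).neg.mul (ct 0)).add ((Real.hasDerivAt_cos θ).mul (ct 1))).deriv
  have wt : dt (cw U) z θ = dt U z θ 2 := (ct 2).deriv
  obtain ⟨i1, i2, i3⟩ := hI z hz θ
  rw [inner3, x0, x1, x2] at i1
  rw [inner3, y0, y1, y2] at i2
  rw [inner3, inner3, x0, x1, x2, y0, y1, y2] at i3
  have hr : 0 < √(h z) := Real.sqrt_pos.2 hh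
  have hr2 : √(h z) * √(h z) = h z := Real.mul_self_sqrt hh.le
  refine ⟨?_, ?_, ?_⟩
  · rw [az, wz]
    have e1 : -(1 / (2 * h z)) * s1 h U z θ = -‖dz U z θ‖ ^ 2 / 2 := by
      unfold s1
      field_simp
    rw [e1, ← i1]
    ring
  · rw [bt]
    have e0 : s2 h U z θ = ‖dt U z θ‖ ^ 2 / (√(h z) * √(h z)) := by
      rw [hr2]
      rfl
    have e1 : -(√(h z) / 2) * s2 h U z θ = -‖dt U z θ‖ ^ 2 / 2 / √(h z) := by
      rw [e0]
      field_simp
    rw [e1, ← i2]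
    unfold cA
    field_simp
    ring
  · rw [bz, at', wt]
    have e1 : -s3 U z θ = -⟪dz U z θ, dt U z θ⟫_ℝ := rfl
    rw [e1, ← i3]
    unfold cB
    ring

/-- the equations for the coefficients -/
lemma coefs (hDUI : SpecDUI) (hFLE : SpecFLE) {h : ℝ → ℝ} {a p q b : ℝ} (hD : Dumb h a p q b)
    {U : ℝ → ℝ → E3} (hU : Fld a b U) (hI : IsoEq h a b U) (n : ℤ) {z : ℝ} (hz : z ∈ Ioo a b) :
    (((deriv h z / (2 * √(h z)) : ℝ) : ℂ) * cf n (dz (cA U)) z + cf n (dz (cw U)) z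
      = -(1 / (2 * (h z : ℂ))) * cf n (s1 h U) z) ∧
    (cf n (cA U) z + Complex.I * n * cf n (cB U) z
      = -(((√(h z) : ℝ) : ℂ) / 2) * cf n (s2 h U) z) ∧
    (((√(h z) : ℝ) : ℂ) * cf n (dz (cB U)) z + ((deriv h z / (2 * √(h z)) : ℝ) : ℂ) *
      (Complex.I * n * cf n (cA U) z - cf n (cB U) z) + Complex.I * n * cf n (cw U) z
      = -cf n (s3 U) z) := by
  have hpos : ∀ z ∈ Ioo a b, 0 < h z := fun z hz => hD.pos z hz.1 hz.2
  obtain ⟨f1, f2, f3, fA, fB, fw, fs1, fs2, fs3, f4⟩ := hFLE h a b U hD.smooth hpos hU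
  obtain ⟨d1, d2, -, -, d5⟩ := hDUI
  have hpt := fun θ => pointwise hFLE hD hU hI hz θ
  have fAz := (d5 a b _ fA).1
  have fAt := (d5 a b _ fA).2
  have fBz := (d5 a b _ fB).1
  have fBt := (d5 a b _ fB).2
  have fwz := (d5 a b _ fw).1
  have fwt := (d5 a b _ fw).2
  refine ⟨?_, ?_, ?_⟩
  · have e1 := d2 a b (dz (cA U)) (dz (cw U)) n (deriv h z / (2 * √(h z))) 1 fAz fwz z hz
    have e2 := d2 a b (s1 h U) (s1 h U) n (-(1 / (2 * h z))) 0 fs1 fs1 z hz
    have e3 : cf n (fun z' θ => deriv h z / (2 * √(h z)) * dz (cA U) z' θ + 1 * dz (cw U) z' θ) z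
        = cf n (fun z' θ => -(1 / (2 * h z)) * s1 h U z' θ + 0 * s1 h U z' θ) z := by
      apply cf_congr
      intro θ
      have := (hpt θ).1
      linarith
    rw [e1, e2] at e3
    push_cast at e3 ⊢
    linear_combination e3
  · have e1 := d2 a b (cA U) (dt (cB U)) n 1 1 fA fBt z hz
    have e2 := d2 a b (s2 h U) (s2 h U) n (-(√(h z) / 2)) 0 fs2 fs2 z hz
    have e3 : cf n (fun z' θ => 1 * cA U z' θ + 1 * dt (cB U) z' θ) z
        = cf n (fun z' θ => -(√(h z) / 2) * s2 h U z' θ + 0 * s2 h U z' θ) z := by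
      apply cf_congr
      intro θ
      have := (hpt θ).2.1
      linarith
    rw [e1, e2, (d1 a b (cB U) n fB z hz).2] at e3
    push_cast at e3 ⊢
    linear_combination e3
  · have e1 := d2 a b (dz (cB U)) (dt (cA U)) n (√(h z)) (deriv h z / (2 * √(h z))) fBz fAt z hz
    have e1' := d2 a b (cB U) (dt (cw U)) n (-(deriv h z / (2 * √(h z)))) 1 fB fwt z hz
    have e1'' := d2 a b _ _ n 1 1
      (fld_lin (√(h z)) (deriv h z / (2 * √(h z))) fBz fAt)
      (fld_lin (-(deriv h z / (2 * √(h z)))) 1 fB fwt) z hz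
    have e2 := d2 a b (s3 U) (s3 U) n (-1) 0 fs3 fs3 z hz
    have e3 : cf n (fun z' θ => 1 * (√(h z) * dz (cB U) z' θ
          + deriv h z / (2 * √(h z)) * dt (cA U) z' θ)
          + 1 * (-(deriv h z / (2 * √(h z))) * cB U z' θ + 1 * dt (cw U) z' θ)) z
        = cf n (fun z' θ => (-1) * s3 U z' θ + 0 * s3 U z' θ) z := by
      apply cf_congr
      intro θ
      have := (hpt θ).2.2
      linarith
    rw [e1'', e1, e1', e2, (d1 a b (cA U) n fA z hz).2, (d1 a b (cw U) n fw z hz).2] at e3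
    push_cast at e3 ⊢
    linear_combination e3

lemma vn_eq (hDUI : SpecDUI) (hFLE : SpecFLE) {h : ℝ → ℝ} {a p q b : ℝ} (hD : Dumb h a p q b)
    {U : ℝ → ℝ → E3} (hU : Fld a b U) (hI : IsoEq h a b U) (n : ℤ) {z : ℝ} (hz : z ∈ Ioo a b) :
    vn h U n z = -cf n (s3 U) z + Complex.I * n / 4 * ((deriv h z : ℝ) : ℂ) * cf n (s2 h U) z
      - (n : ℂ) ^ 2 * ((deriv h z / 2 : ℝ) : ℂ) * yn h U n z - Complex.I * n * cf n (cw U) z := by
  obtain ⟨-, c2, c3⟩ := coefs hDUI hFLE hD hU hI n hz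
  have hh := hD.pos z hz.1 hz.2
  have hr : ((√(h z) : ℝ) : ℂ) ≠ 0 := by
    exact_mod_cast (Real.sqrt_pos.2 hh).ne'
  unfold vn yn
  have c2' : cf n (cA U) z = -(((√(h z) : ℝ) : ℂ) / 2) * cf n (s2 h U) z
      - Complex.I * n * cf n (cB U) z := by linear_combination c2
  rw [c2'] at c3
  push_cast at c3 ⊢
  have hI2 : Complex.I ^ 2 = -1 := Complex.I_sq
  have e1 : ((√(h z) : ℝ) : ℂ) * cf n (dz (cB U)) z
      - ((deriv h z : ℝ) : ℂ) / (2 * ((√(h z) : ℝ) : ℂ)) * cf n (cB U) z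
      = -cf n (s3 U) z - Complex.I * n * cf n (cw U) z
      - ((deriv h z : ℝ) : ℂ) / (2 * ((√(h z) : ℝ) : ℂ)) * (Complex.I * n *
        (-(((√(h z) : ℝ) : ℂ) / 2) * cf n (s2 h U) z - Complex.I * n * cf n (cB U) z)) := by
    linear_combination c3
  rw [e1]
  have e2 : ((deriv h z : ℝ) : ℂ) / (2 * ((√(h z) : ℝ) : ℂ)) * (Complex.I * n *
        (-(((√(h z) : ℝ) : ℂ) / 2) * cf n (s2 h U) z - Complex.I * n * cf n (cB U) z))
      = -(Complex.I * n / 4 * ((deriv h z : ℝ) : ℂ) * cf n (s2 h U) z)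
        + (n : ℂ) ^ 2 * (((deriv h z : ℝ) : ℂ) / 2) * (cf n (cB U) z / ((√(h z) : ℝ) : ℂ)) := by
    field_simp
    linear_combination (-(8 : ℂ) * ((deriv h z : ℝ) : ℂ) * (n : ℂ) ^ 2 * cf n (cB U) z) * hI2
  rw [e2]
  ring

end MEQM

open MEQM in
theorem specMEQ (hDUI : SpecDUI) (hFLE : SpecFLE) : SpecMEQ := by
  intro h a p q b hD U hU hI
  have hpos : ∀ z ∈ Ioo a b, 0 < h z := fun z hz => hD.pos z hz.1 hz.2
  obtain ⟨f1, f2, f3, fA, fB, fw, fs1, fs2, fs3, f4⟩ := hFLE h a b U hD.smooth hpos hU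
  have d1 := hDUI.1
  have hs := hD.smooth
  have hd1 : ContDiff ℝ ∞ (deriv h) := (contDiff_infty_iff_deriv.1 hs).2
  -- the derivative of `y_n`
  have hy : ∀ (n : ℤ), ∀ z ∈ Ioo a b, HasDerivAt (yn h U n) (vn h U n z / (h z : ℂ)) z := by
    intro n z hz
    have hh := hpos z hz
    have hr0 : √(h z) ≠ 0 := (Real.sqrt_pos.2 hh).ne'
    have hr : ((√(h z) : ℝ) : ℂ) ≠ 0 := by exact_mod_cast hr0
    have hr2 : (h z : ℂ) = ((√(h z) : ℝ) : ℂ) ^ 2 := by
      rw [← Complex.ofReal_pow, Real.sq_sqrt hh.le]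
    have h1 := (d1 a b (cB U) n fB z hz).1
    have h2 := (hasR hs hh).ofReal_comp
    have h3 := h1.div h2 hr
    have e1 : (cf n (dz (cB U)) z * ((√(h z) : ℝ) : ℂ)
        - cf n (cB U) z * ((deriv h z / (2 * √(h z)) : ℝ) : ℂ)) / ((√(h z) : ℝ) : ℂ) ^ 2
        = vn h U n z / (h z : ℂ) := by
      rw [hr2]
      unfold vn
      ring
    rw [← e1]
    exact h3
  -- the derivative of `A_n`
  have hA : ∀ (n : ℤ), ∀ z ∈ Ioo a b, cf n (dz (cA U)) z =
      -(((deriv h z / (2 * √(h z)) : ℝ) : ℂ) / 2 * cf n (s2 h U) z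
        + ((√(h z) : ℝ) : ℂ) / 2 * cf n (dz (s2 h U)) z)
      - Complex.I * n * cf n (dz (cB U)) z := by
    intro n z hz
    have hh := hpos z hz
    have h1 := (d1 a b (cA U) n fA z hz).1
    have h2 := ((hasR hs hh).ofReal_comp.div_const 2).mul (d1 a b (s2 h U) n fs2 z hz).1
    have h3 := (d1 a b (cB U) n fB z hz).1.const_mul (Complex.I * n)
    have h4 := h2.neg.sub h3
    have heq : cf n (cA U) =ᶠ[𝓝 z] fun z => -((((√(h z) : ℝ) : ℂ) / 2) * cf n (s2 h U) z)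
        - Complex.I * n * cf n (cB U) z := by
      filter_upwards [isOpen_Ioo.mem_nhds hz] with z' hz'
      have := (coefs hDUI hFLE hD hU hI n hz').2.1
      linear_combination this
    have h5 := h4.congr_of_eventuallyEq heq
    exact h1.unique h5
  -- the derivative of `w_n`
  have hw : ∀ (n : ℤ), ∀ z ∈ Ioo a b, cf n (dz (cw U)) z =
      -(1 / (2 * (h z : ℂ))) * cf n (s1 h U) z
      + ((deriv h z ^ 2 / (8 * h z) : ℝ) : ℂ) * cf n (s2 h U) z
      + ((deriv h z / 4 : ℝ) : ℂ) * cf n (dz (s2 h U)) z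
      + Complex.I * n * (((deriv h z / (2 * √(h z)) : ℝ) : ℂ) * cf n (dz (cB U)) z) := by
    intro n z hz
    have hh := hpos z hz
    have hr0 : √(h z) ≠ 0 := (Real.sqrt_pos.2 hh).ne'
    have c1 := (coefs hDUI hFLE hD hU hI n hz).1
    rw [hA n z hz] at c1
    have r1 : deriv h z ^ 2 / (8 * h z)
        = deriv h z / (2 * √(h z)) * (deriv h z / (2 * √(h z))) / 2 := by
      have hr2 : h z = √(h z) ^ 2 := (Real.sq_sqrt hh.le).symm
      rw [hr2, Real.sqrt_sq (Real.sqrt_nonneg _)]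
      field_simp
      ring
    have r2 : deriv h z / 4 = deriv h z / (2 * √(h z)) * √(h z) / 2 := by
      field_simp
      ring
    have r1' : ((deriv h z ^ 2 / (8 * h z) : ℝ) : ℂ)
        = ((deriv h z / (2 * √(h z)) : ℝ) : ℂ) * ((deriv h z / (2 * √(h z)) : ℝ) : ℂ) / 2 := by
      rw [r1]
      push_cast
      ring
    have r2' : ((deriv h z / 4 : ℝ) : ℂ)
        = ((deriv h z / (2 * √(h z)) : ℝ) : ℂ) * ((√(h z) : ℝ) : ℂ) / 2 := by
      rw [r2]
      push_cast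
      ring
    rw [r1', r2']
    linear_combination c1
  intro n z hz
  have hh := hpos z hz
  have hr0 : √(h z) ≠ 0 := (Real.sqrt_pos.2 hh).ne'
  have hr : ((√(h z) : ℝ) : ℂ) ≠ 0 := by exact_mod_cast hr0
  have hhc : (h z : ℂ) ≠ 0 := by exact_mod_cast hh.ne'
  have hr2 : (h z : ℂ) = ((√(h z) : ℝ) : ℂ) ^ 2 := by
    rw [← Complex.ofReal_pow, Real.sq_sqrt hh.le]
  have hI2 : Complex.I ^ 2 = -1 := Complex.I_sq
  refine ⟨?_, vn_eq hDUI hFLE hD hU hI n hz, hy n z hz, ?_, (d1 a b (cB U) n fB z hz).1,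
    (d1 a b (cw U) n fw z hz).1, ?_⟩
  · have := (coefs hDUI hFLE hD hU hI n hz).2.1
    linear_combination this
  · -- the derivative of `v_n`
    have heq : vn h U n =ᶠ[𝓝 z] fun z => -cf n (s3 U) z
        + Complex.I * n / 4 * ((deriv h z : ℝ) : ℂ) * cf n (s2 h U) z
        - (n : ℂ) ^ 2 * ((deriv h z / 2 : ℝ) : ℂ) * yn h U n z
        - Complex.I * n * cf n (cw U) z := by
      filter_upwards [isOpen_Ioo.mem_nhds hz] with z' hz'
      exact vn_eq hDUI hFLE hD hU hI n hz'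
    have hdd : HasDerivAt (deriv h) (deriv (deriv h) z) z :=
      (hd1.differentiable (by simp) z).hasDerivAt
    have t1 := (d1 a b (s3 U) n fs3 z hz).1.neg
    have t2 := (hdd.ofReal_comp.const_mul (Complex.I * n / 4)).mul (d1 a b (s2 h U) n fs2 z hz).1
    have t3 := ((hdd.div_const 2).ofReal_comp.const_mul ((n : ℂ) ^ 2)).mul (hy n z hz)
    have t4 := (d1 a b (cw U) n fw z hz).1.const_mul (Complex.I * n)
    have t5 := ((t1.add t2).sub t3).sub t4
    have t6 := t5.congr_of_eventuallyEq heq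
    have goal : -cf n (dz (s3 U)) z
        + (Complex.I * n / 4 * ((deriv (deriv h) z : ℝ) : ℂ) * cf n (s2 h U) z
          + Complex.I * n / 4 * ((deriv h z : ℝ) : ℂ) * cf n (dz (s2 h U)) z)
        - ((n : ℂ) ^ 2 * ((deriv (deriv h) z / 2 : ℝ) : ℂ) * yn h U n z
          + (n : ℂ) ^ 2 * ((deriv h z / 2 : ℝ) : ℂ) * (vn h U n z / (h z : ℂ)))
        - Complex.I * n * cf n (dz (cw U)) z
        = ((n : ℂ) ^ 2 * (W h z : ℂ) * yn h U n z + Fn h U n z) / (h z : ℂ) := by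
      rw [hw n z hz]
      -- express the derivative of `B_n` by `v_n` and `y_n`
      have b1 : ((deriv h z / (2 * √(h z)) : ℝ) : ℂ) * cf n (dz (cB U)) z
          = ((deriv h z : ℝ) : ℂ) / (2 * (h z : ℂ)) * vn h U n z
            + ((deriv h z : ℝ) : ℂ) ^ 2 / (4 * (h z : ℂ)) * yn h U n z := by
        rw [hr2]
        unfold vn yn
        push_cast
        field_simp
        ring
      rw [b1]
      unfold Fn W
      push_cast
      field_simp
      ring_nf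
      rw [hI2]
      ring
    rw [← goal]
    exact t6
  · have := hw 0 z hz
    rw [this]
    push_cast
    ring

end Pool.Agent.Lib.MP478c11.DB.S
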