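import Pool.Agent.Lib.MP_478c11_gt.DB.GeoS

/-!
# Module MN0: the mode `n = 0`
-/

set_option autoImplicit false

namespace Pool.Agent.Lib.MP478c11.DB.S

open Set Filter Topology MeasureTheory
open scoped ContDiff InnerProductSpace

namespace MN0M

/-- a function which vanishes at `a`, with derivative at most `K / (b - z)` -/
theorem grow (a b K : ℝ) (g g' : ℝ → ℂ) (hK : 0 ≤ K)
    (hg : ∀ z ∈ Ioo a b, HasDerivAt g (g' z) z) (hb : ∀ z ∈ Ioo a b, ‖g' z‖ ≤ K / (b - z))
    (h0 : Tendsto g (𝓝[>] a) (𝓝 0)) :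
    ∀ z ∈ Ioo a b, ‖g z‖ ≤ K * (40 * ((b - a) / (b - z)) ^ (1 / 40 : ℝ)) := by
  intro z hz
  have hbz : 0 < b - z := by linarith [hz.2]
  have hba : 0 < b - a := by linarith [hz.1]
  have h1 : ∀ a' ∈ Ioo a z, ‖g z‖ ≤ ‖g a'‖ + K * (Real.log (b - a) - Real.log (b - z)) := by
    intro a' ha'
    have hba' : 0 < b - a' := by linarith [ha'.2]
    have h2 := image_norm_le_of_norm_deriv_right_le_deriv_boundary' (f := g) (f' := g') (a := a')
      (b := z) (B := fun t => ‖g a'‖ + K * (Real.log (b - a') - Real.log (b - t)))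
      (B' := fun t => K / (b - t))
      (fun t ht => (hg t ⟨by linarith [ht.1, ha'.1], by linarith [ht.2, hz.2]⟩).continuousAt.continuousWithinAt)
      (fun t ht => (hg t ⟨by linarith [ht.1, ha'.1], by linarith [ht.2, hz.2]⟩).hasDerivWithinAt)
      (by simp)
      (by
        apply ContinuousOn.add continuousOn_const
        apply ContinuousOn.mul continuousOn_const
        apply ContinuousOn.sub continuousOn_const
        apply ContinuousOn.log (by fun_prop)
        intro t ht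
        have : 0 < b - t := by linarith [ht.2]
        exact this.ne')
      (fun t ht => by
        have hbt : 0 < b - t := by linarith [ht.2]
        have e1 : HasDerivAt (fun t : ℝ => b - t) (-1) t := (hasDerivAt_id t).const_sub b
        have e2 := e1.log hbt.ne'
        have e3 := ((e2.const_sub (Real.log (b - a'))).const_mul K).const_add ‖g a'‖
        refine (e3.congr_deriv ?_).hasDerivWithinAt
        field_simp)
      (fun t ht => hb t ⟨by linarith [ht.1, ha'.1], by linarith [ht.2, hz.2]⟩)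
      (right_mem_Icc.2 ha'.2.le)
    refine h2.trans ?_
    have h3 : Real.log (b - a') ≤ Real.log (b - a) :=
      Real.log_le_log hba' (by linarith [ha'.1])
    have h4 : K * (Real.log (b - a') - Real.log (b - z)) ≤
        K * (Real.log (b - a) - Real.log (b - z)) :=
      mul_le_mul_of_nonneg_left (by linarith) hK
    linarith
  have h2 : Tendsto (fun a' => ‖g a'‖ + K * (Real.log (b - a) - Real.log (b - z))) (𝓝[>] a)
      (𝓝 (0 + K * (Real.log (b - a) - Real.log (b - z)))) := by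
    have := h0.norm
    rw [norm_zero] at this
    exact this.add_const _
  have h3 : ‖g z‖ ≤ 0 + K * (Real.log (b - a) - Real.log (b - z)) := by
    refine ge_of_tendsto h2 ?_
    filter_upwards [Ioo_mem_nhdsGT hz.1] with a' ha'
    exact h1 a' ha'
  rw [zero_add, ← Real.log_div hba.ne' hbz.ne'] at h3
  refine h3.trans (mul_le_mul_of_nonneg_left ?_ hK)
  have h4 := Real.log_le_rpow_div (x := (b - a) / (b - z)) (ε := 1 / 40) (by positivity)
    (by norm_num)
  linarith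

/-- the lower bound of `h` near `b` -/
theorem low_b {h : ℝ → ℝ} {a p q b : ℝ} (hD : Dumb h a p q b) :
    ∃ c : ℝ, 0 < c ∧ ∀ z, (a + b) / 2 ≤ z → z < b → c * (b - z) ≤ h z := by
  have hap := hD.ap
  have hpq := hD.pq
  have hqb := hD.qb
  have hdiff : Differentiable ℝ h := (contDiff_infty_iff_deriv.1 hD.smooth).1
  have hd : HasDerivAt h (deriv h b) b := (hdiff b).hasDerivAt
  obtain ⟨s, hs⟩ : ∃ s : ℝ, s = -deriv h b := ⟨_, rfl⟩
  have hs0 : 0 < s := by rw [hs]; linarith [hD.db]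
  have ho := (hasDerivAt_iff_isLittleO.1 hd).def (show 0 < s / 2 by positivity)
  obtain ⟨η, hη, hη1⟩ := Metric.eventually_nhds_iff.1 ho
  have hnear : ∀ z, b - η < z → z < b → s / 2 * (b - z) ≤ h z := by
    intro z hz hzb
    have h1 := hη1 (show dist z b < η by
      rw [Real.dist_eq, abs_lt]
      constructor <;> linarith)
    rw [hD.hb, smul_eq_mul, Real.norm_eq_abs, Real.norm_eq_abs] at h1
    have h2 : |z - b| = b - z := by rw [abs_of_neg (by linarith)]; ring
    rw [h2] at h1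
    have h3 := (abs_le.1 h1).1
    have h4 : (z - b) * deriv h b = s * (b - z) := by rw [hs]; ring
    linarith
  obtain ⟨e, he⟩ : ∃ e : ℝ, e = max ((a + b) / 2) (b - η / 2) := ⟨_, rfl⟩
  have he1 : (a + b) / 2 ≤ e := by rw [he]; exact le_max_left _ _
  have he2 : b - η / 2 ≤ e := by rw [he]; exact le_max_right _ _
  have he3 : e < b := by
    rw [he]
    exact max_lt (by linarith) (by linarith)
  obtain ⟨z₀, hz₀, hmin⟩ := isCompact_Icc.exists_isMinOn (nonempty_Icc.2 he1)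
    hD.smooth.continuous.continuousOn
  have hz₀pos : 0 < h z₀ := hD.pos z₀ (by linarith [hz₀.1]) (by linarith [hz₀.2])
  have hba : 0 < b - a := by linarith
  refine ⟨min (s / 2) (h z₀ / (b - a)), lt_min (by positivity) (by positivity), ?_⟩
  intro z hz hzb
  have hbz : 0 ≤ b - z := by linarith
  rcases le_or_gt z e with hze | hze
  · have h1 : h z₀ ≤ h z := hmin ⟨hz, hze⟩
    calc min (s / 2) (h z₀ / (b - a)) * (b - z) ≤ h z₀ / (b - a) * (b - z) :=
          mul_le_mul_of_nonneg_right (min_le_right _ _) hbz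
      _ ≤ h z₀ / (b - a) * (b - a) :=
          mul_le_mul_of_nonneg_left (by linarith) (by positivity)
      _ = h z₀ := by field_simp
      _ ≤ h z := h1
  · calc min (s / 2) (h z₀ / (b - a)) * (b - z) ≤ s / 2 * (b - z) :=
          mul_le_mul_of_nonneg_right (min_le_left _ _) hbz
      _ ≤ h z := hnear z (by linarith) hzb

theorem apply_le (x : E3) (i : Fin 3) : |x i| ≤ ‖x‖ := by
  have := PiLp.norm_apply_le x i
  simpa using this

theorem cB_le (U : ℝ → ℝ → E3) (z θ : ℝ) : |cB U z θ| ≤ 2 * ‖U z θ‖ := by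
  unfold cB
  have h1 := apply_le (U z θ) 0
  have h2 := apply_le (U z θ) 1
  have h3 : |-Real.sin θ * U z θ 0| ≤ ‖U z θ‖ := by
    rw [abs_mul, abs_neg]
    calc |Real.sin θ| * |U z θ 0| ≤ 1 * ‖U z θ‖ :=
          mul_le_mul (Real.abs_sin_le_one θ) h1 (abs_nonneg _) zero_le_one
      _ = _ := one_mul _
  have h4 : |Real.cos θ * U z θ 1| ≤ ‖U z θ‖ := by
    rw [abs_mul]
    calc |Real.cos θ| * |U z θ 1| ≤ 1 * ‖U z θ‖ :=
          mul_le_mul (Real.abs_cos_le_one θ) h2 (abs_nonneg _) zero_le_one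
      _ = _ := one_mul _
  calc |-Real.sin θ * U z θ 0 + Real.cos θ * U z θ 1|
      ≤ |-Real.sin θ * U z θ 0| + |Real.cos θ * U z θ 1| := abs_add_le _ _
    _ ≤ 2 * ‖U z θ‖ := by linarith

/-- `√h → 0` at `a` -/
theorem sqrt_tendsto {h : ℝ → ℝ} {a p q b : ℝ} (hD : Dumb h a p q b) :
    Tendsto (fun z => √(h z)) (𝓝[>] a) (𝓝 0) := by
  have h1 : Tendsto (fun z => √(h z)) (𝓝 a) (𝓝 (√(h a))) :=
    (Real.continuous_sqrt.comp hD.smooth.continuous).tendsto a
  rw [hD.ha, Real.sqrt_zero] at h1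
  exact h1.mono_left nhdsWithin_le_nhds

theorem h_tendsto {h : ℝ → ℝ} {a p q b : ℝ} (hD : Dumb h a p q b) :
    Tendsto h (𝓝[>] a) (𝓝 0) := by
  have h1 : Tendsto h (𝓝 a) (𝓝 (h a)) := hD.smooth.continuous.tendsto a
  rw [hD.ha] at h1
  exact h1.mono_left nhdsWithin_le_nhds

end MN0M

open MN0M in
theorem specMN0 (hDUI : SpecDUI) (_hFLE : SpecFLE) (hMEQ : SpecMEQ) (hSQB : SpecSQB) :
    SpecMN0 := by
  intro h a p q b hD
  have hap := hD.ap
  have hpq := hD.pq
  have hqb := hD.qb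
  have hba : 0 < b - a := by linarith
  obtain ⟨C, hC, hS⟩ := hSQB h a p q b hD
  obtain ⟨c, hc, hlow⟩ := low_b hD
  obtain ⟨-, -, -, hcf, -⟩ := hDUI
  have hh1 : ContDiff ℝ ∞ (deriv h) := (contDiff_infty_iff_deriv.1 hD.smooth).2
  obtain ⟨H₁, hH₁⟩ := isCompact_Icc.exists_bound_of_continuousOn (s := Icc a b)
    hh1.continuous.continuousOn
  obtain ⟨H₂, hH₂⟩ := isCompact_Icc.exists_bound_of_continuousOn (s := Icc a b)
    hD.smooth.continuous.continuousOn
  obtain ⟨H, hH1, hHd, hHs⟩ : ∃ H : ℝ, 1 ≤ H ∧ (∀ z ∈ Ioo a b, |deriv h z| ≤ H) ∧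
      ∀ z ∈ Ioo a b, √(h z) ≤ H := by
    refine ⟨max 1 (max H₁ H₂), le_max_left _ _, fun z hz => ?_, fun z hz => ?_⟩
    · exact (hH₁ z ⟨hz.1.le, hz.2.le⟩).trans ((le_max_left _ _).trans (le_max_right _ _))
    · have h1 : h z ≤ max 1 (max H₁ H₂) :=
        (le_abs_self _).trans ((hH₂ z ⟨hz.1.le, hz.2.le⟩).trans
          ((le_max_right _ _).trans (le_max_right _ _)))
      have h2 : (1 : ℝ) ≤ max 1 (max H₁ H₂) := le_max_left _ _
      refine Real.sqrt_le_iff.2 ⟨by linarith, ?_⟩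
      nlinarith
  obtain ⟨L, hL⟩ : ∃ L : ℝ, L = (b - a) + 1 / c := ⟨_, rfl⟩
  have hL0 : 0 < L := by rw [hL]; positivity
  obtain ⟨P₀, hP₀⟩ : ∃ P₀ : ℝ, P₀ = (b - a) ^ (1 / 40 : ℝ) := ⟨_, rfl⟩
  have hP₀0 : 0 < P₀ := by rw [hP₀]; exact Real.rpow_pos_of_pos hba _
  refine ⟨H * C * P₀ + H * (C * L * (40 * P₀)) +
    C * L * (1 / 2 + H ^ 2 / 8 + H / 4) * (40 * P₀), 0, by positivity, ?_⟩
  intro U N M hU hI hSz n hn z hz
  subst hn
  have hN0 : 0 ≤ C * N ^ 2 := by positivity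
  -- the common bound
  have key : ∀ z ∈ Ioo a b, ∀ x : ℝ, |x| ≤ C * N ^ 2 →
      (z ≤ (a + b) / 2 → |x| ≤ C * N ^ 2 * h z) → |x| / h z ≤ C * N ^ 2 * L / (b - z) := by
    intro z hz x hx1 hx2
    have hpos : 0 < h z := hD.pos z hz.1 hz.2
    have hbz : 0 < b - z := by linarith [hz.2]
    rcases le_or_gt z ((a + b) / 2) with hzm | hzm
    · have h1 := hx2 hzm
      rw [div_le_div_iff₀ hpos hbz]
      have h2 : |x| * (b - z) ≤ C * N ^ 2 * h z * (b - a) :=
        mul_le_mul h1 (by linarith [hz.1]) hbz.le (by positivity)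
      have h3 : C * N ^ 2 * h z * (b - a) ≤ C * N ^ 2 * L * h z := by
        have : b - a ≤ L := by
          rw [hL]
          have : 0 < 1 / c := by positivity
          linarith
        have h4 : 0 ≤ C * N ^ 2 * h z := by positivity
        nlinarith
      linarith
    · have h1 := hlow z hzm.le hz.2
      calc |x| / h z ≤ C * N ^ 2 / h z := div_le_div_of_nonneg_right hx1 hpos.le
        _ ≤ C * N ^ 2 / (c * (b - z)) :=
            div_le_div_of_nonneg_left hN0 (by positivity) h1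
        _ = C * N ^ 2 * (1 / c) / (b - z) := by field_simp
        _ ≤ C * N ^ 2 * L / (b - z) := by
            apply div_le_div_of_nonneg_right _ hbz.le
            apply mul_le_mul_of_nonneg_left _ hN0
            rw [hL]
            linarith
  have hsup : ∀ z ∈ Ioo a b, ∀ φ : ℝ → ℝ → ℝ, (∀ θ, |φ z θ| ≤ C * N ^ 2 * L / (b - z) * h z) →
      ‖cf 0 φ z‖ / h z ≤ C * N ^ 2 * L / (b - z) := by
    intro z hz φ hφ
    have hpos : 0 < h z := hD.pos z hz.1 hz.2
    rw [div_le_iff₀ hpos]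
    exact hcf φ 0 z _ hφ
  have key2 : ∀ z ∈ Ioo a b, ∀ φ : ℝ → ℝ → ℝ, (∀ θ, |φ z θ| ≤ C * N ^ 2) →
      (z ≤ (a + b) / 2 → ∀ θ, |φ z θ| ≤ C * N ^ 2 * h z) →
      ‖cf 0 φ z‖ / h z ≤ C * N ^ 2 * L / (b - z) := by
    intro z hz φ h1 h2
    have hpos : 0 < h z := hD.pos z hz.1 hz.2
    apply hsup z hz
    intro θ
    rw [← div_le_iff₀ hpos]
    exact key z hz _ (h1 θ) (fun hm => h2 hm θ)
  -- the derivative of `y_0`
  have hy : ∀ z ∈ Ioo a b, ‖yn h U 0 z‖ ≤
      C * N ^ 2 * L * (40 * ((b - a) / (b - z)) ^ (1 / 40 : ℝ)) := by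
    apply grow a b _ (yn h U 0) (fun z => vn h U 0 z / (h z : ℂ)) (by positivity)
    · intro z hz
      exact (hMEQ h a p q b hD U hU hI 0 z hz).2.2.1
    · intro z hz
      have hpos : 0 < h z := hD.pos z hz.1 hz.2
      have h1 := (hMEQ h a p q b hD U hU hI 0 z hz).2.1
      have h2 : vn h U 0 z = -cf 0 (s3 U) z := by
        rw [h1]
        simp
      rw [h2, norm_div, norm_neg, Complex.norm_real, Real.norm_eq_abs, abs_of_pos hpos]
      exact key2 z hz _ (fun θ => (hS U N M hU hSz z hz θ).1.2.2.1)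
        (fun hm θ => ((hS U N M hU hSz z hz θ).2 hm).2.2.1)
    · rw [tendsto_zero_iff_norm_tendsto_zero]
      have h1 : Tendsto (fun z => 2 * N * √(h z)) (𝓝[>] a) (𝓝 0) := by
        have := (sqrt_tendsto hD).const_mul (2 * N)
        rwa [mul_zero] at this
      refine squeeze_zero' (Eventually.of_forall fun z => norm_nonneg _) ?_ h1
      filter_upwards [Ioo_mem_nhdsGT (show a < (a + b) / 2 by linarith)] with z hz
      have hz' : z ∈ Ioo a b := ⟨hz.1, by linarith [hz.2]⟩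
      have hpos : 0 < h z := hD.pos z hz'.1 hz'.2
      have h2 : ‖cf 0 (cB U) z‖ ≤ 2 * N * h z := by
        apply hcf
        intro θ
        have h3 := (hSz.low z hz' hz.2.le θ).1
        have h4 := cB_le U z θ
        linarith
      unfold yn
      rw [norm_div, Complex.norm_real, Real.norm_eq_abs, abs_of_nonneg (Real.sqrt_nonneg _),
        div_le_iff₀ (Real.sqrt_pos.2 hpos)]
      have h3 : √(h z) * √(h z) = h z := Real.mul_self_sqrt hpos.le
      calc ‖cf 0 (cB U) z‖ ≤ 2 * N * h z := h2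
        _ = 2 * N * √(h z) * √(h z) := by rw [mul_assoc (2 * N), h3]
  -- `w_0`
  have hw : ∀ z ∈ Ioo a b, ‖cf 0 (cw U) z‖ ≤
      C * N ^ 2 * L * (1 / 2 + H ^ 2 / 8 + H / 4) * (40 * ((b - a) / (b - z)) ^ (1 / 40 : ℝ)) := by
    apply grow a b _ (cf 0 (cw U)) (cf 0 (dz (cw U))) (by positivity)
    · intro z hz
      exact (hMEQ h a p q b hD U hU hI 0 z hz).2.2.2.2.2.1
    · intro z hz
      have hpos : 0 < h z := hD.pos z hz.1 hz.2
      have hbz : 0 < b - z := by linarith [hz.2]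
      rw [(hMEQ h a p q b hD U hU hI 0 z hz).2.2.2.2.2.2]
      have b1 : ‖cf 0 (s1 h U) z‖ / h z ≤ C * N ^ 2 * L / (b - z) :=
        key2 z hz _ (fun θ => (hS U N M hU hSz z hz θ).1.1)
          (fun hm θ => ((hS U N M hU hSz z hz θ).2 hm).1)
      have b2 : ‖cf 0 (s2 h U) z‖ / h z ≤ C * N ^ 2 * L / (b - z) :=
        key2 z hz _ (fun θ => (hS U N M hU hSz z hz θ).1.2.1)
          (fun hm θ => ((hS U N M hU hSz z hz θ).2 hm).2.1)
      have b3 : ‖cf 0 (dz (s2 h U)) z‖ ≤ C * N ^ 2 * L / (b - z) := by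
        apply hcf
        intro θ
        have h1 := key z hz (h z * dz (s2 h U) z θ) (hS U N M hU hSz z hz θ).1.2.2.2.2
          (fun hm => ((hS U N M hU hSz z hz θ).2 hm).2.2.2.2)
        rw [abs_mul, abs_of_pos hpos] at h1
        have h2 : h z * |dz (s2 h U) z θ| / h z = |dz (s2 h U) z θ| := by field_simp
        rwa [h2] at h1
      have hd := hHd z hz
      have t1 : ‖-(cf 0 (s1 h U) z / (2 * (h z : ℂ)))‖ ≤ 1 / 2 * (C * N ^ 2 * L / (b - z)) := by
        rw [norm_neg, norm_div, norm_mul, Complex.norm_real, Real.norm_eq_abs, abs_of_pos hpos,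
          Complex.norm_ofNat]
        calc ‖cf 0 (s1 h U) z‖ / (2 * h z) = 1 / 2 * (‖cf 0 (s1 h U) z‖ / h z) := by
              field_simp
          _ ≤ _ := mul_le_mul_of_nonneg_left b1 (by norm_num)
      have hd2 : deriv h z ^ 2 ≤ H ^ 2 := by
        rw [← sq_abs]
        exact pow_le_pow_left₀ (abs_nonneg _) hd 2
      have t2 : ‖((deriv h z ^ 2 / (8 * h z) : ℝ) : ℂ) * cf 0 (s2 h U) z‖ ≤
          H ^ 2 / 8 * (C * N ^ 2 * L / (b - z)) := by
        rw [norm_mul, Complex.norm_real, Real.norm_eq_abs, abs_of_nonneg (by positivity)]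
        calc deriv h z ^ 2 / (8 * h z) * ‖cf 0 (s2 h U) z‖ =
              deriv h z ^ 2 / 8 * (‖cf 0 (s2 h U) z‖ / h z) := by field_simp
          _ ≤ H ^ 2 / 8 * (C * N ^ 2 * L / (b - z)) := by
              apply mul_le_mul _ b2 (by positivity) (by positivity)
              linarith
      have t3 : ‖((deriv h z / 4 : ℝ) : ℂ) * cf 0 (dz (s2 h U)) z‖ ≤
          H / 4 * (C * N ^ 2 * L / (b - z)) := by
        rw [norm_mul, Complex.norm_real, Real.norm_eq_abs, abs_div]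
        apply mul_le_mul _ b3 (norm_nonneg _) (by positivity)
        rw [abs_of_pos (show (0 : ℝ) < 4 by norm_num)]
        linarith
      calc ‖-(cf 0 (s1 h U) z / (2 * (h z : ℂ))) +
              ((deriv h z ^ 2 / (8 * h z) : ℝ) : ℂ) * cf 0 (s2 h U) z +
              ((deriv h z / 4 : ℝ) : ℂ) * cf 0 (dz (s2 h U)) z‖
          ≤ ‖-(cf 0 (s1 h U) z / (2 * (h z : ℂ)))‖ +
              ‖((deriv h z ^ 2 / (8 * h z) : ℝ) : ℂ) * cf 0 (s2 h U) z‖ +
              ‖((deriv h z / 4 : ℝ) : ℂ) * cf 0 (dz (s2 h U)) z‖ := norm_add₃_le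
        _ ≤ 1 / 2 * (C * N ^ 2 * L / (b - z)) + H ^ 2 / 8 * (C * N ^ 2 * L / (b - z)) +
              H / 4 * (C * N ^ 2 * L / (b - z)) := by linarith
        _ = C * N ^ 2 * L * (1 / 2 + H ^ 2 / 8 + H / 4) / (b - z) := by ring
    · rw [tendsto_zero_iff_norm_tendsto_zero]
      have h1 : Tendsto (fun z => N * h z) (𝓝[>] a) (𝓝 0) := by
        have := (h_tendsto hD).const_mul N
        rwa [mul_zero] at this
      refine squeeze_zero' (Eventually.of_forall fun z => norm_nonneg _) ?_ h1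
      filter_upwards [Ioo_mem_nhdsGT (show a < (a + b) / 2 by linarith)] with z hz
      have hz' : z ∈ Ioo a b := ⟨hz.1, by linarith [hz.2]⟩
      apply hcf
      intro θ
      have h3 := (hSz.low z hz' hz.2.le θ).1
      exact (apply_le (U z θ) 2).trans h3
  -- conclusion
  have hpos : 0 < h z := hD.pos z hz.1 hz.2
  have hbz : 0 < b - z := by linarith [hz.2]
  obtain ⟨ρ, hρ⟩ : ∃ ρ : ℝ, ρ = (b - z) ^ (-(1 / 40 : ℝ)) := ⟨_, rfl⟩
  have hρ0 : 0 < ρ := by rw [hρ]; exact Real.rpow_pos_of_pos hbz _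
  have hpow : ((b - a) / (b - z)) ^ (1 / 40 : ℝ) = P₀ * ρ := by
    rw [Real.div_rpow hba.le hbz.le, hP₀, hρ, Real.rpow_neg hbz.le]
    rfl
  have hone : 1 ≤ P₀ * ρ := by
    rw [← hpow]
    apply Real.one_le_rpow _ (by norm_num)
    rw [le_div_iff₀ hbz]
    linarith [hz.1]
  have hA : ‖cf 0 (cA U) z‖ ≤ H * C * P₀ * N ^ 2 * ρ := by
    have h1 := (hMEQ h a p q b hD U hU hI 0 z hz).1
    have h2 : cf 0 (cA U) z = -((√(h z) : ℝ) / 2 * cf 0 (s2 h U) z) := by
      rw [h1]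
      simp
    have h3 : ‖cf 0 (s2 h U) z‖ ≤ C * N ^ 2 :=
      hcf _ _ _ _ (fun θ => (hS U N M hU hSz z hz θ).1.2.1)
    rw [h2, norm_neg, norm_mul, norm_div, Complex.norm_real, Real.norm_eq_abs,
      abs_of_nonneg (Real.sqrt_nonneg _), Complex.norm_ofNat]
    calc √(h z) / 2 * ‖cf 0 (s2 h U) z‖ ≤ H * (C * N ^ 2) := by
          apply mul_le_mul _ h3 (norm_nonneg _) (by linarith)
          have := hHs z hz
          have := Real.sqrt_nonneg (h z)
          linarith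
      _ = H * (C * N ^ 2) * 1 := by ring
      _ ≤ H * (C * N ^ 2) * (P₀ * ρ) := mul_le_mul_of_nonneg_left hone (by positivity)
      _ = H * C * P₀ * N ^ 2 * ρ := by ring
  have hB : ‖cf 0 (cB U) z‖ ≤ H * (C * L * (40 * P₀)) * N ^ 2 * ρ := by
    have h1 : cf 0 (cB U) z = (√(h z) : ℝ) * yn h U 0 z := by
      unfold yn
      have : ((√(h z) : ℝ) : ℂ) ≠ 0 := by exact_mod_cast (Real.sqrt_pos.2 hpos).ne'
      field_simp
    have h2 := hy z hz
    rw [hpow] at h2
    rw [h1, norm_mul, Complex.norm_real, Real.norm_eq_abs, abs_of_nonneg (Real.sqrt_nonneg _)]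
    calc √(h z) * ‖yn h U 0 z‖ ≤ H * (C * N ^ 2 * L * (40 * (P₀ * ρ))) :=
          mul_le_mul (hHs z hz) h2 (norm_nonneg _) (by linarith)
      _ = H * (C * L * (40 * P₀)) * N ^ 2 * ρ := by ring
  have hW' : ‖cf 0 (cw U) z‖ ≤
      C * L * (1 / 2 + H ^ 2 / 8 + H / 4) * (40 * P₀) * N ^ 2 * ρ := by
    have h2 := hw z hz
    rw [hpow] at h2
    calc ‖cf 0 (cw U) z‖ ≤ _ := h2
      _ = C * L * (1 / 2 + H ^ 2 / 8 + H / 4) * (40 * P₀) * N ^ 2 * ρ := by ring
  rw [← hρ, pow_zero, mul_one]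
  calc ‖cf 0 (cA U) z‖ + ‖cf 0 (cB U) z‖ + ‖cf 0 (cw U) z‖
      ≤ H * C * P₀ * N ^ 2 * ρ + H * (C * L * (40 * P₀)) * N ^ 2 * ρ +
        C * L * (1 / 2 + H ^ 2 / 8 + H / 4) * (40 * P₀) * N ^ 2 * ρ := by linarith
    _ = _ := by ring

end Pool.Agent.Lib.MP478c11.DB.S
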