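import Pool.Agent.Lib.MP_478c11_gt.DB.GeoS

/-!
# MP_478c11_gt, module OPC: the open-closed argument
-/

set_option autoImplicit false

namespace Pool.Agent.Lib.MP478c11.DB.S

open Set Filter Topology MeasureTheory
open scoped ContDiff InnerProductSpace

namespace OPCM

lemma isClosed_Surf {h : ℝ → ℝ} (hc : Continuous h) (a b : ℝ) : IsClosed (Surf h a b) := by
  have c0 : Continuous (fun x : E3 => x 0) := by fun_prop
  have c1 : Continuous (fun x : E3 => x 1) := by fun_prop
  have c2 : Continuous (fun x : E3 => x 2) := by fun_prop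
  have e : Surf h a b = {x : E3 | a ≤ x 2} ∩ ({x : E3 | x 2 ≤ b} ∩
      {x : E3 | x 0 ^ 2 + x 1 ^ 2 = h (x 2)}) := by
    ext x
    rfl
  rw [e]
  refine (isClosed_le continuous_const c2).inter ((isClosed_le c2 continuous_const).inter ?_)
  exact isClosed_eq ((c0.pow 2).add (c1.pow 2)) (hc.comp c2)

lemma isCompact_Surf {h : ℝ → ℝ} (hc : Continuous h) (a b : ℝ) : IsCompact (Surf h a b) := by
  refine Metric.isCompact_of_isClosed_isBounded (isClosed_Surf hc a b) ?_
  obtain ⟨H, hH⟩ := isCompact_Icc.exists_bound_of_continuousOn (hc.continuousOn (s := Icc a b))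
  rw [Metric.isBounded_iff_subset_closedBall (0 : E3)]
  refine ⟨√(H + (|a| + |b|) ^ 2), ?_⟩
  rintro x ⟨hx1, hx2, hx3⟩
  rw [mem_closedBall_zero_iff, EuclideanSpace.norm_eq]
  refine Real.sqrt_le_sqrt ?_
  rw [Fin.sum_univ_three]
  simp only [Real.norm_eq_abs, sq_abs]
  have h1 := hH (x 2) ⟨hx1, hx2⟩
  rw [Real.norm_eq_abs] at h1
  have h2 := (abs_le.mp h1).2
  have h3 : |x 2| ≤ |a| + |b| := by
    rw [abs_le]
    constructor
    · have := neg_abs_le a
      have := abs_nonneg b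
      linarith
    · have := le_abs_self b
      have := abs_nonneg a
      linarith
  have h4 : (x 2) ^ 2 ≤ (|a| + |b|) ^ 2 := by
    rw [← sq_abs (x 2)]
    exact pow_le_pow_left₀ (abs_nonneg _) h3 2
  rw [← hx3] at h2
  linarith

end OPCM

open OPCM

theorem specOPC (hCHT : SpecCHT) (hISO : SpecISO) (hCPT : SpecCPT) (hFRM : SpecFRM)
    (hNMB : SpecNMB) : SpecOPC := by
  intro h a p q b hD hE F hF
  obtain ⟨φa, φb, ε, δ, hC⟩ := hCHT h a p q b hD
  obtain ⟨J, hJ1, hJ⟩ := hISO h a p q b φa φb ε δ hD hE hC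
  obtain ⟨M, hM⟩ := hCPT h a p q b φa φb ε δ hD hC F hF J
  obtain ⟨hfr, hG0, hGc⟩ := hFRM h a p q b φa φb ε δ hD hC F hF
  obtain ⟨ν, hν0, hν⟩ := hJ (2 * M + |a|)
  have key : ∀ α ∈ Icc (0 : ℝ) 1, (∀ x ∈ Surf h a b, ‖F α x - Gm a (F α) x‖ ≤ ν) →
      ∀ x ∈ Surf h a b, F α x = Gm a (F α) x := by
    intro α hα hle x hx
    obtain ⟨-, hH, hHG, hGH, hgood⟩ := hfr α hα
    have hb := hNMB h a p q b φa φb ε δ M J (F α) hD hC hJ1 (hM α hα) hH
    have h1 := hν (fun x => Hm a (F α) (F α x)) hgood hb (fun y hy => by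
      have h2 : Hm a (F α) (F α y) - y = Hm a (F α) (F α y) - Hm a (F α) (Gm a (F α) y) := by
        rw [hHG y]
      show ‖Hm a (F α) (F α y) - y‖ ≤ ν
      rw [h2, hH]
      exact hle y hy) x hx
    have h3 : Hm a (F α) (F α x) = x := h1
    have h4 := hGH (F α x)
    rw [h3] at h4
    exact h4.symm
  have hcS : IsCompact (Surf h a b) := isCompact_Surf hD.smooth.continuous a b
  have hcont : ContinuousOn (fun p : ℝ × E3 => F p.1 p.2 - Gm a (F p.1) p.2)
      (Icc (0 : ℝ) 1 ×ˢ Surf h a b) := by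
    obtain ⟨Ω, -, hsub, hcd⟩ := hF.smooth
    refine (hcd.continuousOn.mono hsub).sub (hGc.mono ?_)
    exact prod_mono (le_refl _) (subset_univ _)
  have huc := (isCompact_Icc.prod hcS).uniformContinuousOn_of_continuous hcont
  rw [Metric.uniformContinuousOn_iff] at huc
  obtain ⟨d, hd0, hd⟩ := huc ν hν0
  have step : ∀ α ∈ Icc (0 : ℝ) 1, ∀ β ∈ Icc (0 : ℝ) 1, |β - α| < d →
      (∀ x ∈ Surf h a b, F α x = Gm a (F α) x) → ∀ x ∈ Surf h a b, F β x = Gm a (F β) x := by
    intro α hα β hβ hαβ hA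
    refine key β hβ fun x hx => ?_
    have h1 := hd (β, x) ⟨hβ, hx⟩ (α, x) ⟨hα, hx⟩ (by
      rw [Prod.dist_eq, dist_self, max_lt_iff]
      exact ⟨by rw [Real.dist_eq]; exact hαβ, hd0⟩)
    simp only [hA x hx, sub_self, dist_zero_right] at h1
    exact h1.le
  intro α hα
  have hA : ∀ x ∈ Surf h a b, F α x = Gm a (F α) x := by
    obtain ⟨N, hN⟩ := exists_nat_gt (1 / d)
    have hN0 : (0 : ℝ) < N := lt_trans (by positivity) hN
    have hNd : 1 / (N : ℝ) < d := by
      rw [div_lt_iff₀ hN0]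
      rw [div_lt_iff₀ hd0] at hN
      linarith
    have hmem : ∀ k : ℕ, k ≤ N → α * k / N ∈ Icc (0 : ℝ) 1 := by
      intro k hk
      have hk' : (k : ℝ) ≤ N := by exact_mod_cast hk
      have hk0 : (0 : ℝ) ≤ k := by positivity
      constructor
      · have := hα.1
        positivity
      · rw [div_le_one hN0]
        nlinarith [hα.1, hα.2]
    have hind : ∀ k : ℕ, k ≤ N → ∀ x ∈ Surf h a b, F (α * k / N) x = Gm a (F (α * k / N)) x := by
      intro k
      induction k with
      | zero =>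
        intro _ x hx
        have e : α * ((0 : ℕ) : ℝ) / N = 0 := by simp
        rw [e, hG0, hF.start x hx]
      | succ k ih =>
        intro hk
        have hk' : k ≤ N := by omega
        refine step _ (hmem k hk') _ (hmem (k + 1) hk) ?_ (ih hk')
        have e : α * ((k + 1 : ℕ) : ℝ) / N - α * (k : ℝ) / N = α / N := by
          push_cast
          ring
        rw [e, abs_of_nonneg (div_nonneg hα.1 hN0.le)]
        have : α / N ≤ 1 / N := div_le_div_of_nonneg_right hα.2 hN0.le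
        linarith
    have h1 := hind N le_rfl
    have e : α * (N : ℝ) / N = α := by
      field_simp
    rwa [e] at h1
  obtain ⟨hGi, -, hHG, hGH, -⟩ := hfr α hα
  refine ⟨⟨⟨Gm a (F α), Hm a (F α), hHG, hGH⟩, ?_⟩, fun x hx => hA x hx⟩
  refine Isometry.of_dist_eq fun x y => ?_
  rw [dist_eq_norm, dist_eq_norm]
  exact hGi x y

end Pool.Agent.Lib.MP478c11.DB.S
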