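import Pool.Agent.Lib.MP_478c11_gt.DB.GeoS

/-!
# MP_478c11_gt, module SQB: bounds of the quadratic terms
-/

set_option autoImplicit false

namespace Pool.Agent.Lib.MP478c11.DB.S

open Set Filter Topology MeasureTheory
open scoped ContDiff InnerProductSpace

noncomputable section

namespace SQBM

lemma diff_z {E : Type} [NormedAddCommGroup E] [NormedSpace ℝ E] {a b : ℝ} {V : ℝ → ℝ → E}
    (hV : Fld a b V) {z : ℝ} (hz : z ∈ Ioo a b) (θ : ℝ) :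
    HasDerivAt (fun s => V s θ) (dz V z θ) z := by
  have ho : IsOpen (Ioo a b ×ˢ (univ : Set ℝ)) := isOpen_Ioo.prod isOpen_univ
  have h1 : ContDiffAt ℝ ∞ (fun p : ℝ × ℝ => V p.1 p.2) (z, θ) :=
    hV.1.contDiffAt (ho.mem_nhds ⟨hz, mem_univ _⟩)
  have h2 : DifferentiableAt ℝ (fun p : ℝ × ℝ => V p.1 p.2) (z, θ) :=
    h1.differentiableAt (by simp)
  have h3 : DifferentiableAt ℝ (fun s : ℝ => (s, θ)) z := by fun_prop
  have h4 : DifferentiableAt ℝ (fun s => V s θ) z :=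
    DifferentiableAt.comp z (g := fun p : ℝ × ℝ => V p.1 p.2) (f := fun s : ℝ => (s, θ)) h2 h3
  exact h4.hasDerivAt

lemma diff_t {E : Type} [NormedAddCommGroup E] [NormedSpace ℝ E] {a b : ℝ} {V : ℝ → ℝ → E}
    (hV : Fld a b V) {z : ℝ} (hz : z ∈ Ioo a b) (θ : ℝ) :
    HasDerivAt (fun s => V z s) (dt V z θ) θ := by
  have ho : IsOpen (Ioo a b ×ˢ (univ : Set ℝ)) := isOpen_Ioo.prod isOpen_univ
  have h1 : ContDiffAt ℝ ∞ (fun p : ℝ × ℝ => V p.1 p.2) (z, θ) :=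
    hV.1.contDiffAt (ho.mem_nhds ⟨hz, mem_univ _⟩)
  have h2 : DifferentiableAt ℝ (fun p : ℝ × ℝ => V p.1 p.2) (z, θ) :=
    h1.differentiableAt (by simp)
  have h3 : DifferentiableAt ℝ (fun s : ℝ => (z, s)) θ := by fun_prop
  have h4 : DifferentiableAt ℝ (fun s => V z s) θ :=
    DifferentiableAt.comp θ (g := fun p : ℝ × ℝ => V p.1 p.2) (f := fun s : ℝ => (z, s)) h2 h3
  exact h4.hasDerivAt

/-- the pointwise estimate -/
lemma core {E : Type} [NormedAddCommGroup E] [InnerProductSpace ℝ E] {η η' H K : ℝ} (hη : 0 < η)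
    (hη' : |η'| ≤ H) {D DD T DT : E} (h1 : ‖η • D‖ ≤ K) (h2 : ‖T‖ ≤ K)
    (h3 : ‖η • (η • DD + η' • D)‖ ≤ K) (h4 : ‖η • DT‖ ≤ K) :
    |η * ‖D‖ ^ 2| ≤ (2 + H) * (K ^ 2 / η) ∧ |‖T‖ ^ 2 / η| ≤ (2 + H) * (K ^ 2 / η) ∧
    |⟪D, T⟫_ℝ| ≤ (2 + H) * (K ^ 2 / η) ∧
    |η * (⟪D, DT⟫_ℝ + ⟪DD, T⟫_ℝ)| ≤ (2 + H) * (K ^ 2 / η) ∧
    |η * ((2 * ⟪T, DT⟫_ℝ * η - ‖T‖ ^ 2 * η') / η ^ 2)| ≤ (2 + H) * (K ^ 2 / η) := by
  have hK : 0 ≤ K := (norm_nonneg _).trans h2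
  have hH : 0 ≤ H := (abs_nonneg _).trans hη'
  have hKK : 0 ≤ K ^ 2 / η := by positivity
  have hbig : K ^ 2 / η ≤ (2 + H) * (K ^ 2 / η) := by nlinarith [mul_nonneg hH hKK]
  have inn : ∀ v w : E, ‖v‖ ≤ K → ‖w‖ ≤ K → |⟪v, w⟫_ℝ| ≤ K ^ 2 := by
    intro v w hv hw
    calc |⟪v, w⟫_ℝ| ≤ ‖v‖ * ‖w‖ := abs_real_inner_le_norm v w
      _ ≤ K * K := mul_le_mul hv hw (norm_nonneg _) hK
      _ = K ^ 2 := by ring
  have n1 : ‖η • D‖ = η * ‖D‖ := by rw [norm_smul, Real.norm_of_nonneg hη.le]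
  refine ⟨?_, ?_, ?_, ?_, ?_⟩
  · have e : η * ‖D‖ ^ 2 = ‖η • D‖ ^ 2 / η := by
      rw [n1]
      field_simp
    rw [e, abs_of_nonneg (by positivity)]
    refine le_trans ?_ hbig
    exact div_le_div_of_nonneg_right (pow_le_pow_left₀ (norm_nonneg _) h1 2) hη.le
  · rw [abs_of_nonneg (by positivity)]
    refine le_trans ?_ hbig
    exact div_le_div_of_nonneg_right (pow_le_pow_left₀ (norm_nonneg _) h2 2) hη.le
  · have e : ⟪D, T⟫_ℝ = ⟪η • D, T⟫_ℝ / η := by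
      rw [real_inner_smul_left]
      field_simp
    rw [e, abs_div, abs_of_pos hη]
    refine le_trans ?_ hbig
    exact div_le_div_of_nonneg_right (inn _ _ h1 h2) hη.le
  · have e : η * (⟪D, DT⟫_ℝ + ⟪DD, T⟫_ℝ) =
        (⟪η • D, η • DT⟫_ℝ + ⟪η • (η • DD + η' • D), T⟫_ℝ - η' * ⟪η • D, T⟫_ℝ) / η := by
      rw [smul_add, inner_add_left]
      simp only [real_inner_smul_left, real_inner_smul_right]
      field_simp
      ring
    rw [e, abs_div, abs_of_pos hη, ← mul_div_assoc]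
    refine div_le_div_of_nonneg_right ?_ hη.le
    have a1 := inn _ _ h1 h4
    have a2 := inn _ _ h3 h2
    have a3 : |η' * ⟪η • D, T⟫_ℝ| ≤ H * K ^ 2 := by
      rw [abs_mul]
      exact mul_le_mul hη' (inn _ _ h1 h2) (abs_nonneg _) hH
    rw [abs_le] at a1 a2 a3 ⊢
    constructor <;> nlinarith [a1.1, a1.2, a2.1, a2.2, a3.1, a3.2]
  · have e : η * ((2 * ⟪T, DT⟫_ℝ * η - ‖T‖ ^ 2 * η') / η ^ 2) =
        (2 * ⟪T, η • DT⟫_ℝ - η' * ‖T‖ ^ 2) / η := by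
      rw [real_inner_smul_right]
      field_simp
    rw [e, abs_div, abs_of_pos hη, ← mul_div_assoc]
    refine div_le_div_of_nonneg_right ?_ hη.le
    have a1 := inn _ _ h2 h4
    have a3 : |η' * ‖T‖ ^ 2| ≤ H * K ^ 2 := by
      rw [abs_mul, abs_of_nonneg (sq_nonneg ‖T‖)]
      exact mul_le_mul hη' (pow_le_pow_left₀ (norm_nonneg _) h2 2) (sq_nonneg _) hH
    rw [abs_le] at a1 a3 ⊢
    constructor <;> nlinarith [a1.1, a1.2, a3.1, a3.2]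

end SQBM

open SQBM in
theorem specSQB (hFLE : SpecFLE) : SpecSQB := by
  intro h a p q b hD
  have hc : Continuous (deriv h) := hD.smooth.continuous_deriv (by simp)
  obtain ⟨H, hH⟩ := (isCompact_Icc (a := a) (b := b)).exists_bound_of_continuousOn hc.continuousOn
  have hpos : ∀ z ∈ Ioo a b, 0 < h z := fun z hz => hD.pos z hz.1 hz.2
  refine ⟨2 + |H|, by positivity, ?_⟩
  intro U N M hU hS z hz θ
  obtain ⟨F1, F2, -, -, -, -, -, -, -, hsym⟩ := hFLE h a b U hD.smooth hpos hU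
  have hh := hpos z hz
  have hη' : |deriv h z| ≤ |H| := (hH z (Ioo_subset_Icc_self hz)).trans (le_abs_self H)
  have dh : HasDerivAt h (deriv h z) z :=
    (hD.smooth.differentiable (by simp) z).hasDerivAt
  have z1 := diff_z F1 hz θ
  have z2 := diff_z F2 hz θ
  have t1 := diff_t F1 hz θ
  have e1 : tz h U z θ = h z • dz U z θ := rfl
  have e2 : tz h (tz h U) z θ = h z • (h z • dz (dz U) z θ + deriv h z • dz U z θ) := by
    have g : HasDerivAt (fun s => tz h U s θ) (h z • dz (dz U) z θ + deriv h z • dz U z θ) z :=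
      dh.smul z1
    unfold tz at g ⊢
    rw [g.deriv]
  have e4 : dz (dt U) z θ = dt (dz U) z θ := (hsym z hz θ).1
  have e3 : dt (tz h U) z θ = h z • dz (dt U) z θ := by
    have g : HasDerivAt (fun s => tz h U z s) (h z • dt (dz U) z θ) θ := t1.const_smul (h z)
    rw [e4]
    unfold dt at g ⊢
    exact g.deriv
  have d3 : dz (s3 U) z θ = ⟪dz U z θ, dz (dt U) z θ⟫_ℝ + ⟪dz (dz U) z θ, dt U z θ⟫_ℝ := by
    have g : HasDerivAt (fun s => s3 U s θ)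
        (⟪dz U z θ, dz (dt U) z θ⟫_ℝ + ⟪dz (dz U) z θ, dt U z θ⟫_ℝ) z := z1.inner ℝ z2
    exact g.deriv
  have d2 : dz (s2 h U) z θ =
      (2 * ⟪dt U z θ, dz (dt U) z θ⟫_ℝ * h z - ‖dt U z θ‖ ^ 2 * deriv h z) / h z ^ 2 := by
    have g : HasDerivAt (fun s => s2 h U s θ)
        ((2 * ⟪dt U z θ, dz (dt U) z θ⟫_ℝ * h z - ‖dt U z θ‖ ^ 2 * deriv h z) / h z ^ 2) z :=
      z2.norm_sq.div dh hh.ne'
    exact g.deriv
  have main : ∀ K : ℝ, ‖tz h U z θ‖ ≤ K → ‖dt U z θ‖ ≤ K → ‖tz h (tz h U) z θ‖ ≤ K →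
      ‖dt (tz h U) z θ‖ ≤ K →
      |s1 h U z θ| ≤ (2 + |H|) * (K ^ 2 / h z) ∧ |s2 h U z θ| ≤ (2 + |H|) * (K ^ 2 / h z) ∧
      |s3 U z θ| ≤ (2 + |H|) * (K ^ 2 / h z) ∧ |h z * dz (s3 U) z θ| ≤ (2 + |H|) * (K ^ 2 / h z) ∧
      |h z * dz (s2 h U) z θ| ≤ (2 + |H|) * (K ^ 2 / h z) := by
    intro K k1 k2 k3 k4
    rw [e1] at k1
    rw [e2] at k3
    rw [e3] at k4
    rw [d3, d2]
    exact core hh hη' k1 k2 k3 k4
  constructor
  · obtain ⟨k1, k2, k3, k4⟩ := hS.all z hz θ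
    have m := main _ k1 k2 k3 k4
    have e : (N * √(h z)) ^ 2 / h z = N ^ 2 := by
      rw [mul_pow, Real.sq_sqrt hh.le]
      field_simp
    rw [e] at m
    exact m
  · intro hlow
    obtain ⟨_, k1, k2, k3, k4⟩ := hS.low z hz hlow θ
    have m := main _ k1 k2 k3 k4
    have e : (2 + |H|) * ((N * h z) ^ 2 / h z) = (2 + |H|) * N ^ 2 * h z := by
      field_simp
    rw [e] at m
    exact m

end

end Pool.Agent.Lib.MP478c11.DB.S
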