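import Pool.Agent.Lib.MP_478c11_gt.DB.GeoS

set_option autoImplicit false

namespace Pool.Agent.Lib.MP478c11.DB.S

open Set Filter Topology MeasureTheory
open scoped ContDiff InnerProductSpace

namespace SUPM

lemma fld_cos {a b : ℝ} {φ : ℝ → ℝ → ℝ} (h : Fld a b φ) :
    Fld a b (fun z θ => Real.cos θ * φ z θ) := by
  refine ⟨?_, fun z θ => ?_⟩
  · exact ((Real.contDiff_cos.comp contDiff_snd).contDiffOn).mul h.1
  · show Real.cos (θ + 2 * Real.pi) * φ z (θ + 2 * Real.pi) = _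
    rw [h.2, Real.cos_add_two_pi]

lemma fld_sin {a b : ℝ} {φ : ℝ → ℝ → ℝ} (h : Fld a b φ) :
    Fld a b (fun z θ => Real.sin θ * φ z θ) := by
  refine ⟨?_, fun z θ => ?_⟩
  · exact ((Real.contDiff_sin.comp contDiff_snd).contDiffOn).mul h.1
  · show Real.sin (θ + 2 * Real.pi) * φ z (θ + 2 * Real.pi) = _
    rw [h.2, Real.sin_add_two_pi]

lemma comp0 (U : ℝ → ℝ → E3) : (fun z θ => U z θ 0) =
    fun z θ => 1 * (Real.cos θ * cA U z θ) + (-1) * (Real.sin θ * cB U z θ) := by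
  funext z θ
  unfold cA cB
  have h := Real.sin_sq_add_cos_sq θ
  linear_combination (-(U z θ 0)) * h

lemma comp1 (U : ℝ → ℝ → E3) : (fun z θ => U z θ 1) =
    fun z θ => 1 * (Real.sin θ * cA U z θ) + 1 * (Real.cos θ * cB U z θ) := by
  funext z θ
  unfold cA cB
  have h := Real.sin_sq_add_cos_sq θ
  linear_combination (-(U z θ 1)) * h

lemma nhalf (x y : ℂ) : ‖(x + y) / 2‖ ≤ (‖x‖ + ‖y‖) / 2 := by
  rw [norm_div, Complex.norm_ofNat]
  have := norm_add_le x y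
  gcongr

lemma nhalfI (x y : ℂ) : ‖(x - y) / (2 * Complex.I)‖ ≤ (‖x‖ + ‖y‖) / 2 := by
  rw [norm_div, norm_mul, Complex.norm_ofNat, Complex.norm_I, mul_one]
  have := norm_sub_le x y
  gcongr

/-- the coefficients of the components -/
lemma cf_comp (hDUI : SpecDUI) {a b : ℝ} {U : ℝ → ℝ → E3} (hA : Fld a b (cA U))
    (hB : Fld a b (cB U)) {z : ℝ} (hz : z ∈ Ioo a b) (n : ℤ) {T : ℝ}
    (hT : ∀ m : ℤ, n - 1 ≤ m → m ≤ n + 1 →
      ‖cf m (cA U) z‖ + ‖cf m (cB U) z‖ + ‖cf m (cw U) z‖ ≤ T) (i : Fin 3) :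
    ‖cf n (fun z θ => U z θ i) z‖ ≤ T := by
  have h1 := hT (n - 1) le_rfl (by omega)
  have h2 := hT (n + 1) (by omega) le_rfl
  have h3 := hT n (by omega) (by omega)
  have a1 := norm_nonneg (cf (n - 1) (cw U) z)
  have a2 := norm_nonneg (cf (n + 1) (cw U) z)
  have a3 := norm_nonneg (cf n (cA U) z)
  have a4 := norm_nonneg (cf n (cB U) z)
  fin_cases i
  · show ‖cf n (fun z θ => U z θ 0) z‖ ≤ T
    rw [comp0, hDUI.2.1 a b _ _ n 1 (-1) (fld_cos hA) (fld_sin hB) z hz,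
      (hDUI.2.2.1 a b (cA U) n hA z hz).1, (hDUI.2.2.1 a b (cB U) n hB z hz).2]
    refine (norm_add_le _ _).trans ?_
    rw [norm_mul, norm_mul]
    have b1 := nhalf (cf (n - 1) (cA U) z) (cf (n + 1) (cA U) z)
    have b2 := nhalfI (cf (n - 1) (cB U) z) (cf (n + 1) (cB U) z)
    have b3 : ‖((1 : ℝ) : ℂ)‖ = 1 := by simp
    have b4 : ‖((-1 : ℝ) : ℂ)‖ = 1 := by simp
    rw [b3, b4, one_mul, one_mul]
    linarith
  · show ‖cf n (fun z θ => U z θ 1) z‖ ≤ T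
    rw [comp1, hDUI.2.1 a b _ _ n 1 1 (fld_sin hA) (fld_cos hB) z hz,
      (hDUI.2.2.1 a b (cA U) n hA z hz).2, (hDUI.2.2.1 a b (cB U) n hB z hz).1]
    refine (norm_add_le _ _).trans ?_
    rw [norm_mul, norm_mul]
    have b1 := nhalfI (cf (n - 1) (cA U) z) (cf (n + 1) (cA U) z)
    have b2 := nhalf (cf (n - 1) (cB U) z) (cf (n + 1) (cB U) z)
    have b3 : ‖((1 : ℝ) : ℂ)‖ = 1 := by simp
    rw [b3, one_mul, one_mul]
    linarith
  · show ‖cf n (cw U) z‖ ≤ T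
    linarith

lemma slice {a b : ℝ} {U : ℝ → ℝ → E3} (hU : Fld a b U) {z : ℝ} (hz : z ∈ Ioo a b) :
    ContDiff ℝ ∞ (U z) := by
  have h1 : ContDiffOn ℝ ∞ (fun θ : ℝ => ((z, θ) : ℝ × ℝ)) univ :=
    (contDiff_const.prodMk contDiff_id).contDiffOn
  have h2 := hU.1.comp h1 (fun θ _ => ⟨hz, mem_univ _⟩)
  exact contDiffOn_univ.1 h2

lemma iter_comp {u : ℝ → E3} (hu : ContDiff ℝ ∞ u) (i : Fin 3) (n : ℕ) :
    iteratedDeriv n (fun θ => u θ i) = fun θ => iteratedDeriv n u θ i := by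
  induction n with
  | zero => simp
  | succ n ih =>
    rw [iteratedDeriv_succ, iteratedDeriv_succ, ih]
    funext θ
    have h1 : DifferentiableAt ℝ (iteratedDeriv n u) θ :=
      (hu.differentiable_iteratedDeriv n (by exact_mod_cast WithTop.coe_lt_top _)) θ
    have h2 := ((EuclideanSpace.proj i : E3 →L[ℝ] ℝ).hasFDerivAt.comp_hasDerivAt θ
      h1.hasDerivAt).deriv
    exact h2

lemma norm_le3 {x : E3} {T : ℝ} (hT : ∀ i, |x i| ≤ T) : ‖x‖ ≤ 3 * T := by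
  have h0 : 0 ≤ T := (abs_nonneg _).trans (hT 0)
  have h1 : ‖x‖ ^ 2 = ∑ i, ‖x i‖ ^ 2 := EuclideanSpace.norm_sq_eq x
  rw [Fin.sum_univ_three] at h1
  have h2 : ∀ i, ‖x i‖ ^ 2 ≤ T ^ 2 := fun i => by
    rw [Real.norm_eq_abs]
    have := hT i
    gcongr
  have h3 := h2 0
  have h4 := h2 1
  have h5 := h2 2
  exact (sq_le_sq₀ (norm_nonneg _) (by positivity)).1 (by nlinarith)

end SUPM

open SUPM in
theorem specSUP (hDUI : SpecDUI) (hFLE : SpecFLE) (hMN0 : SpecMN0) (hMN1 : SpecMN1)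
    (hMN2 : SpecMN2) (hFOU : SpecFOU) : SpecSUP := by
  intro h a p q b D hE
  obtain ⟨C0, B0, hC0, H0⟩ := hMN0 h a p q b D
  obtain ⟨C1, B1, hC1, H1⟩ := hMN1 h a p q b D
  obtain ⟨C2, B2, hC2, H2⟩ := hMN2 h a p q b D hE
  refine ⟨9 * 3 ^ (B0 + B1 + B2) * (C0 + C1 + C2) + 24, B0 + B1 + B2 + 1, by positivity, ?_⟩
  intro U N M hU hI hS J L MJ hJ hL hMJ z hz θ
  obtain ⟨hdz, hdt, hcomp, hcA, hcB, hcw, hs1, hs2, hs3, hsym⟩ :=
    hFLE h a b U D.smooth (fun z hz => D.pos z hz.1 hz.2) hU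
  have hbz : 0 < b - z := by linarith [hz.2]
  set s : ℝ := (b - z) ^ (-(1 / 40 : ℝ)) with hs
  have hs0 : 0 < s := Real.rpow_pos_of_pos hbz _
  have hMJ0 : 0 ≤ MJ := (norm_nonneg _).trans (hMJ z hz θ)
  -- all modes
  have hall : ∀ n : ℤ, ‖cf n (cA U) z‖ + ‖cf n (cB U) z‖ + ‖cf n (cw U) z‖ ≤
      (C0 + C1 + C2) * ((n.natAbs : ℝ) + 1) ^ (B0 + B1 + B2) * N ^ 2 * s := by
    intro n
    have hn1 : (1 : ℝ) ≤ (n.natAbs : ℝ) + 1 := by
      have : (0 : ℝ) ≤ (n.natAbs : ℝ) := Nat.cast_nonneg _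
      linarith
    have hc : n = 0 ∨ n.natAbs = 1 ∨ 2 ≤ n.natAbs := by omega
    rcases hc with hc | hc | hc
    · refine (H0 U N M hU hI hS n hc z hz).trans ?_
      gcongr
      · linarith
      · omega
    · refine (H1 U N M hU hI hS n hc z hz).trans ?_
      gcongr
      · linarith
      · omega
    · refine (H2 U N M hU hI hS n hc z hz).trans ?_
      gcongr
      · linarith
      · omega
  set T : ℝ := (C0 + C1 + C2) * ((L : ℝ) + 2) ^ (B0 + B1 + B2) * N ^ 2 * s with hT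
  have hcf : ∀ i : Fin 3, ∀ n : ℕ, n ≤ L → ‖cf (n : ℤ) (fun _ θ => U z θ i) 0‖ ≤ T := by
    intro i n hn
    have h1 : cf (n : ℤ) (fun _ θ => U z θ i) 0 = cf (n : ℤ) (fun z θ => U z θ i) z := rfl
    rw [h1]
    refine cf_comp hDUI hcA hcB hz n (fun m hm1 hm2 => (hall m).trans ?_) i
    rw [hT]
    have h2 : (m.natAbs : ℝ) + 1 ≤ (L : ℝ) + 2 := by
      have : m.natAbs ≤ L + 1 := by omega
      have : (m.natAbs : ℝ) ≤ (L : ℝ) + 1 := by exact_mod_cast this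
      linarith
    gcongr
  have hL1 : (1 : ℝ) ≤ (L : ℝ) := by exact_mod_cast hL
  have hbound : ∀ i : Fin 3, |U z θ i| ≤ (2 * L + 1) * T + 8 * MJ / (L : ℝ) ^ (J - 1) := by
    intro i
    have hsl := slice hU hz
    have hsi : ContDiff ℝ ∞ (fun θ => U z θ i) :=
      (EuclideanSpace.proj i : E3 →L[ℝ] ℝ).contDiff.comp hsl
    refine hFOU (fun θ => U z θ i) J L MJ T hsi (fun θ => ?_) hJ hL (fun θ => ?_) (hcf i) θ
    · show U z (θ + 2 * Real.pi) i = U z θ i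
      rw [hU.2]
    · rw [iter_comp hsl i J]
      exact (PiLp.norm_apply_le (iteratedDeriv J (U z) θ) i).trans (hMJ z hz θ)
  have hT2 : T ≤ 3 ^ (B0 + B1 + B2) * (C0 + C1 + C2) * (L : ℝ) ^ (B0 + B1 + B2) * N ^ 2 * s := by
    rw [hT]
    have h3 : ((L : ℝ) + 2) ^ (B0 + B1 + B2) ≤
        3 ^ (B0 + B1 + B2) * (L : ℝ) ^ (B0 + B1 + B2) := by
      rw [← mul_pow]
      gcongr
      linarith
    calc (C0 + C1 + C2) * ((L : ℝ) + 2) ^ (B0 + B1 + B2) * N ^ 2 * s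
        ≤ (C0 + C1 + C2) * (3 ^ (B0 + B1 + B2) * (L : ℝ) ^ (B0 + B1 + B2)) * N ^ 2 * s := by
          gcongr
      _ = _ := by ring
  have hT0 : 0 ≤ T := by positivity
  refine (norm_le3 hbound).trans ?_
  have h4 : (2 * (L : ℝ) + 1) * T ≤ 3 * (L : ℝ) *
      (3 ^ (B0 + B1 + B2) * (C0 + C1 + C2) * (L : ℝ) ^ (B0 + B1 + B2) * N ^ 2 * s) := by
    gcongr
    linarith
  have h5 : 0 ≤ MJ / (L : ℝ) ^ (J - 1) := by positivity
  have h6 : 0 ≤ (L : ℝ) ^ (B0 + B1 + B2 + 1) * N ^ 2 * s := by positivity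
  have h7 : (0 : ℝ) ≤ 9 * 3 ^ (B0 + B1 + B2) * (C0 + C1 + C2) := by positivity
  calc 3 * ((2 * (L : ℝ) + 1) * T + 8 * MJ / (L : ℝ) ^ (J - 1))
      ≤ 3 * (3 * (L : ℝ) * (3 ^ (B0 + B1 + B2) * (C0 + C1 + C2) * (L : ℝ) ^ (B0 + B1 + B2) *
        N ^ 2 * s) + 8 * MJ / (L : ℝ) ^ (J - 1)) := by gcongr
    _ = 9 * 3 ^ (B0 + B1 + B2) * (C0 + C1 + C2) * ((L : ℝ) ^ (B0 + B1 + B2 + 1) * N ^ 2 * s) +
        24 * (MJ / (L : ℝ) ^ (J - 1)) := by ring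
    _ ≤ _ := by nlinarith

end Pool.Agent.Lib.MP478c11.DB.S
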