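import Pool.Agent.Lib.MP_478c11_gt.DB.S.REF
import Pool.Agent.Lib.MP_478c11_gt.DB.S.MEQ
import Pool.Agent.Lib.MP_478c11_gt.DB.S.SQB
import Pool.Agent.Lib.MP_478c11_gt.DB.S.MN0
import Pool.Agent.Lib.MP_478c11_gt.DB.S.MN1
import Pool.Agent.Lib.MP_478c11_gt.DB.S.MN2
import Pool.Agent.Lib.MP_478c11_gt.DB.S.SUP
import Pool.Agent.Lib.MP_478c11_gt.DB.S.CHT
import Pool.Agent.Lib.MP_478c11_gt.DB.S.ISE
import Pool.Agent.Lib.MP_478c11_gt.DB.S.SIZ
import Pool.Agent.Lib.MP_478c11_gt.DB.S.ISO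
import Pool.Agent.Lib.MP_478c11_gt.DB.S.CPT
import Pool.Agent.Lib.MP_478c11_gt.DB.S.FRM
import Pool.Agent.Lib.MP_478c11_gt.DB.S.NMB
import Pool.Agent.Lib.MP_478c11_gt.DB.S.OPC
import Pool.Agent.Lib.MP_478c11_gt.DB.DUI
import Pool.Agent.Lib.MP_478c11_gt.DB.FLE
import Pool.Agent.Lib.MP_478c11_gt.DB.FOU
import Pool.Agent.Lib.MP_478c11_gt.DB.BOT
import Pool.Agent.Lib.MP_478c11_gt.DB.IN1
import Pool.Agent.Lib.MP_478c11_gt.DB.IN2
import Pool.Agent.Lib.MP_478c11_gt.DB.POL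

set_option autoImplicit false

namespace Pool.Agent.Lib.MP478c11.DB.S

theorem hMEQ : SpecMEQ := specMEQ specDUI specFLE
theorem hSQB : SpecSQB := specSQB specFLE
theorem hMN0 : SpecMN0 := specMN0 specDUI specFLE hMEQ hSQB
theorem hMN1 : SpecMN1 := specMN1 specDUI specFLE hMEQ hSQB
theorem hMN2 : SpecMN2 := specMN2 specDUI specFLE hMEQ hSQB
theorem hSUP : SpecSUP := specSUP specDUI specFLE hMN0 hMN1 hMN2 specFOU
theorem hCHT : SpecCHT := specCHT specREF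
theorem hIN2 : SpecIN2 := specIN2 specIN1
theorem hSIZ : SpecSIZ := specSIZ hIN2 specPOL
theorem hISO : SpecISO := specISO hSUP specBOT specISE hSIZ
theorem hOPC : SpecOPC := specOPC hCHT hISO specCPT specFRM specNMB

/-- A sphere of revolution with the a priori estimate is unbendable. -/
theorem unb {h : ℝ → ℝ} {a b : ℝ} (hS : Sph h a b) (hE : Est h a b) : Unb h a b := by
  have hab := hS.ab
  refine hOPC h a ((2 * a + b) / 3) ((a + 2 * b) / 3) b ?_ hE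
  exact ⟨hS.smooth, by linarith, by linarith, by linarith, hS.ha, hS.hb, hS.pos, hS.da, hS.db⟩


end Pool.Agent.Lib.MP478c11.DB.S
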