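import Pool.Agent.Lib.MP_478c11_gt.DB.Loc

/-!
# MP_478c11_gt, DB: module BD1

Bounds for the derivatives of a map on the surface give bounds for its derivatives in the charts.
-/

set_option autoImplicit false

namespace Pool.Agent.Lib.MP478c11.DB.S

open Set Filter Topology MeasureTheory
open scoped ContDiff InnerProductSpace

noncomputable section

namespace BD1M

/-- the direction of a letter -/
def dir (i : Bool) : ℝ × ℝ := if i then (1, 0) else (0, 1)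

lemma pd_eq (i : Bool) (g : ℝ × ℝ → E3) (p : ℝ × ℝ) : pd i g p = fderiv ℝ g p (dir i) := by
  unfold pd dir
  cases i <;> rfl

lemma dir_norm (i : Bool) : ‖dir i‖ ≤ 1 := by
  unfold dir
  cases i <;> simp [Prod.norm_def]

/-- A word of partial derivatives is a value of the iterated derivative. -/
lemma dw_eq (g : ℝ × ℝ → E3) (V : Set (ℝ × ℝ)) (hV : IsOpen V) (hg : ContDiffOn ℝ ∞ g V)
    (w : List Bool) : ∃ m : Fin w.length → ℝ × ℝ, (∀ i, ‖m i‖ ≤ 1) ∧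
      ∀ p ∈ V, dw w g p = iteratedFDeriv ℝ w.length g p m := by
  induction w with
  | nil =>
    refine ⟨fun i => 0, fun i => i.elim0, fun p _ => ?_⟩
    rfl
  | cons i w ih =>
    obtain ⟨m, hm, hw⟩ := ih
    refine ⟨(Fin.cons (dir i) m : Fin (w.length + 1) → ℝ × ℝ), ?_, fun p hp => ?_⟩
    · intro j
      refine Fin.cases ?_ (fun j => ?_) j
      · exact dir_norm i
      · exact hm j
    · change pd i (dw w g) p = iteratedFDeriv ℝ (w.length + 1) g p (Fin.cons (dir i) m)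
      rw [pd_eq]
      have h1 : dw w g =ᶠ[𝓝 p] fun q => iteratedFDeriv ℝ w.length g q m := by
        filter_upwards [hV.mem_nhds hp] with q hq
        exact hw q hq
      rw [h1.fderiv_eq]
      have h2 : DifferentiableAt ℝ (iteratedFDeriv ℝ w.length g) p := by
        have h3 : ContDiffAt ℝ ∞ g p := hg.contDiffAt (hV.mem_nhds hp)
        have h4 : ContDiffAt ℝ 1 (iteratedFDeriv ℝ w.length g) p := by
          refine h3.iteratedFDeriv_right (m := 1) ?_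
          exact_mod_cast le_top
        exact h4.differentiableAt (by simp)
      have h5 := (h2.hasFDerivAt.continuousMultilinear_apply_const m).fderiv
      rw [h5, iteratedFDeriv_succ_apply_left]
      rfl

lemma dw_le (g : ℝ × ℝ → E3) (V : Set (ℝ × ℝ)) (hV : IsOpen V) (hg : ContDiffOn ℝ ∞ g V)
    (w : List Bool) (p : ℝ × ℝ) (hp : p ∈ V) :
    ‖dw w g p‖ ≤ ‖iteratedFDeriv ℝ w.length g p‖ := by
  obtain ⟨m, hm, hw⟩ := dw_eq g V hV hg w
  rw [hw p hp]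
  refine (ContinuousMultilinearMap.le_opNorm _ _).trans ?_
  have h1 : ∏ i, ‖m i‖ ≤ 1 := Finset.prod_le_one (fun i _ => norm_nonneg _) (fun i _ => hm i)
  exact mul_le_of_le_one_right (norm_nonneg _) h1

section

variable {P : Type} [NormedAddCommGroup P] [NormedSpace ℝ P]

/-- The derivatives of a composition. -/
lemma comp_bound (f : E3 → E3) (Ω : Set E3) (hΩ : IsOpen Ω) (hf : ContDiffOn ℝ ∞ f Ω)
    (Ψ : P → E3) (V : Set P) (hV : IsOpen V) (hΨ : ContDiffOn ℝ ∞ Ψ V) (hm : MapsTo Ψ V Ω)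
    (p : P) (hp : p ∈ V) (n : ℕ) (M D : ℝ) (hD : 1 ≤ D)
    (hM : ∀ i ≤ n, ‖iteratedFDeriv ℝ i f (Ψ p)‖ ≤ M)
    (hDi : ∀ i ≤ n, ‖iteratedFDeriv ℝ i Ψ p‖ ≤ D) :
    ‖iteratedFDeriv ℝ n (fun p => f (Ψ p)) p‖ ≤ (n.factorial : ℝ) * M * D ^ n := by
  have h1 := norm_iteratedFDerivWithin_comp_le (n := n) (C := M) (D := D) hf hΨ
    (by exact_mod_cast le_top) hΩ.uniqueDiffOn hV.uniqueDiffOn hm hp
    (fun i hi => by
      rw [iteratedFDerivWithin_of_isOpen i hΩ (hm hp)]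
      exact hM i hi)
    (fun i hi1 hi => by
      rw [iteratedFDerivWithin_of_isOpen i hV hp]
      refine (hDi i hi).trans ?_
      exact le_self_pow₀ hD (by omega))
  rw [iteratedFDerivWithin_of_isOpen n hV hp] at h1
  exact h1

/-- The derivatives of a smooth map are bounded on compact sets. -/
lemma deriv_bound (Ψ : P → E3) (V : Set P) (hV : IsOpen V) (hΨ : ContDiffOn ℝ ∞ Ψ V)
    (K : Set P) (hK : IsCompact K) (hKV : K ⊆ V) (n : ℕ) :
    ∃ D : ℝ, 1 ≤ D ∧ ∀ i ≤ n, ∀ p ∈ K, ‖iteratedFDeriv ℝ i Ψ p‖ ≤ D := by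
  have h1 : ∀ i : ℕ, ∃ D : ℝ, ∀ p ∈ K, ‖iteratedFDeriv ℝ i Ψ p‖ ≤ D := by
    intro i
    have h2 : ContinuousOn (iteratedFDeriv ℝ i Ψ) V := by
      have h3 := hΨ.continuousOn_iteratedFDerivWithin (m := i) (by exact_mod_cast le_top)
        hV.uniqueDiffOn
      exact h3.congr fun x hx => (iteratedFDerivWithin_of_isOpen i hV hx).symm
    exact hK.exists_bound_of_continuousOn (h2.mono hKV)
  choose D hD using h1
  refine ⟨1 + ∑ i ∈ Finset.range (n + 1), |D i|, ?_, fun i hi p hp => ?_⟩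
  · have : 0 ≤ ∑ i ∈ Finset.range (n + 1), |D i| := Finset.sum_nonneg fun i _ => abs_nonneg _
    linarith
  · have h2 : |D i| ≤ ∑ i ∈ Finset.range (n + 1), |D i| :=
      Finset.single_le_sum (f := fun i => |D i|) (fun i _ => abs_nonneg _)
        (Finset.mem_range.2 (by omega))
    have h3 := hD i p hp
    have h4 := le_abs_self (D i)
    linarith

end

/-- The bound in a chart. -/
lemma word_bound (f : E3 → E3) (Ω S : Set E3) (hΩ : IsOpen Ω) (hS : S ⊆ Ω)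
    (hf : ContDiffOn ℝ ∞ f Ω) (J : ℕ) (M : ℝ)
    (hM : ∀ i ≤ max 21 J, ∀ x ∈ S, ‖iteratedFDeriv ℝ i f x‖ ≤ M)
    (Ψ : ℝ × ℝ → E3) (V : Set (ℝ × ℝ)) (hV : IsOpen V) (hΨ : ContDiffOn ℝ ∞ Ψ V)
    (hm : MapsTo Ψ V S) (D : ℝ) (hD : 1 ≤ D) (p : ℝ × ℝ) (hp : p ∈ V)
    (hDi : ∀ i ≤ 21, ‖iteratedFDeriv ℝ i Ψ p‖ ≤ D) (w : List Bool) (hw : w.length ≤ 21) :
    ‖dw w (fun p => f (Ψ p)) p‖ ≤ (Nat.factorial 21 : ℝ) * M * D ^ 21 := by
  have hg : ContDiffOn ℝ ∞ (fun p => f (Ψ p)) V := hf.comp hΨ fun x hx => hS (hm hx)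
  refine (dw_le _ V hV hg w p hp).trans ?_
  refine (comp_bound f Ω hΩ hf Ψ V hV hΨ (fun x hx => hS (hm hx)) p hp w.length M D hD
    (fun i hi => hM i ((hi.trans hw).trans (le_max_left _ _)) _ (hm hp))
    (fun i hi => hDi i (hi.trans hw))).trans ?_
  have hM0 : 0 ≤ M := (norm_nonneg _).trans (hM 0 (Nat.zero_le _) _ (hm hp))
  have h1 : (w.length.factorial : ℝ) ≤ (Nat.factorial 21 : ℝ) := by
    exact_mod_cast Nat.factorial_le hw
  have h2 : D ^ w.length ≤ D ^ 21 := pow_le_pow_right₀ hD hw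
  have h3 : (0 : ℝ) ≤ D ^ w.length := by positivity
  have h4 : (0 : ℝ) ≤ (w.length.factorial : ℝ) := by positivity
  have h5 : (w.length.factorial : ℝ) * M ≤ (Nat.factorial 21 : ℝ) * M :=
    mul_le_mul_of_nonneg_right h1 hM0
  exact mul_le_mul h5 h2 h3 (by positivity)

lemma chart_smooth (φ : ℝ → ℝ) (ε : ℝ)
    (hφ : ContDiffOn ℝ ∞ φ (Ioo (-(4 * ε ^ 2)) (4 * ε ^ 2))) :
    ContDiffOn ℝ ∞ (Ps φ) {x : ℝ × ℝ | x.1 ^ 2 + x.2 ^ 2 < 4 * ε ^ 2} := by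
  rw [contDiffOn_euclidean]
  intro i
  fin_cases i
  · exact contDiff_fst.contDiffOn
  · exact contDiff_snd.contDiffOn
  · have h1 : ContDiffOn ℝ ∞ (fun x : ℝ × ℝ => x.1 ^ 2 + x.2 ^ 2)
        {x : ℝ × ℝ | x.1 ^ 2 + x.2 ^ 2 < 4 * ε ^ 2} := by fun_prop
    exact hφ.comp h1 (fun x hx => ⟨by
      have hx' : x.1 ^ 2 + x.2 ^ 2 < 4 * ε ^ 2 := hx
      nlinarith [sq_nonneg x.1, sq_nonneg x.2], hx⟩)

lemma chart_bound (h φ : ℝ → ℝ) (a b ε : ℝ) (he : 0 < ε)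
    (hφ : ContDiffOn ℝ ∞ φ (Ioo (-(4 * ε ^ 2)) (4 * ε ^ 2)))
    (hr : ∀ s ∈ Ico 0 (4 * ε ^ 2), a ≤ φ s ∧ φ s ≤ b ∧ h (φ s) = s) (J : ℕ) (M : ℝ) :
    ∃ M' : ℝ, ∀ (f : E3 → E3) (Ω : Set E3), IsOpen Ω → Surf h a b ⊆ Ω → ContDiffOn ℝ ∞ f Ω →
      (∀ i ≤ max 21 J, ∀ x ∈ Surf h a b, ‖iteratedFDeriv ℝ i f x‖ ≤ M) →
      ∀ w : List Bool, w.length ≤ 21 → ∀ p ∈ Icc (-ε) ε ×ˢ Icc (-ε) ε,
        ‖dw w (fun p => f (Ps φ p)) p‖ ≤ M' := by
  have he2 : 0 < ε ^ 2 := by positivity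
  let V : Set (ℝ × ℝ) := {x | x.1 ^ 2 + x.2 ^ 2 < 4 * ε ^ 2}
  have hVo : IsOpen V := isOpen_lt (by fun_prop) continuous_const
  have hc : ContDiffOn ℝ ∞ (Ps φ) V := chart_smooth φ ε hφ
  have hmaps : MapsTo (Ps φ) V (Surf h a b) := by
    intro x hx
    obtain ⟨r1, r2, r3⟩ := hr (x.1 ^ 2 + x.2 ^ 2) ⟨by positivity, hx⟩
    exact ⟨r1, r2, r3.symm⟩
  have hKV : Icc (-ε) ε ×ˢ Icc (-ε) ε ⊆ V := by
    rintro ⟨x, y⟩ ⟨hx, hy⟩
    have hx2 : x ^ 2 ≤ ε ^ 2 := sq_le_sq' hx.1 hx.2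
    have hy2 : y ^ 2 ≤ ε ^ 2 := sq_le_sq' hy.1 hy.2
    show x ^ 2 + y ^ 2 < 4 * ε ^ 2
    linarith
  obtain ⟨D, hD1, hD⟩ := deriv_bound (Ps φ) V hVo hc (Icc (-ε) ε ×ˢ Icc (-ε) ε)
    (isCompact_Icc.prod isCompact_Icc) hKV 21
  refine ⟨(Nat.factorial 21 : ℝ) * M * D ^ 21, fun f Ω hΩ hS hf hM w hw p hp => ?_⟩
  exact word_bound f Ω (Surf h a b) hΩ hS hf J M hM (Ps φ) V hVo hc hmaps D hD1 p (hKV hp)
    (fun i hi => hD i hi p hp) w hw

lemma dw_periodic (g : ℝ × ℝ → E3) (v : ℝ × ℝ) (hg : ∀ p, g (p + v) = g p) (w : List Bool) :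
    ∀ p, dw w g (p + v) = dw w g p := by
  induction w with
  | nil => exact hg
  | cons i w ih =>
    intro p
    change pd i (dw w g) (p + v) = pd i (dw w g) p
    rw [pd_eq, pd_eq, ← fderiv_comp_add_right v]
    have h1 : (fun x => dw w g (x + v)) = dw w g := funext ih
    rw [h1]

lemma polar_bound (h : ℝ → ℝ) (a b δ : ℝ) (hh : ContDiff ℝ ∞ h)
    (hpos : ∀ z, a < z → z < b → 0 < h z) (hδ : 0 < δ) (J : ℕ) (M : ℝ) :
    ∃ M' : ℝ, ∀ (f : E3 → E3) (Ω : Set E3), IsOpen Ω → Surf h a b ⊆ Ω → ContDiffOn ℝ ∞ f Ω →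
      (∀ i ≤ max 21 J, ∀ x ∈ Surf h a b, ‖iteratedFDeriv ℝ i f x‖ ≤ M) →
      ∀ w : List Bool, w.length ≤ 21 →
      ∀ z ∈ Icc (a + δ / 2) (b - δ / 2), ∀ θ : ℝ,
        ‖dw w (fun p => f (X h p.1 p.2)) (z, θ)‖ ≤ M' := by
  let V : Set (ℝ × ℝ) := {x | a < x.1 ∧ x.1 < b}
  have hcz : Continuous (fun x : ℝ × ℝ => x.1) := by fun_prop
  have hVo : IsOpen V := (isOpen_lt continuous_const hcz).inter (isOpen_lt hcz continuous_const)
  have hs : ContDiffOn ℝ ∞ (fun x : ℝ × ℝ => √(h x.1)) V := by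
    have h1 : ContDiff ℝ ∞ (fun x : ℝ × ℝ => h x.1) := hh.comp contDiff_fst
    exact h1.contDiffOn.sqrt fun x hx => (hpos _ hx.1 hx.2).ne'
  have hc : ContDiffOn ℝ ∞ (fun x : ℝ × ℝ => X h x.1 x.2) V := by
    rw [contDiffOn_euclidean]
    intro i
    fin_cases i
    · exact hs.mul (Real.contDiff_cos.comp contDiff_snd).contDiffOn
    · exact hs.mul (Real.contDiff_sin.comp contDiff_snd).contDiffOn
    · exact contDiff_fst.contDiffOn
  have hmaps : MapsTo (fun x : ℝ × ℝ => X h x.1 x.2) V (Surf h a b) := by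
    intro x hx
    refine ⟨hx.1.le, hx.2.le, ?_⟩
    change (√(h x.1) * Real.cos x.2) ^ 2 + (√(h x.1) * Real.sin x.2) ^ 2 = h x.1
    rw [mul_pow, mul_pow, ← mul_add, Real.cos_sq_add_sin_sq, mul_one,
      Real.sq_sqrt (hpos x.1 hx.1 hx.2).le]
  have hKV : Icc (a + δ / 2) (b - δ / 2) ×ˢ Icc 0 (2 * Real.pi) ⊆ V := by
    rintro ⟨z, θ⟩ ⟨hz, hθ⟩
    exact ⟨by linarith [hz.1], by linarith [hz.2]⟩
  obtain ⟨D, hD1, hD⟩ := deriv_bound (fun x : ℝ × ℝ => X h x.1 x.2) V hVo hc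
    (Icc (a + δ / 2) (b - δ / 2) ×ˢ Icc 0 (2 * Real.pi)) (isCompact_Icc.prod isCompact_Icc) hKV 21
  refine ⟨(Nat.factorial 21 : ℝ) * M * D ^ 21, fun f Ω hΩ hS hf hM w hw z hz θ => ?_⟩
  have hper : Function.Periodic (fun θ => dw w (fun p => f (X h p.1 p.2)) (z, θ))
      (2 * Real.pi) := by
    intro θ
    have h1 := dw_periodic (fun p => f (X h p.1 p.2)) (0, 2 * Real.pi) (by
      intro p
      simp only [Prod.fst_add, Prod.snd_add, add_zero, X, Real.cos_add_two_pi,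
        Real.sin_add_two_pi]) w (z, θ)
    rw [Prod.mk_add_mk, add_zero] at h1
    exact h1
  obtain ⟨y, hy, hyeq⟩ := hper.exists_mem_Ico₀ Real.two_pi_pos θ
  have hyeq' : dw w (fun p => f (X h p.1 p.2)) (z, θ) =
      dw w (fun p => f (X h p.1 p.2)) (z, y) := hyeq
  rw [hyeq']
  have hmem : ((z, y) : ℝ × ℝ) ∈ Icc (a + δ / 2) (b - δ / 2) ×ˢ Icc 0 (2 * Real.pi) :=
    ⟨hz, hy.1, hy.2.le⟩
  exact word_bound f Ω (Surf h a b) hΩ hS hf J M hM (fun x : ℝ × ℝ => X h x.1 x.2) V hVo hc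
    hmaps D hD1 (z, y) (hKV hmem) (fun i hi => hD i hi (z, y) hmem) w hw

lemma surf_compact (h : ℝ → ℝ) (a b : ℝ) (hh : Continuous h) : IsCompact (Surf h a b) := by
  have c : ∀ i : Fin 3, Continuous (fun x : E3 => x i) := fun i => by fun_prop
  apply Metric.isCompact_of_isClosed_isBounded
  · exact (isClosed_le continuous_const (c 2)).inter ((isClosed_le (c 2) continuous_const).inter
      (isClosed_eq (((c 0).pow 2).add ((c 1).pow 2)) (hh.comp (c 2))))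
  · obtain ⟨R, hR⟩ := (isCompact_Icc (a := a) (b := b)).exists_bound_of_continuousOn
      (f := fun z => h z + z ^ 2) (hh.add (continuous_pow 2)).continuousOn
    rw [isBounded_iff_forall_norm_le]
    refine ⟨√R, fun x hx => ?_⟩
    rw [EuclideanSpace.norm_eq]
    apply Real.sqrt_le_sqrt
    rw [Fin.sum_univ_three]
    simp only [Real.norm_eq_abs, sq_abs]
    have h1 := hR (x 2) ⟨hx.1, hx.2.1⟩
    rw [Real.norm_eq_abs] at h1
    have h2 := le_abs_self (h (x 2) + x 2 ^ 2)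
    have h3 := hx.2.2
    linarith

lemma rot_mem (h : ℝ → ℝ) (a b θ : ℝ) (x : E3) (hx : x ∈ Surf h a b) :
    rot θ x ∈ Surf h a b := by
  refine ⟨hx.1, hx.2.1, ?_⟩
  change (Real.cos θ * x 0 - Real.sin θ * x 1) ^ 2 + (Real.sin θ * x 0 + Real.cos θ * x 1) ^ 2 =
    h (x 2)
  rw [← hx.2.2]
  linear_combination (x 0 ^ 2 + x 1 ^ 2) * Real.sin_sq_add_cos_sq θ

lemma rot_add (t θ : ℝ) (x : E3) : rot (t + θ) x = rot t (rot θ x) := by
  ext i
  fin_cases i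
  · change Real.cos (t + θ) * x 0 - Real.sin (t + θ) * x 1 =
      Real.cos t * (Real.cos θ * x 0 - Real.sin θ * x 1) -
        Real.sin t * (Real.sin θ * x 0 + Real.cos θ * x 1)
    rw [Real.cos_add, Real.sin_add]
    ring
  · change Real.sin (t + θ) * x 0 + Real.cos (t + θ) * x 1 =
      Real.sin t * (Real.cos θ * x 0 - Real.sin θ * x 1) +
        Real.cos t * (Real.sin θ * x 0 + Real.cos θ * x 1)
    rw [Real.cos_add, Real.sin_add]
    ring
  · rfl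

section

variable {P Q : Type} [NormedAddCommGroup P] [NormedSpace ℝ P] [NormedAddCommGroup Q]
  [NormedSpace ℝ Q]

/-- partial derivative of a smooth function with a parameter -/
lemma partial_fderiv (H : P × Q → E3) (x : P × Q) (h : DifferentiableAt ℝ H x) (v : Q) :
    fderiv ℝ (fun q => H (x.1, q)) x.2 v = fderiv ℝ H x (0, v) := by
  have h1 : HasFDerivAt (fun q : Q => (x.1, q)) (ContinuousLinearMap.inr ℝ P Q) x.2 :=
    hasFDerivAt_prodMk_right x.1 x.2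
  have h2 : HasFDerivAt H (fderiv ℝ H x) ((fun q : Q => (x.1, q)) x.2) := h.hasFDerivAt
  have h3 : HasFDerivAt (fun q => H (x.1, q)) ((fderiv ℝ H x).comp
      (ContinuousLinearMap.inr ℝ P Q)) x.2 := h2.comp x.2 h1
  rw [h3.fderiv]
  rfl

lemma it_smooth (Ω : Set (P × ℝ)) (hΩ : IsOpen Ω) (G : P × ℝ → E3)
    (hG : ContDiffOn ℝ ∞ G Ω) (J : ℕ) :
    ContDiffOn ℝ ∞ (fun x : P × ℝ => iteratedDeriv J (fun t => G (x.1, t)) x.2) Ω := by
  induction J with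
  | zero =>
    simp only [iteratedDeriv_zero]
    exact hG
  | succ J ih =>
    have h1 : ContDiffOn ℝ ∞ (fun x : P × ℝ =>
        fderiv ℝ (fun x : P × ℝ => iteratedDeriv J (fun t => G (x.1, t)) x.2) x (0, 1)) Ω :=
      (ih.fderiv_of_isOpen hΩ (by simp)).clm_apply contDiffOn_const
    refine h1.congr fun x hx => ?_
    have hd := (ih.contDiffAt (hΩ.mem_nhds hx)).differentiableAt (by simp)
    rw [iteratedDeriv_succ, ← fderiv_apply_one_eq_deriv]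
    exact partial_fderiv (fun x : P × ℝ => iteratedDeriv J (fun t => G (x.1, t)) x.2) x hd 1

end

lemma rot_smooth : ContDiff ℝ ∞ (fun x : E3 × ℝ => rot x.2 x.1) := by
  have p0 : ∀ i : Fin 3, ContDiff ℝ ∞ (fun x : E3 × ℝ => x.1 i) := fun i => by fun_prop
  have pc : ContDiff ℝ ∞ (fun x : E3 × ℝ => Real.cos x.2) := Real.contDiff_cos.comp contDiff_snd
  have ps : ContDiff ℝ ∞ (fun x : E3 × ℝ => Real.sin x.2) := Real.contDiff_sin.comp contDiff_snd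
  rw [contDiff_euclidean]
  intro i
  fin_cases i
  · exact (pc.mul (p0 0)).sub (ps.mul (p0 1))
  · exact (ps.mul (p0 0)).add (pc.mul (p0 1))
  · exact p0 2

lemma rot_deriv (S : Set E3) (hS : IsCompact S) (J : ℕ) :
    ∃ D : ℝ, 1 ≤ D ∧ ∀ i ≤ J, ∀ x ∈ S, ‖iteratedFDeriv ℝ i (fun t => rot t x) 0‖ ≤ D := by
  have h1 : ∀ i : ℕ, ∃ D : ℝ, ∀ x ∈ S, ‖iteratedDeriv i (fun t => rot t x) 0‖ ≤ D := by
    intro i
    have h2 := (it_smooth univ isOpen_univ (fun x : E3 × ℝ => rot x.2 x.1)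
      rot_smooth.contDiffOn i).continuousOn
    obtain ⟨D, hD⟩ := (hS.prod (isCompact_singleton (x := (0 : ℝ)))).exists_bound_of_continuousOn
      (h2.mono (subset_univ _))
    exact ⟨D, fun x hx => hD (x, 0) ⟨hx, rfl⟩⟩
  choose D hD using h1
  refine ⟨1 + ∑ i ∈ Finset.range (J + 1), |D i|, ?_, fun i hi p hp => ?_⟩
  · have : 0 ≤ ∑ i ∈ Finset.range (J + 1), |D i| := Finset.sum_nonneg fun i _ => abs_nonneg _
    linarith
  · have h2 : |D i| ≤ ∑ i ∈ Finset.range (J + 1), |D i| :=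
      Finset.single_le_sum (f := fun i => |D i|) (fun i _ => abs_nonneg _)
        (Finset.mem_range.2 (by omega))
    have h3 := hD i p hp
    have h4 := le_abs_self (D i)
    rw [norm_iteratedFDeriv_eq_norm_iteratedDeriv]
    linarith

lemma rot_bound (h : ℝ → ℝ) (a b : ℝ) (hh : Continuous h) (J : ℕ) (M : ℝ) :
    ∃ M' : ℝ, ∀ (f : E3 → E3) (Ω : Set E3), IsOpen Ω → Surf h a b ⊆ Ω → ContDiffOn ℝ ∞ f Ω →
      (∀ i ≤ max 21 J, ∀ x ∈ Surf h a b, ‖iteratedFDeriv ℝ i f x‖ ≤ M) →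
      ∀ x ∈ Surf h a b, ∀ θ, ‖iteratedDeriv J (fun t => f (rot t x)) θ‖ ≤ M' := by
  obtain ⟨D, hD1, hD⟩ := rot_deriv (Surf h a b) (surf_compact h a b hh) J
  refine ⟨(J.factorial : ℝ) * M * D ^ J, fun f Ω hΩ hS hf hM x hx θ => ?_⟩
  have h1 : iteratedDeriv J (fun t => f (rot t (rot θ x))) 0 =
      iteratedDeriv J (fun t => f (rot t x)) θ := by
    have h2 : (fun t => f (rot t (rot θ x))) = fun t => (fun t => f (rot t x)) (t + θ) := by
      funext t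
      simp only [rot_add]
    rw [h2]
    have h3 := congrFun (iteratedDeriv_comp_add_const J (fun t => f (rot t x)) θ) 0
    rw [zero_add] at h3
    exact h3
  rw [← h1, ← norm_iteratedFDeriv_eq_norm_iteratedDeriv]
  have hy := rot_mem h a b θ x hx
  have hsm : ContDiffOn ℝ ∞ (fun t : ℝ => rot t (rot θ x)) univ :=
    (rot_smooth.comp ((contDiff_const (c := rot θ x)).prodMk contDiff_id)).contDiffOn
  exact comp_bound f Ω hΩ hf (fun t : ℝ => rot t (rot θ x)) univ isOpen_univ hsm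
    (fun t _ => hS (rot_mem h a b t _ hy)) 0 (mem_univ _) J M D hD1
    (fun i hi => hM i (hi.trans (le_max_right _ _)) _ (rot_mem h a b 0 _ hy))
    (fun i hi => hD i hi _ hy)

end BD1M

open BD1M

/-- **BD1**: bounds for the derivatives on the surface give bounds along the charts. -/
theorem specBD1 : SpecBD1 := by
  intro h a p q b φa φb ε δ D Ch J M
  obtain ⟨M₁, h1⟩ := chart_bound h φa a b ε Ch.e0 Ch.sa Ch.ra J M
  obtain ⟨M₂, h2⟩ := chart_bound h φb a b ε Ch.e0 Ch.sb Ch.rb J M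
  obtain ⟨M₃, h3⟩ := polar_bound h a b δ D.smooth D.pos Ch.d0 J M
  obtain ⟨M₄, h4⟩ := rot_bound h a b D.smooth.continuous J M
  refine ⟨max (max M₁ M₂) (max M₃ M₄), fun f Ω hΩ hS hf hM => ⟨?_, ?_, ?_, ?_⟩⟩
  · intro w hw p hp
    exact (h1 f Ω hΩ hS hf hM w hw p hp).trans ((le_max_left _ _).trans (le_max_left _ _))
  · intro w hw p hp
    exact (h2 f Ω hΩ hS hf hM w hw p hp).trans ((le_max_right _ _).trans (le_max_left _ _))
  · intro w hw z hz θ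
    exact (h3 f Ω hΩ hS hf hM w hw z hz θ).trans ((le_max_left _ _).trans (le_max_right _ _))
  · intro x hx θ
    exact (h4 f Ω hΩ hS hf hM x hx θ).trans ((le_max_right _ _).trans (le_max_right _ _))

end

end Pool.Agent.Lib.MP478c11.DB.S
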