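import Pool.Agent.Lib.MP_478c11_gt.DB.Loc
import Pool.Agent.Lib.MP_478c11_gt.DB.S.CPT

/-!
# MP_478c11_gt, DB part 4: module CCP (helper77)

Uniform bounds for a family of isometric maps which is only continuous in the parameter.
-/

set_option autoImplicit false

namespace Pool.Agent.Lib.MP478c11.DB.S

open Set Filter Topology MeasureTheory
open scoped ContDiff InnerProductSpace

theorem specCCP (hBD1 : SpecBD1) : SpecCCP := by
  intro h a p q b φa φb ε δ hD hC F hF J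
  obtain ⟨Ω, hΩ, hsub, hsm, hcont⟩ := hF.cont
  have hS : IsCompact (Surf h a b) := CPTM.surf_compact h a b hD.smooth.continuous
  have hK : IsCompact (Icc (0 : ℝ) 1 ×ˢ Surf h a b) := isCompact_Icc.prod hS
  have h1 : ∀ i : ℕ, ∃ M : ℝ, ∀ x ∈ Icc (0 : ℝ) 1 ×ˢ Surf h a b,
      ‖iteratedFDeriv ℝ i (F x.1) x.2‖ ≤ M := fun i =>
    hK.exists_bound_of_continuousOn ((hcont i).mono (prod_mono_right hsub))
  choose Mi hMi using h1
  obtain ⟨M, hM⟩ := ((Set.finite_le_nat (max 21 J)).image Mi).bddAbove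
  obtain ⟨M', hM'⟩ := hBD1 h a p q b φa φb ε δ hD hC J M
  refine ⟨M', fun α hα => hM' (F α) Ω hΩ hsub (hsm α hα) ?_⟩
  intro i hi x hx
  exact (hMi i (α, x) ⟨hα, hx⟩).trans (hM ⟨i, hi, rfl⟩)

end Pool.Agent.Lib.MP478c11.DB.S
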