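import Pool.Agent.Lib.MP_478c11_gt.DB.Loc

/-!
# MP_478c11_gt, module CFR: the motions of a family which is only continuous in the parameter
-/

set_option autoImplicit false

namespace Pool.Agent.Lib.MP478c11.DB.S

open Set Filter Topology MeasureTheory
open scoped ContDiff InnerProductSpace

namespace CFRM

theorem ext3 {x y : E3} (h0 : x 0 = y 0) (h1 : x 1 = y 1) (h2 : x 2 = y 2) : x = y := by
  ext i
  fin_cases i
  · exact h0
  · exact h1
  · exact h2

/-- the lower pole -/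
noncomputable def PP (a : ℝ) : E3 := !₂[0, 0, a]

noncomputable def e1 : E3 := !₂[1, 0, 0]
noncomputable def e2 : E3 := !₂[0, 1, 0]
noncomputable def e3 : E3 := !₂[0, 0, 1]

theorem PP_mem {h : ℝ → ℝ} {a p q b : ℝ} (hD : Dumb h a p q b) : PP a ∈ Surf h a b := by
  refine ⟨le_refl a, ?_, ?_⟩
  · show a ≤ b
    linarith [hD.ap, hD.pq, hD.qb]
  · show (0 : ℝ) ^ 2 + 0 ^ 2 = h a
    rw [hD.ha]
    norm_num

end CFRM

open CFRM in
theorem specCFR : SpecCFR := by
  intro h a p q b φa φb ε δ hD hCh F hF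
  obtain ⟨Ω, hΩ, hSub, hsm, hcont⟩ := hF.cont
  have hPS := PP_mem hD
  have hPΩ : PP a ∈ Ω := hSub hPS
  have hc0 : ContinuousOn (fun p : ℝ × E3 => F p.1 p.2) (Icc (0 : ℝ) 1 ×ˢ Ω) := by
    have h1 := (ContinuousMultilinearMap.apply ℝ (fun _ : Fin 0 => E3) E3
      (fun _ => 0)).continuous.comp_continuousOn (hcont 0)
    refine h1.congr ?_
    intro p _
    exact (iteratedFDeriv_zero_apply (𝕜 := ℝ) (f := F p.1) (x := p.2) (fun _ : Fin 0 => (0 : E3))).symm
  have hc1 : ∀ e : E3, ContinuousOn (fun p : ℝ × E3 => fderiv ℝ (F p.1) p.2 e)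
      (Icc (0 : ℝ) 1 ×ˢ Ω) := by
    intro e
    have h1 := (ContinuousMultilinearMap.apply ℝ (fun _ : Fin 1 => E3) E3
      (fun _ => e)).continuous.comp_continuousOn (hcont 1)
    refine h1.congr ?_
    intro p _
    exact (iteratedFDeriv_one_apply (𝕜 := ℝ) (f := F p.1) (x := p.2) (fun _ : Fin 1 => e)).symm
  refine ⟨?_, ?_, hc0.mono (prod_mono (le_refl _) hSub)⟩
  · -- the start
    have h0 : (0 : ℝ) ∈ Icc (0 : ℝ) 1 := ⟨le_refl _, zero_le_one⟩
    have hd0 : HasFDerivAt (F 0) (fderiv ℝ (F 0) (PP a)) (PP a) :=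
      (((hsm 0 h0).contDiffAt (hΩ.mem_nhds hPΩ)).differentiableAt (by simp)).hasFDerivAt
    have hφd : HasDerivAt φa (deriv φa 0) 0 := by
      have h1 : (0 : ℝ) ∈ Ioo (-(4 * ε ^ 2)) (4 * ε ^ 2) := by
        have := hCh.e0
        constructor <;> nlinarith
      exact ((hCh.sa.contDiffAt (isOpen_Ioo.mem_nhds h1)).differentiableAt (by simp)).hasDerivAt
    have hφ2 : HasDerivAt (fun t : ℝ => φa (t ^ 2)) 0 0 := by
      have h1 : HasDerivAt (fun t : ℝ => t ^ 2) (2 * 0) (0 : ℝ) := by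
        have := hasDerivAt_pow 2 (0 : ℝ)
        simpa using this
      have h2 : HasDerivAt φa (deriv φa 0) ((0 : ℝ) ^ 2) := by
        rw [zero_pow two_ne_zero]
        exact hφd
      have h3 : HasDerivAt (φa ∘ fun t : ℝ => t ^ 2) (deriv φa 0 * (2 * 0)) 0 :=
        HasDerivAt.comp (h := fun t : ℝ => t ^ 2) (0 : ℝ) h2 h1
      rw [mul_zero, mul_zero] at h3
      exact h3
    have key : ∀ e : E3, (e = e1 ∨ e = e2) → fderiv ℝ (F 0) (PP a) e = e := by
      intro e he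
      obtain ⟨γ, hγ⟩ : ∃ γ : ℝ → E3, γ = fun t => t • e + φa (t ^ 2) • e3 := ⟨_, rfl⟩
      have hγ0 : γ 0 = PP a := by
        rw [hγ]
        show (0 : ℝ) • e + φa (0 ^ 2) • e3 = PP a
        rw [zero_smul, zero_add, zero_pow two_ne_zero, hCh.a0]
        apply ext3
        · show a * 0 = 0
          ring
        · show a * 0 = 0
          ring
        · show a * 1 = a
          ring
      have hγd : HasDerivAt γ e 0 := by
        rw [hγ]
        have h1 : HasDerivAt (fun t : ℝ => t • e) ((1 : ℝ) • e) 0 := (hasDerivAt_id (0 : ℝ)).smul_const e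
        have h2 : HasDerivAt (fun t : ℝ => φa (t ^ 2) • e3) ((0 : ℝ) • e3) 0 := hφ2.smul_const e3
        have h3 := h1.add h2
        rw [one_smul, zero_smul, add_zero] at h3
        exact h3
      have hγS : ∀ᶠ t in 𝓝 (0 : ℝ), γ t ∈ Surf h a b := by
        have h1 : ∀ᶠ t in 𝓝 (0 : ℝ), t ^ 2 < 4 * ε ^ 2 := by
          have h2 : ContinuousAt (fun t : ℝ => t ^ 2) 0 := (continuous_pow 2).continuousAt
          apply h2.eventually_lt continuousAt_const
          have := hCh.e0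
          show (0 : ℝ) ^ 2 < 4 * ε ^ 2
          nlinarith
        filter_upwards [h1] with t ht
        obtain ⟨r1, r2, r3⟩ := hCh.ra (t ^ 2) ⟨sq_nonneg t, ht⟩
        rw [hγ]
        have c2 : (t • e + φa (t ^ 2) • e3 : E3) 2 = φa (t ^ 2) := by
          rcases he with rfl | rfl
          · show t * 0 + φa (t ^ 2) * 1 = φa (t ^ 2)
            ring
          · show t * 0 + φa (t ^ 2) * 1 = φa (t ^ 2)
            ring
        have c01 : (t • e + φa (t ^ 2) • e3 : E3) 0 ^ 2 + (t • e + φa (t ^ 2) • e3 : E3) 1 ^ 2 =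
            t ^ 2 := by
          rcases he with rfl | rfl
          · show (t * 1 + φa (t ^ 2) * 0) ^ 2 + (t * 0 + φa (t ^ 2) * 0) ^ 2 = t ^ 2
            ring
          · show (t * 0 + φa (t ^ 2) * 0) ^ 2 + (t * 1 + φa (t ^ 2) * 0) ^ 2 = t ^ 2
            ring
        refine ⟨?_, ?_, ?_⟩
        · show a ≤ (t • e + φa (t ^ 2) • e3 : E3) 2
          rw [c2]; exact r1
        · show (t • e + φa (t ^ 2) • e3 : E3) 2 ≤ b
          rw [c2]; exact r2
        · show (t • e + φa (t ^ 2) • e3 : E3) 0 ^ 2 + (t • e + φa (t ^ 2) • e3 : E3) 1 ^ 2 =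
            h ((t • e + φa (t ^ 2) • e3 : E3) 2)
          rw [c01, c2, r3]
      have h4 : HasDerivAt (F 0 ∘ γ) (fderiv ℝ (F 0) (PP a) e) 0 := by
        apply HasFDerivAt.comp_hasDerivAt (0 : ℝ) _ hγd
        rw [hγ0]
        exact hd0
      have h5 : (F 0 ∘ γ) =ᶠ[𝓝 0] γ := by
        filter_upwards [hγS] with t ht
        exact hF.start (γ t) ht
      exact (h5.hasDerivAt_iff.1 h4).unique hγd
    have f0 : fr a (F 0) 0 = e1 := key e1 (Or.inl rfl)
    have f1 : fr a (F 0) 1 = e2 := key e2 (Or.inr rfl)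
    have f2 : fr a (F 0) 2 = e3 := by
      show cross (fderiv ℝ (F 0) (PP a) e1) (fderiv ℝ (F 0) (PP a) e2) = e3
      rw [key e1 (Or.inl rfl), key e2 (Or.inr rfl)]
      apply ext3
      · show (0 : ℝ) * 0 - 0 * 1 = 0
        norm_num
      · show (0 : ℝ) * 0 - 1 * 0 = 0
        norm_num
      · show (1 : ℝ) * 1 - 0 * 0 = 1
        norm_num
    intro x
    show F 0 (PP a) + (x 0 • fr a (F 0) 0 + x 1 • fr a (F 0) 1 + (x 2 - a) • fr a (F 0) 2) = x
    rw [f0, f1, f2, hF.start (PP a) hPS]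
    apply ext3
    · show (0 : ℝ) + (x 0 * 1 + x 1 * 0 + (x 2 - a) * 0) = x 0
      ring
    · show (0 : ℝ) + (x 0 * 0 + x 1 * 1 + (x 2 - a) * 0) = x 1
      ring
    · show a + (x 0 * 0 + x 1 * 0 + (x 2 - a) * 1) = x 2
      ring
  · -- continuity
    have hmap : ContinuousOn (fun p : ℝ × E3 => ((p.1, PP a) : ℝ × E3)) (Icc (0 : ℝ) 1 ×ˢ univ) :=
      (continuous_fst.prodMk continuous_const).continuousOn
    have hmem : ∀ p ∈ Icc (0 : ℝ) 1 ×ˢ (univ : Set E3), ((p.1, PP a) : ℝ × E3) ∈ Icc (0 : ℝ) 1 ×ˢ Ω :=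
      fun p hp => ⟨hp.1, hPΩ⟩
    have hcF : ContinuousOn (fun p : ℝ × E3 => F p.1 (PP a)) (Icc 0 1 ×ˢ univ) :=
      hc0.comp hmap hmem
    have hcD : ∀ e : E3, ContinuousOn (fun p : ℝ × E3 => fderiv ℝ (F p.1) (PP a) e)
        (Icc 0 1 ×ˢ univ) := fun e => (hc1 e).comp hmap hmem
    have hco : ∀ {u : ℝ × E3 → E3}, ContinuousOn u (Icc 0 1 ×ˢ univ) → ∀ i : Fin 3,
        ContinuousOn (fun p => u p i) (Icc 0 1 ×ˢ univ) := by
      intro u hu i
      exact (EuclideanSpace.proj (𝕜 := ℝ) i).continuous.comp_continuousOn hu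
    have hx : ∀ i : Fin 3, ContinuousOn (fun p : ℝ × E3 => p.2 i) (Icc 0 1 ×ˢ univ) :=
      fun i => hco continuousOn_snd i
    have hcr : ContinuousOn (fun p : ℝ × E3 => cross (fderiv ℝ (F p.1) (PP a) e1)
        (fderiv ℝ (F p.1) (PP a) e2)) (Icc 0 1 ×ˢ univ) := by
      have h1 : ∀ x y : E3, cross x y = (x 1 * y 2 - x 2 * y 1) • e1 + (x 2 * y 0 - x 0 * y 2) • e2 +
          (x 0 * y 1 - x 1 * y 0) • e3 := by
        intro x y
        apply ext3
        · show x 1 * y 2 - x 2 * y 1 = (x 1 * y 2 - x 2 * y 1) * 1 + (x 2 * y 0 - x 0 * y 2) * 0 +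
            (x 0 * y 1 - x 1 * y 0) * 0
          ring
        · show x 2 * y 0 - x 0 * y 2 = (x 1 * y 2 - x 2 * y 1) * 0 + (x 2 * y 0 - x 0 * y 2) * 1 +
            (x 0 * y 1 - x 1 * y 0) * 0
          ring
        · show x 0 * y 1 - x 1 * y 0 = (x 1 * y 2 - x 2 * y 1) * 0 + (x 2 * y 0 - x 0 * y 2) * 0 +
            (x 0 * y 1 - x 1 * y 0) * 1
          ring
      simp only [h1]
      have c1 := hcD e1
      have c2 := hcD e2
      exact (((((hco c1 1).mul (hco c2 2)).sub ((hco c1 2).mul (hco c2 1))).smul continuousOn_const).add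
        ((((hco c1 2).mul (hco c2 0)).sub ((hco c1 0).mul (hco c2 2))).smul continuousOn_const)).add
        ((((hco c1 0).mul (hco c2 1)).sub ((hco c1 1).mul (hco c2 0))).smul continuousOn_const)
    show ContinuousOn (fun p : ℝ × E3 => F p.1 (PP a) + (p.2 0 • fderiv ℝ (F p.1) (PP a) e1 +
      p.2 1 • fderiv ℝ (F p.1) (PP a) e2 + (p.2 2 - a) • cross (fderiv ℝ (F p.1) (PP a) e1)
        (fderiv ℝ (F p.1) (PP a) e2))) (Icc 0 1 ×ˢ univ)
    exact hcF.add ((((hx 0).smul (hcD e1)).add ((hx 1).smul (hcD e2))).add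
      (((hx 2).sub continuousOn_const).smul hcr))

end Pool.Agent.Lib.MP478c11.DB.S
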