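import Pool.Agent.Lib.MP_478c11_gt.DB.Loc

/-!
# MP_478c11, DB: module FR1 (the motions for a single isometric map; the first half of `DB/S/FRM.lean`)
-/

set_option autoImplicit false

namespace Pool.Agent.Lib.MP478c11.DB.S

open Set Filter Topology MeasureTheory
open scoped ContDiff InnerProductSpace

namespace FR1M

theorem inner3 (x y : E3) : ⟪x, y⟫_ℝ = x 0 * y 0 + x 1 * y 1 + x 2 * y 2 := by
  rw [PiLp.inner_apply, Fin.sum_univ_three]
  simp only [RCLike.inner_apply, conj_trivial]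
  ring

theorem ext3 {x y : E3} (h0 : x 0 = y 0) (h1 : x 1 = y 1) (h2 : x 2 = y 2) : x = y := by
  ext i
  fin_cases i
  · exact h0
  · exact h1
  · exact h2

/-- an orthonormal triple -/
structure ON (u0 u1 u2 : E3) : Prop where
  a00 : ⟪u0, u0⟫_ℝ = 1
  a11 : ⟪u1, u1⟫_ℝ = 1
  a22 : ⟪u2, u2⟫_ℝ = 1
  a01 : ⟪u0, u1⟫_ℝ = 0
  a02 : ⟪u0, u2⟫_ℝ = 0
  a12 : ⟪u1, u2⟫_ℝ = 0

/-- coordinates to vectors -/
noncomputable def AL (u0 u1 u2 : E3) : E3 →ₗ[ℝ] E3 where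
  toFun x := x 0 • u0 + x 1 • u1 + x 2 • u2
  map_add' := by
    intro x y
    simp only [PiLp.add_apply, add_smul]
    abel
  map_smul' := by
    intro c x
    simp only [PiLp.smul_apply, smul_eq_mul, RingHom.id_apply, smul_add, smul_smul]

/-- vectors to coordinates -/
noncomputable def BL (u0 u1 u2 : E3) : E3 →ₗ[ℝ] E3 where
  toFun v := !₂[⟪u0, v⟫_ℝ, ⟪u1, v⟫_ℝ, ⟪u2, v⟫_ℝ]
  map_add' := by
    intro x y
    apply ext3 <;> simp [inner_add_right]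
  map_smul' := by
    intro c x
    apply ext3 <;> simp [inner_smul_right]

theorem BA {u0 u1 u2 : E3} (h : ON u0 u1 u2) (x : E3) : BL u0 u1 u2 (AL u0 u1 u2 x) = x := by
  have b10 : ⟪u1, u0⟫_ℝ = 0 := by rw [real_inner_comm]; exact h.a01
  have b20 : ⟪u2, u0⟫_ℝ = 0 := by rw [real_inner_comm]; exact h.a02
  have b21 : ⟪u2, u1⟫_ℝ = 0 := by rw [real_inner_comm]; exact h.a12
  apply ext3
  · show ⟪u0, x 0 • u0 + x 1 • u1 + x 2 • u2⟫_ℝ = x 0
    rw [inner_add_right, inner_add_right, inner_smul_right, inner_smul_right, inner_smul_right,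
      h.a00, h.a01, h.a02]
    ring
  · show ⟪u1, x 0 • u0 + x 1 • u1 + x 2 • u2⟫_ℝ = x 1
    rw [inner_add_right, inner_add_right, inner_smul_right, inner_smul_right, inner_smul_right,
      b10, h.a11, h.a12]
    ring
  · show ⟪u2, x 0 • u0 + x 1 • u1 + x 2 • u2⟫_ℝ = x 2
    rw [inner_add_right, inner_add_right, inner_smul_right, inner_smul_right, inner_smul_right,
      b20, b21, h.a22]
    ring

theorem norm_AL {u0 u1 u2 : E3} (h : ON u0 u1 u2) (x : E3) : ‖AL u0 u1 u2 x‖ = ‖x‖ := by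
  have h1 : ⟪AL u0 u1 u2 x, AL u0 u1 u2 x⟫_ℝ = ⟪x, x⟫_ℝ := by
    have e : ∀ v : E3, ⟪AL u0 u1 u2 x, v⟫_ℝ = x 0 * ⟪u0, v⟫_ℝ + x 1 * ⟪u1, v⟫_ℝ + x 2 * ⟪u2, v⟫_ℝ := by
      intro v
      show ⟪x 0 • u0 + x 1 • u1 + x 2 • u2, v⟫_ℝ = _
      rw [inner_add_left, inner_add_left, real_inner_smul_left, real_inner_smul_left,
        real_inner_smul_left]
    have h2 := BA h x
    have c0 : ⟪u0, AL u0 u1 u2 x⟫_ℝ = x 0 := congrArg (fun y : E3 => y 0) h2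
    have c1 : ⟪u1, AL u0 u1 u2 x⟫_ℝ = x 1 := congrArg (fun y : E3 => y 1) h2
    have c2 : ⟪u2, AL u0 u1 u2 x⟫_ℝ = x 2 := congrArg (fun y : E3 => y 2) h2
    rw [e, c0, c1, c2, inner3]
  rw [real_inner_self_eq_norm_sq, real_inner_self_eq_norm_sq] at h1
  exact (sq_eq_sq₀ (norm_nonneg _) (norm_nonneg _)).1 h1

theorem AB {u0 u1 u2 : E3} (h : ON u0 u1 u2) (v : E3) : AL u0 u1 u2 (BL u0 u1 u2 v) = v := by
  have hinj : Function.Injective (AL u0 u1 u2) := by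
    rw [← LinearMap.ker_eq_bot, LinearMap.ker_eq_bot']
    intro m hm
    rw [← norm_eq_zero, ← norm_AL h, hm, norm_zero]
  obtain ⟨x, rfl⟩ := LinearMap.injective_iff_surjective.1 hinj v
  rw [BA h]

theorem norm_BL {u0 u1 u2 : E3} (h : ON u0 u1 u2) (v : E3) : ‖BL u0 u1 u2 v‖ = ‖v‖ := by
  rw [← norm_AL h, AB h]

theorem cross_on {u0 u1 : E3} (h0 : ⟪u0, u0⟫_ℝ = 1) (h1 : ⟪u1, u1⟫_ℝ = 1) (h01 : ⟪u0, u1⟫_ℝ = 0) :
    ON u0 u1 (cross u0 u1) := by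
  have e0 : (cross u0 u1) 0 = u0 1 * u1 2 - u0 2 * u1 1 := rfl
  have e1 : (cross u0 u1) 1 = u0 2 * u1 0 - u0 0 * u1 2 := rfl
  have e2 : (cross u0 u1) 2 = u0 0 * u1 1 - u0 1 * u1 0 := rfl
  refine ⟨h0, h1, ?_, h01, ?_, ?_⟩
  · rw [inner3] at h0 h1 h01
    rw [inner3, e0, e1, e2]
    have : (u0 1 * u1 2 - u0 2 * u1 1) * (u0 1 * u1 2 - u0 2 * u1 1) +
        (u0 2 * u1 0 - u0 0 * u1 2) * (u0 2 * u1 0 - u0 0 * u1 2) +
        (u0 0 * u1 1 - u0 1 * u1 0) * (u0 0 * u1 1 - u0 1 * u1 0) =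
        (u0 0 * u0 0 + u0 1 * u0 1 + u0 2 * u0 2) * (u1 0 * u1 0 + u1 1 * u1 1 + u1 2 * u1 2) -
        (u0 0 * u1 0 + u0 1 * u1 1 + u0 2 * u1 2) ^ 2 := by ring
    rw [this, h0, h1, h01]
    norm_num
  · rw [inner3, e0, e1, e2]
    ring
  · rw [inner3, e0, e1, e2]
    ring

/-- the lower pole -/
noncomputable def PP (a : ℝ) : E3 := !₂[0, 0, a]

noncomputable def e1 : E3 := !₂[1, 0, 0]
noncomputable def e2 : E3 := !₂[0, 1, 0]
noncomputable def e3 : E3 := !₂[0, 0, 1]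

theorem Gm_eq (a : ℝ) (f : E3 → E3) (x : E3) : Gm a f x =
    f (PP a) + AL (fr a f 0) (fr a f 1) (fr a f 2) (x - PP a) := by
  unfold Gm
  congr 1
  show _ = (x - PP a) 0 • fr a f 0 + (x - PP a) 1 • fr a f 1 + (x - PP a) 2 • fr a f 2
  have h0 : (x - PP a) 0 = x 0 := by
    show x 0 - 0 = x 0
    ring
  have h1 : (x - PP a) 1 = x 1 := by
    show x 1 - 0 = x 1
    ring
  have h2 : (x - PP a) 2 = x 2 - a := rfl
  rw [h0, h1, h2]

theorem Hm_eq (a : ℝ) (f : E3 → E3) (y : E3) : Hm a f y =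
    BL (fr a f 0) (fr a f 1) (fr a f 2) (y - f (PP a)) + PP a := by
  apply ext3
  · show ⟪fr a f 0, y - f (PP a)⟫_ℝ = ⟪fr a f 0, y - f (PP a)⟫_ℝ + 0
    ring
  · show ⟪fr a f 1, y - f (PP a)⟫_ℝ = ⟪fr a f 1, y - f (PP a)⟫_ℝ + 0
    ring
  · show a + ⟪fr a f 2, y - f (PP a)⟫_ℝ = ⟪fr a f 2, y - f (PP a)⟫_ℝ + a
    ring

theorem PP_mem {h : ℝ → ℝ} {a p q b : ℝ} (hD : Dumb h a p q b) : PP a ∈ Surf h a b := by
  refine ⟨le_refl a, ?_, ?_⟩
  · show a ≤ b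
    linarith [hD.ap, hD.pq, hD.qb]
  · show (0 : ℝ) ^ 2 + 0 ^ 2 = h a
    rw [hD.ha]
    norm_num

theorem tan_PP (h : ℝ → ℝ) (a : ℝ) {v : E3} (hv : v 2 = 0) : Tan h (PP a) v := by
  show 2 * ((0 : ℝ) * v 0 + 0 * v 1) = deriv h a * v 2
  rw [hv]
  ring

theorem on_of {h : ℝ → ℝ} {a : ℝ} {f : E3 → E3}
    (hiso : ∀ v, Tan h (PP a) v → ‖fderiv ℝ f (PP a) v‖ = ‖v‖) :
    ON (fr a f 0) (fr a f 1) (fr a f 2) := by
  have h1 : ‖fderiv ℝ f (PP a) e1‖ = ‖e1‖ := hiso e1 (tan_PP h a rfl)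
  have h2 : ‖fderiv ℝ f (PP a) e2‖ = ‖e2‖ := hiso e2 (tan_PP h a rfl)
  have h3 : ‖fderiv ℝ f (PP a) (e1 + e2)‖ = ‖e1 + e2‖ := hiso (e1 + e2) (tan_PP h a (by
    show (0 : ℝ) + 0 = 0
    norm_num))
  have n1 : ⟪e1, e1⟫_ℝ = 1 := by
    rw [inner3]
    show (1 : ℝ) * 1 + 0 * 0 + 0 * 0 = 1
    norm_num
  have n2 : ⟪e2, e2⟫_ℝ = 1 := by
    rw [inner3]
    show (0 : ℝ) * 0 + 1 * 1 + 0 * 0 = 1
    norm_num
  have n3 : ⟪e1, e2⟫_ℝ = 0 := by
    rw [inner3]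
    show (1 : ℝ) * 0 + 0 * 1 + 0 * 0 = 0
    norm_num
  have k1 : ⟪fderiv ℝ f (PP a) e1, fderiv ℝ f (PP a) e1⟫_ℝ = 1 := by
    rw [real_inner_self_eq_norm_sq, h1, ← real_inner_self_eq_norm_sq, n1]
  have k2 : ⟪fderiv ℝ f (PP a) e2, fderiv ℝ f (PP a) e2⟫_ℝ = 1 := by
    rw [real_inner_self_eq_norm_sq, h2, ← real_inner_self_eq_norm_sq, n2]
  have k3 : ⟪fderiv ℝ f (PP a) e1, fderiv ℝ f (PP a) e2⟫_ℝ = 0 := by
    have h4 : ‖fderiv ℝ f (PP a) e1 + fderiv ℝ f (PP a) e2‖ ^ 2 = ‖e1 + e2‖ ^ 2 := by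
      rw [← map_add, h3]
    rw [norm_add_sq_real, norm_add_sq_real, h1, h2, n3] at h4
    linarith
  exact cross_on k1 k2 k3

/-- the inverse motion is smooth -/
theorem hasFDeriv_Hm {a : ℝ} {f : E3 → E3} {x : E3} {L : E3 →L[ℝ] E3} (hL : HasFDerivAt f L x) :
    HasFDerivAt (fun x => Hm a f (f x))
      ((LinearMap.toContinuousLinearMap (BL (fr a f 0) (fr a f 1) (fr a f 2))).comp L) x := by
  have h1 : (fun x => Hm a f (f x)) = fun x =>
      (LinearMap.toContinuousLinearMap (BL (fr a f 0) (fr a f 1) (fr a f 2))) (f x - f (PP a)) + PP a := by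
    funext y
    exact Hm_eq a f (f y)
  rw [h1]
  exact ((LinearMap.toContinuousLinearMap (BL (fr a f 0) (fr a f 1) (fr a f 2))).hasFDerivAt.comp x
    (hL.sub_const (f (PP a)))).add_const (PP a)

end FR1M

open FR1M in
theorem specFR1 : SpecFR1 := by
  intro h a p q b hD f hf
  obtain ⟨Ω, hΩ, hSub, hsm⟩ := hf.1
  have hPS := PP_mem hD
  have hdiff : ∀ x, x ∈ Ω → DifferentiableAt ℝ f x := by
    intro x hx
    exact (hsm.contDiffAt (hΩ.mem_nhds hx)).differentiableAt (by simp)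
  have hN : ON (fr a f 0) (fr a f 1) (fr a f 2) := on_of (h := h) (fun v hv => hf.2 (PP a) hPS v hv)
  have hG : ∀ x y, ‖Gm a f x - Gm a f y‖ = ‖x - y‖ := by
    intro x y
    rw [Gm_eq, Gm_eq, add_sub_add_left_eq_sub, ← map_sub, norm_AL hN, sub_sub_sub_cancel_right]
  have hH : ∀ x y, ‖Hm a f x - Hm a f y‖ = ‖x - y‖ := by
    intro x y
    rw [Hm_eq, Hm_eq, add_sub_add_right_eq_sub, ← map_sub, norm_BL hN, sub_sub_sub_cancel_right]
  refine ⟨hG, hH, ?_, ?_, ?_⟩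
  · intro x
    rw [Hm_eq, Gm_eq, add_sub_cancel_left, BA hN, sub_add_cancel]
  · intro y
    rw [Gm_eq, Hm_eq, add_sub_cancel_right, AB hN]
    abel
  · have hder : ∀ x ∈ Surf h a b, ∀ v, fderiv ℝ (fun x => Hm a f (f x)) x v =
        BL (fr a f 0) (fr a f 1) (fr a f 2) (fderiv ℝ f x v) := by
      intro x hx v
      rw [(hasFDeriv_Hm (a := a) (hdiff x (hSub hx)).hasFDerivAt).fderiv]
      rfl
    constructor
    · refine ⟨Ω, hΩ, hSub, ?_⟩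
      have h1 : (fun x => Hm a f (f x)) = fun x =>
          (LinearMap.toContinuousLinearMap (BL (fr a f 0) (fr a f 1) (fr a f 2)))
            (f x - f (PP a)) + PP a := by
        funext y
        exact Hm_eq a f (f y)
      rw [h1]
      exact ((ContinuousLinearMap.contDiff _).comp_contDiffOn
        (hsm.sub contDiffOn_const)).add contDiffOn_const
    · intro x hx v hv
      rw [hder x hx v, norm_BL hN]
      exact hf.2 x hx v hv
    · show Hm a f (f (PP a)) = PP a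
      rw [Hm_eq, sub_self, map_zero, zero_add]
    · intro v hv
      show fderiv ℝ (fun x => Hm a f (f x)) (PP a) v = v
      rw [hder (PP a) hPS v]
      have hv' : v = v 0 • e1 + v 1 • e2 := by
        apply ext3
        · show v 0 = v 0 * 1 + v 1 * 0
          ring
        · show v 1 = v 0 * 0 + v 1 * 1
          ring
        · show v 2 = v 0 * 0 + v 1 * 0
          rw [hv]
          ring
      have h2 : fderiv ℝ f (PP a) v = AL (fr a f 0) (fr a f 1) (fr a f 2) v := by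
        show fderiv ℝ f (PP a) v = v 0 • fr a f 0 + v 1 • fr a f 1 + v 2 • fr a f 2
        rw [hv, zero_smul, add_zero]
        conv_lhs => rw [hv']
        rw [map_add, map_smul, map_smul]
        rfl
      rw [h2, BA hN]

end Pool.Agent.Lib.MP478c11.DB.S
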