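import Pool.Agent.Lib.MP_478c11_gt.DB.Loc

/-!
# MP_478c11_gt, module LOC: local rigidity
-/

set_option autoImplicit false

namespace Pool.Agent.Lib.MP478c11.DB.S

open Set Filter Topology MeasureTheory
open scoped ContDiff InnerProductSpace

theorem specLOC (hCHT : SpecCHT) (hISO : SpecISO) (hNMB : SpecNMB) (hBD1 : SpecBD1)
    (hFR1 : SpecFR1) (hNM1 : SpecNM1) : SpecLOC := by
  intro h a p q b hD hE
  obtain ⟨φa, φb, ε, δ, hC⟩ := hCHT h a p q b hD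
  obtain ⟨J, hJ1, hJ⟩ := hISO h a p q b φa φb ε δ hD hE hC
  refine ⟨max 21 J, fun M => ?_⟩
  obtain ⟨M', hM'⟩ := hBD1 h a p q b φa φb ε δ hD hC J M
  obtain ⟨ν, hν0, hν⟩ := hJ (2 * M' + |a|)
  obtain ⟨ε₀, hε₀, hNM⟩ := hNM1 h a p q b φa φb ε δ hD hC M ν hν0
  refine ⟨ε₀, hε₀, fun f hf hbd hcl => ?_⟩
  obtain ⟨hG, hH, hHG, hGH, hgood⟩ := hFR1 h a p q b hD f hf
  obtain ⟨Ω, hΩ, hSub, hsm⟩ := hf.1
  have hb := hM' f Ω hΩ hSub hsm hbd
  have hb2 := hNMB h a p q b φa φb ε δ M' J f hD hC hJ1 hb hH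
  have h21 : 2 ≤ max 21 J := le_trans (by norm_num) (le_max_left 21 J)
  have hnear := hNM f hf (fun i hi => hbd i (le_trans hi h21)) hcl
  have key := hν (fun x => Hm a f (f x)) hgood hb2 (fun y hy => by
    have h2 : Hm a f (f y) - y = Hm a f (f y) - Hm a f (Gm a f y) := by
      rw [hHG y]
    show ‖Hm a f (f y) - y‖ ≤ ν
    rw [h2, hH]
    exact hnear y hy)
  refine ⟨⟨⟨Gm a f, Hm a f, hHG, hGH⟩, ?_⟩, fun x hx => ?_⟩
  · refine Isometry.of_dist_eq fun x y => ?_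
    rw [dist_eq_norm, dist_eq_norm]
    exact hG x y
  · have h3 : Hm a f (f x) = x := key x hx
    have h4 := hGH (f x)
    rw [h3] at h4
    exact h4.symm

end Pool.Agent.Lib.MP478c11.DB.S
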