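import Pool.Agent.Lib.MP_478c11_gt.DB.Loc

/-!
# MP_478c11, DB: module NM1 (a map close to the identity is close to its own motion)
-/

set_option autoImplicit false

namespace Pool.Agent.Lib.MP478c11.DB.S

open Set Filter Topology MeasureTheory
open scoped ContDiff InnerProductSpace

noncomputable section

namespace NM1M

theorem ext3 {x y : E3} (h0 : x 0 = y 0) (h1 : x 1 = y 1) (h2 : x 2 = y 2) : x = y := by
  ext i
  fin_cases i
  · exact h0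
  · exact h1
  · exact h2

theorem nsq (x : E3) : ‖x‖ ^ 2 = x 0 ^ 2 + x 1 ^ 2 + x 2 ^ 2 := by
  rw [EuclideanSpace.norm_sq_eq, Fin.sum_univ_three]
  simp only [Real.norm_eq_abs, sq_abs]

theorem core (f : E3 → E3) (γ γ' : ℝ → E3) (T M c e : ℝ) (hM : 0 ≤ M) (hc : 0 ≤ c)
    (hγ : ∀ t ∈ Icc (0 : ℝ) T, HasDerivAt γ (γ' t) t)
    (h1 : ∀ t ∈ Icc (0 : ℝ) T, ‖γ' t‖ ≤ c) (h2 : ∀ t ∈ Icc (0 : ℝ) T, ‖γ' t - γ' 0‖ ≤ c * t)
    (hf : ∀ t ∈ Icc (0 : ℝ) T, ContDiffAt ℝ 2 f (γ t))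
    (hf1 : ∀ t ∈ Icc (0 : ℝ) T, ‖fderiv ℝ f (γ t)‖ ≤ M)
    (hf2 : ∀ t ∈ Icc (0 : ℝ) T, ‖fderiv ℝ (fderiv ℝ f) (γ t)‖ ≤ M)
    (he : ∀ t ∈ Icc (0 : ℝ) T, ‖f (γ t) - γ t‖ ≤ e) (s : ℝ) (hs : 0 < s) (hsT : s ≤ T) :
    s * ‖fderiv ℝ f (γ 0) (γ' 0) - γ' 0‖ ≤ 2 * e + (M * c ^ 2 + M * c + c) * s ^ 2 := by
  have hT : 0 ≤ T := hs.le.trans hsT
  have h00 : (0 : ℝ) ∈ Icc (0 : ℝ) T := ⟨le_rfl, hT⟩
  have hD : ∀ t ∈ Icc (0 : ℝ) T, HasDerivAt (fun t => fderiv ℝ f (γ t))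
      ((fderiv ℝ (fderiv ℝ f) (γ t)) (γ' t)) t := by
    intro t ht
    have h3 : ContDiffAt ℝ 1 (fderiv ℝ f) (γ t) := (hf t ht).fderiv_right (by norm_num)
    have h4 := (h3.differentiableAt one_ne_zero).hasFDerivAt
    exact h4.comp_hasDerivAt t (hγ t ht)
  have hDb : ∀ t ∈ Icc (0 : ℝ) T, ‖fderiv ℝ f (γ t) - fderiv ℝ f (γ 0)‖ ≤ M * c * t := by
    intro t ht
    have h3 := norm_image_sub_le_of_norm_deriv_le_segment' (a := (0 : ℝ)) (b := T) (C := M * c)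
      (f := fun t => fderiv ℝ f (γ t)) (f' := fun t => (fderiv ℝ (fderiv ℝ f) (γ t)) (γ' t))
      (fun x hx => (hD x hx).hasDerivWithinAt) (by
        intro x hx
        have hx' : x ∈ Icc (0 : ℝ) T := ⟨hx.1, hx.2.le⟩
        refine (ContinuousLinearMap.le_opNorm _ _).trans ?_
        exact mul_le_mul (hf2 x hx') (h1 x hx') (norm_nonneg _) hM) t ht
    rw [sub_zero] at h3
    exact h3
  have hG : ∀ t ∈ Icc (0 : ℝ) T, HasDerivAt (fun t => f (γ t) - γ t - t • (fderiv ℝ f (γ 0) (γ' 0) - γ' 0))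
      ((fderiv ℝ f (γ t)) (γ' t) - γ' t - (fderiv ℝ f (γ 0) (γ' 0) - γ' 0)) t := by
    intro t ht
    have h3 : HasDerivAt (fun t => f (γ t)) ((fderiv ℝ f (γ t)) (γ' t)) t :=
      ((hf t ht).differentiableAt (by norm_num)).hasFDerivAt.comp_hasDerivAt t (hγ t ht)
    have h4 : HasDerivAt (fun t : ℝ => t • (fderiv ℝ f (γ 0) (γ' 0) - γ' 0))
        (fderiv ℝ f (γ 0) (γ' 0) - γ' 0) t := by
      have h5 := (hasDerivAt_id t).smul_const (fderiv ℝ f (γ 0) (γ' 0) - γ' 0)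
      rw [one_smul] at h5
      exact h5
    exact (h3.sub (hγ t ht)).sub h4
  have hK : 0 ≤ M * c ^ 2 + M * c + c := by positivity
  have hb : ∀ t ∈ Icc (0 : ℝ) s,
      ‖(fderiv ℝ f (γ t)) (γ' t) - γ' t - (fderiv ℝ f (γ 0) (γ' 0) - γ' 0)‖ ≤
        (M * c ^ 2 + M * c + c) * s := by
    intro t ht
    have ht' : t ∈ Icc (0 : ℝ) T := ⟨ht.1, ht.2.trans hsT⟩
    have e1 : (fderiv ℝ f (γ t)) (γ' t) - γ' t - (fderiv ℝ f (γ 0) (γ' 0) - γ' 0)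
        = (fderiv ℝ f (γ t) - fderiv ℝ f (γ 0)) (γ' t) + (fderiv ℝ f (γ 0)) (γ' t - γ' 0)
          - (γ' t - γ' 0) := by
      rw [ContinuousLinearMap.sub_apply, map_sub]
      abel
    rw [e1]
    have n1 : ‖(fderiv ℝ f (γ t) - fderiv ℝ f (γ 0)) (γ' t)‖ ≤ M * c * t * c :=
      (ContinuousLinearMap.le_opNorm _ _).trans
        (mul_le_mul (hDb t ht') (h1 t ht') (norm_nonneg _) (by have := ht.1; positivity))
    have n2 : ‖(fderiv ℝ f (γ 0)) (γ' t - γ' 0)‖ ≤ M * (c * t) :=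
      (ContinuousLinearMap.le_opNorm _ _).trans
        (mul_le_mul (hf1 0 h00) (h2 t ht') (norm_nonneg _) hM)
    have n3 : ‖γ' t - γ' 0‖ ≤ c * t := h2 t ht'
    have n4 := (norm_sub_le ((fderiv ℝ f (γ t) - fderiv ℝ f (γ 0)) (γ' t) +
      (fderiv ℝ f (γ 0)) (γ' t - γ' 0)) (γ' t - γ' 0)).trans
      (add_le_add (norm_add_le _ _) le_rfl)
    have n5 : (M * c ^ 2 + M * c + c) * t ≤ (M * c ^ 2 + M * c + c) * s :=
      mul_le_mul_of_nonneg_left ht.2 hK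
    nlinarith [n1, n2, n3, n4, n5]
  have h3 := norm_image_sub_le_of_norm_deriv_le_segment' (a := (0 : ℝ)) (b := s)
    (C := (M * c ^ 2 + M * c + c) * s)
    (f := fun t => f (γ t) - γ t - t • (fderiv ℝ f (γ 0) (γ' 0) - γ' 0))
    (f' := fun t => (fderiv ℝ f (γ t)) (γ' t) - γ' t - (fderiv ℝ f (γ 0) (γ' 0) - γ' 0))
    (fun x hx => (hG x ⟨hx.1, hx.2.trans hsT⟩).hasDerivWithinAt)
    (fun x hx => hb x ⟨hx.1, hx.2.le⟩) s ⟨hs.le, le_rfl⟩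
  rw [sub_zero] at h3
  simp only [zero_smul, sub_zero] at h3
  have e2 : s • (fderiv ℝ f (γ 0) (γ' 0) - γ' 0) = (f (γ s) - γ s) - (f (γ 0) - γ 0)
      - (f (γ s) - γ s - s • (fderiv ℝ f (γ 0) (γ' 0) - γ' 0) - (f (γ 0) - γ 0)) := by abel
  have e3 : ‖s • (fderiv ℝ f (γ 0) (γ' 0) - γ' 0)‖ = s * ‖fderiv ℝ f (γ 0) (γ' 0) - γ' 0‖ := by
    rw [norm_smul, Real.norm_eq_abs, abs_of_pos hs]
  have a1 := he s ⟨hs.le, hsT⟩
  have a2 := he 0 h00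
  rw [← e3, e2]
  have a3 := (norm_sub_le ((f (γ s) - γ s) - (f (γ 0) - γ 0))
    (f (γ s) - γ s - s • (fderiv ℝ f (γ 0) (γ' 0) - γ' 0) - (f (γ 0) - γ 0))).trans
    (add_le_add (norm_sub_le _ _) le_rfl)
  nlinarith [a1, a2, a3, h3]

/-- the derivative at the pole in a horizontal unit direction -/
theorem pole (h : ℝ → ℝ) (a b : ℝ) (φ : ℝ → ℝ) (ε B M : ℝ) (hε : 0 < ε) (hB : 0 ≤ B) (hM : 0 ≤ M)
    (hφ : ContDiffOn ℝ ∞ φ (Ioo (-(4 * ε ^ 2)) (4 * ε ^ 2))) (hφ0 : φ 0 = a)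
    (hr : ∀ s ∈ Ico 0 (4 * ε ^ 2), a ≤ φ s ∧ φ s ≤ b ∧ h (φ s) = s)
    (hb : ∀ s ∈ Icc 0 (ε ^ 2), |deriv φ s| ≤ B) (u : E3) (hu2 : u 2 = 0)
    (hu : u 0 ^ 2 + u 1 ^ 2 = 1) (f : E3 → E3) (e : ℝ)
    (hf : ∀ x ∈ Surf h a b, ContDiffAt ℝ 2 f x)
    (hf1 : ∀ x ∈ Surf h a b, ‖fderiv ℝ f x‖ ≤ M)
    (hf2 : ∀ x ∈ Surf h a b, ‖fderiv ℝ (fderiv ℝ f) x‖ ≤ M)
    (he : ∀ x ∈ Surf h a b, ‖f x - x‖ ≤ e) (s : ℝ) (hs : 0 < s) (hsT : s ≤ ε) :
    s * ‖fderiv ℝ f !₂[0, 0, a] u - u‖ ≤ 2 * e +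
      (M * (1 + 2 * B * ε + 2 * B) ^ 2 + M * (1 + 2 * B * ε + 2 * B) + (1 + 2 * B * ε + 2 * B)) * s ^ 2 := by
  set E : E3 := !₂[0, 0, 1] with hE
  have hE0 : E 0 = 0 := rfl
  have hE1 : E 1 = 0 := rfl
  have hE2 : E 2 = 1 := rfl
  have nE : ‖E‖ = 1 := by
    have h1 := nsq E
    rw [hE0, hE1, hE2] at h1
    have h2 := norm_nonneg E
    nlinarith
  have nu : ‖u‖ = 1 := by
    have h1 := nsq u
    rw [hu2] at h1
    have h2 := norm_nonneg u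
    nlinarith
  have hsq : ∀ t ∈ Icc (0 : ℝ) ε, t ^ 2 ∈ Icc (0 : ℝ) (ε ^ 2) := by
    intro t ht
    exact ⟨by positivity, pow_le_pow_left₀ ht.1 ht.2 2⟩
  have hε2 : 0 < ε ^ 2 := by positivity
  have hmem : ∀ t ∈ Icc (0 : ℝ) ε, t • u + φ (t ^ 2) • E ∈ Surf h a b := by
    intro t ht
    have h1 := hsq t ht
    obtain ⟨r1, r2, r3⟩ := hr (t ^ 2) ⟨h1.1, by nlinarith [h1.2]⟩
    have c2 : (t • u + φ (t ^ 2) • E) 2 = φ (t ^ 2) := by
      rw [PiLp.add_apply, PiLp.smul_apply, PiLp.smul_apply, hu2, hE2]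
      simp
    have c0 : (t • u + φ (t ^ 2) • E) 0 = t * u 0 := by
      rw [PiLp.add_apply, PiLp.smul_apply, PiLp.smul_apply, hE0]
      simp
    have c1 : (t • u + φ (t ^ 2) • E) 1 = t * u 1 := by
      rw [PiLp.add_apply, PiLp.smul_apply, PiLp.smul_apply, hE1]
      simp
    refine ⟨?_, ?_, ?_⟩
    · rw [c2]; exact r1
    · rw [c2]; exact r2
    · rw [c0, c1, c2, r3]
      have : (t * u 0) ^ 2 + (t * u 1) ^ 2 = t ^ 2 * (u 0 ^ 2 + u 1 ^ 2) := by ring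
      rw [this, hu, mul_one]
  have hder : ∀ t ∈ Icc (0 : ℝ) ε, HasDerivAt (fun t => t • u + φ (t ^ 2) • E)
      (u + (2 * t * deriv φ (t ^ 2)) • E) t := by
    intro t ht
    have h1 := hsq t ht
    have h2 : t ^ 2 ∈ Ioo (-(4 * ε ^ 2)) (4 * ε ^ 2) := ⟨by nlinarith [h1.1], by nlinarith [h1.2]⟩
    have h3 : DifferentiableAt ℝ φ (t ^ 2) :=
      (hφ.contDiffAt (isOpen_Ioo.mem_nhds h2)).differentiableAt (by norm_num)
    have h4 : HasDerivAt (fun t : ℝ => t ^ 2) (2 * t) t := by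
      have := hasDerivAt_pow 2 t
      simpa using this
    have h5 : HasDerivAt (fun t : ℝ => φ (t ^ 2)) (deriv φ (t ^ 2) * (2 * t)) t :=
      HasDerivAt.comp (h₂ := φ) (h := fun t : ℝ => t ^ 2) t h3.hasDerivAt h4
    have h6 : HasDerivAt (fun t : ℝ => t • u) u t := by
      have h7 := (hasDerivAt_id t).smul_const u
      rw [one_smul] at h7
      exact h7
    have h8 := h6.add (h5.smul_const E)
    have e1 : deriv φ (t ^ 2) * (2 * t) = 2 * t * deriv φ (t ^ 2) := by ring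
    rw [e1] at h8
    exact h8
  have hDn : ∀ t ∈ Icc (0 : ℝ) ε, ‖(2 * t * deriv φ (t ^ 2)) • E‖ ≤ 2 * B * t := by
    intro t ht
    rw [norm_smul, nE, mul_one, Real.norm_eq_abs, abs_mul, abs_mul, abs_of_nonneg ht.1]
    have h1 := hb _ (hsq t ht)
    have h2 : |(2 : ℝ)| = 2 := abs_of_pos (by norm_num)
    rw [h2]
    nlinarith [ht.1, h1, abs_nonneg (deriv φ (t ^ 2))]
  have hg0 : (0 : ℝ) • u + φ (0 ^ 2) • E = !₂[0, 0, a] := by
    rw [zero_smul, zero_add]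
    have : φ (0 ^ 2) = a := by
      rw [show ((0 : ℝ) ^ 2) = 0 by norm_num, hφ0]
    rw [this]
    apply ext3
    · rw [PiLp.smul_apply, hE0]; simp
    · rw [PiLp.smul_apply, hE1]; simp
    · rw [PiLp.smul_apply, hE2]; simp
  have hg1 : u + (2 * 0 * deriv φ (0 ^ 2)) • E = u := by
    rw [mul_zero, zero_mul, zero_smul, add_zero]
  have key := core f (fun t => t • u + φ (t ^ 2) • E) (fun t => u + (2 * t * deriv φ (t ^ 2)) • E)
    ε M (1 + 2 * B * ε + 2 * B) e hM (by positivity) hder (by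
      intro t ht
      refine (norm_add_le _ _).trans ?_
      have h1 := hDn t ht
      rw [nu]
      have h2 : 2 * B * t ≤ 2 * B * ε := mul_le_mul_of_nonneg_left ht.2 (by positivity)
      linarith) (by
      intro t ht
      show ‖u + (2 * t * deriv φ (t ^ 2)) • E - (u + (2 * 0 * deriv φ (0 ^ 2)) • E)‖ ≤ _
      rw [hg1, add_sub_cancel_left]
      refine (hDn t ht).trans ?_
      have h2 : 0 ≤ B * ε * t := by have := ht.1; positivity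
      nlinarith [ht.1]) (fun t ht => hf _ (hmem t ht)) (fun t ht => hf1 _ (hmem t ht))
    (fun t ht => hf2 _ (hmem t ht)) (fun t ht => he _ (hmem t ht)) s hs hsT
  simp only [hg0, hg1] at key
  exact key

theorem cross_norm (x y : E3) : ‖cross x y‖ ≤ ‖x‖ * ‖y‖ := by
  have h1 := nsq (cross x y)
  have c0 : (cross x y) 0 = x 1 * y 2 - x 2 * y 1 := rfl
  have c1 : (cross x y) 1 = x 2 * y 0 - x 0 * y 2 := rfl
  have c2 : (cross x y) 2 = x 0 * y 1 - x 1 * y 0 := rfl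
  rw [c0, c1, c2] at h1
  have hx := nsq x
  have hy := nsq y
  have h2 : ‖cross x y‖ ^ 2 ≤ (‖x‖ * ‖y‖) ^ 2 := by
    rw [mul_pow, hx, hy, h1]
    nlinarith [sq_nonneg (x 0 * y 0 + x 1 * y 1 + x 2 * y 2)]
  exact (pow_le_pow_iff_left₀ (norm_nonneg _) (by positivity) two_ne_zero).1 h2

end NM1M

open NM1M in
theorem specNM1 : SpecNM1 := by
  intro h a p q b φa φb ε δ hD hC M η hη
  -- bound for the derivative of the chart
  have hε := hC.e0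
  have hε2 : 0 < ε ^ 2 := by positivity
  obtain ⟨B, hB⟩ : ∃ B : ℝ, ∀ s ∈ Icc (0 : ℝ) (ε ^ 2), |deriv φa s| ≤ B := by
    have h1 : ContinuousOn (deriv φa) (Ioo (-(4 * ε ^ 2)) (4 * ε ^ 2)) :=
      hC.sa.continuousOn_deriv_of_isOpen isOpen_Ioo (by norm_num)
    have h2 : Icc (0 : ℝ) (ε ^ 2) ⊆ Ioo (-(4 * ε ^ 2)) (4 * ε ^ 2) := by
      intro s hs
      exact ⟨by nlinarith [hs.1], by nlinarith [hs.2]⟩
    obtain ⟨B, hB⟩ := isCompact_Icc.exists_bound_of_continuousOn (h1.mono h2)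
    exact ⟨B, fun s hs => hB s hs⟩
  have hB0 : 0 ≤ B := (abs_nonneg _).trans (hB 0 ⟨le_rfl, hε2.le⟩)
  -- the surface is bounded
  obtain ⟨H, hH⟩ : ∃ H : ℝ, ∀ z ∈ Icc a b, ‖h z‖ ≤ H :=
    isCompact_Icc.exists_bound_of_continuousOn hD.smooth.continuous.continuousOn
  have hab : a < b := hD.ap.trans (hD.pq.trans hD.qb)
  have hH0 : 0 ≤ H := (norm_nonneg _).trans (hH a ⟨le_rfl, hab.le⟩)
  obtain ⟨R, hR1, hR⟩ : ∃ R : ℝ, 1 ≤ R ∧ ∀ x ∈ Surf h a b, |x 0| ≤ R ∧ |x 1| ≤ R ∧ |x 2 - a| ≤ R := by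
    refine ⟨1 + H + (b - a), by linarith, ?_⟩
    intro x hx
    obtain ⟨x1, x2, x3⟩ := hx
    have h1 := hH (x 2) ⟨x1, x2⟩
    rw [Real.norm_eq_abs] at h1
    have h2 := le_of_abs_le h1
    refine ⟨?_, ?_, ?_⟩
    · apply abs_le_of_sq_le_sq _ (by linarith)
      nlinarith [sq_nonneg (x 1)]
    · apply abs_le_of_sq_le_sq _ (by linarith)
      nlinarith [sq_nonneg (x 0)]
    · rw [abs_of_nonneg (by linarith)]
      linarith
  set N : ℝ := |M| with hN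
  have hN0 : 0 ≤ N := abs_nonneg M
  set K : ℝ := N * (1 + 2 * B * ε + 2 * B) ^ 2 + N * (1 + 2 * B * ε + 2 * B) + (1 + 2 * B * ε + 2 * B) with hK
  have hK0 : 0 < K := by positivity
  set σ : ℝ := min 1 (η / (16 * R)) with hσ
  have hσ0 : 0 < σ := lt_min one_pos (by positivity)
  have hσ1 : σ ≤ 1 := min_le_left _ _
  have hσ2 : 16 * R * σ ≤ η := by
    have h1 : σ ≤ η / (16 * R) := min_le_right _ _
    rw [le_div_iff₀ (by positivity)] at h1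
    linarith
  set s : ℝ := min ε (σ / (2 * K)) with hs
  have hs0 : 0 < s := lt_min hε (by positivity)
  have hs1 : s ≤ ε := min_le_left _ _
  have hs2 : 2 * K * s ≤ σ := by
    have h1 : s ≤ σ / (2 * K) := min_le_right _ _
    rw [le_div_iff₀ (by positivity)] at h1
    linarith
  refine ⟨min (η / 4) (σ * s / 4), lt_min (by positivity) (by positivity), ?_⟩
  intro f hf hfM hfe x hx
  obtain ⟨⟨Ω, hΩ, hSΩ, hfs⟩, -⟩ := hf
  have hcd : ∀ y ∈ Surf h a b, ContDiffAt ℝ ∞ f y := fun y hy =>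
    hfs.contDiffAt (hΩ.mem_nhds (hSΩ hy))
  have g1 : ∀ y ∈ Surf h a b, ContDiffAt ℝ 2 f y := fun y hy => contDiffAt_infty.1 (hcd y hy) 2
  have g2 : ∀ y ∈ Surf h a b, ‖fderiv ℝ f y‖ ≤ N := by
    intro y hy
    have h1 := hfM 1 (by norm_num) y hy
    rw [norm_iteratedFDeriv_one] at h1
    exact h1.trans (le_abs_self M)
  have g3 : ∀ y ∈ Surf h a b, ‖fderiv ℝ (fderiv ℝ f) y‖ ≤ N := by
    intro y hy
    have h1 := hfM 2 le_rfl y hy
    rw [← norm_iteratedFDeriv_one, norm_iteratedFDeriv_fderiv]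
    exact h1.trans (le_abs_self M)
  have g4 : ∀ y ∈ Surf h a b, ‖f y - y‖ ≤ σ * s / 4 := fun y hy =>
    (hfe y hy).trans (min_le_right _ _)
  have g5 : ∀ y ∈ Surf h a b, ‖f y - y‖ ≤ η / 4 := fun y hy =>
    (hfe y hy).trans (min_le_left _ _)
  have pol : ∀ u : E3, u 2 = 0 → u 0 ^ 2 + u 1 ^ 2 = 1 → ‖fderiv ℝ f !₂[0, 0, a] u - u‖ ≤ σ := by
    intro u hu2 hu
    have h1 := pole h a b φa ε B N hε hB0 hN0 hC.sa hC.a0 hC.ra hB u hu2 hu f (σ * s / 4)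
      g1 g2 g3 g4 s hs0 hs1
    rw [← hK] at h1
    have h2 : s * ‖fderiv ℝ f !₂[0, 0, a] u - u‖ ≤ s * σ := by
      nlinarith [mul_le_mul_of_nonneg_right hs2 hs0.le]
    exact le_of_mul_le_mul_left h2 hs0
  have hP : (!₂[0, 0, a] : E3) ∈ Surf h a b := by
    refine ⟨?_, ?_, ?_⟩
    · show a ≤ a
      exact le_rfl
    · show a ≤ b
      exact hab.le
    · show (0 : ℝ) ^ 2 + (0 : ℝ) ^ 2 = h a
      rw [hD.ha]
      norm_num
  set e1 : E3 := !₂[1, 0, 0] with he1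
  set e2 : E3 := !₂[0, 1, 0] with he2
  set e3 : E3 := !₂[0, 0, 1] with he3
  have f0 : ‖fr a f 0 - e1‖ ≤ σ := pol e1 rfl (by
    show (1 : ℝ) ^ 2 + (0 : ℝ) ^ 2 = 1
    norm_num)
  have f1 : ‖fr a f 1 - e2‖ ≤ σ := pol e2 rfl (by
    show (0 : ℝ) ^ 2 + (1 : ℝ) ^ 2 = 1
    norm_num)
  have n1 : ‖e1‖ = 1 := by
    have h1 := nsq e1
    have h2 : e1 0 ^ 2 + e1 1 ^ 2 + e1 2 ^ 2 = 1 := by
      show (1 : ℝ) ^ 2 + (0 : ℝ) ^ 2 + (0 : ℝ) ^ 2 = 1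
      norm_num
    have h3 := norm_nonneg e1
    nlinarith
  have n2 : ‖e2‖ = 1 := by
    have h1 := nsq e2
    have h2 : e2 0 ^ 2 + e2 1 ^ 2 + e2 2 ^ 2 = 1 := by
      show (0 : ℝ) ^ 2 + (1 : ℝ) ^ 2 + (0 : ℝ) ^ 2 = 1
      norm_num
    have h3 := norm_nonneg e2
    nlinarith
  have f2 : ‖fr a f 2 - e3‖ ≤ 3 * σ := by
    have h1 : fr a f 2 - e3 = cross (fr a f 0 - e1) (fr a f 1) + cross e1 (fr a f 1 - e2) := by
      have hh : fr a f 2 = cross (fr a f 0) (fr a f 1) := rfl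
      rw [hh]
      apply ext3
      · simp [cross, he1, he2, he3]
        try ring
      · simp [cross, he1, he2, he3]
        try ring
      · simp [cross, he1, he2, he3]
        try ring
    rw [h1]
    have h2 := cross_norm (fr a f 0 - e1) (fr a f 1)
    have h3 := cross_norm e1 (fr a f 1 - e2)
    have h4 : ‖fr a f 1‖ ≤ 2 := by
      have h5 : fr a f 1 = (fr a f 1 - e2) + e2 := by abel
      rw [h5]
      refine (norm_add_le _ _).trans ?_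
      rw [n2]
      linarith
    have h5 : ‖fr a f 0 - e1‖ * ‖fr a f 1‖ ≤ σ * 2 := mul_le_mul f0 h4 (norm_nonneg _) hσ0.le
    rw [n1, one_mul] at h3
    refine (norm_add_le _ _).trans ?_
    linarith
  obtain ⟨r0, r1, r2⟩ := hR x hx
  have hdec : f x - Gm a f x = (f x - x) - (f !₂[0, 0, a] - !₂[0, 0, a]) -
      (x 0 • (fr a f 0 - e1) + x 1 • (fr a f 1 - e2) + (x 2 - a) • (fr a f 2 - e3)) := by
    have hxe : x = !₂[0, 0, a] + (x 0 • e1 + x 1 • e2 + (x 2 - a) • e3) := by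
      apply ext3
      · simp [he1, he2, he3]
      · simp [he1, he2, he3]
      · simp [he1, he2, he3]
    have h1 : Gm a f x = f !₂[0, 0, a] + (x 0 • fr a f 0 + x 1 • fr a f 1 + (x 2 - a) • fr a f 2) := rfl
    rw [h1, smul_sub, smul_sub, smul_sub]
    have h2 : f x - x = f x - (!₂[0, 0, a] + (x 0 • e1 + x 1 • e2 + (x 2 - a) • e3)) := by
      rw [← hxe]
    rw [h2]
    abel
  rw [hdec]
  have k1 : ‖x 0 • (fr a f 0 - e1)‖ ≤ R * σ := by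
    rw [norm_smul, Real.norm_eq_abs]
    exact mul_le_mul r0 f0 (norm_nonneg _) (by linarith)
  have k2 : ‖x 1 • (fr a f 1 - e2)‖ ≤ R * σ := by
    rw [norm_smul, Real.norm_eq_abs]
    exact mul_le_mul r1 f1 (norm_nonneg _) (by linarith)
  have k3 : ‖(x 2 - a) • (fr a f 2 - e3)‖ ≤ R * (3 * σ) := by
    rw [norm_smul, Real.norm_eq_abs]
    exact mul_le_mul r2 f2 (norm_nonneg _) (by linarith)
  have k4 := (norm_add_le (x 0 • (fr a f 0 - e1) + x 1 • (fr a f 1 - e2))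
    ((x 2 - a) • (fr a f 2 - e3))).trans (add_le_add (norm_add_le _ _) le_rfl)
  have k5 := (norm_sub_le ((f x - x) - (f !₂[0, 0, a] - !₂[0, 0, a]))
    (x 0 • (fr a f 0 - e1) + x 1 • (fr a f 1 - e2) + (x 2 - a) • (fr a f 2 - e3))).trans
    (add_le_add (norm_sub_le _ _) le_rfl)
  have k6 := g5 x hx
  have k7 := g5 _ hP
  nlinarith [k1, k2, k3, k4, k5, k6, k7, hσ2]

end

end Pool.Agent.Lib.MP478c11.DB.S
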