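import Pool.Agent.Lib.MP_478c11_gt.DB.S.All
import Pool.Agent.Lib.MP_478c11_gt.DB.S.BD1
import Pool.Agent.Lib.MP_478c11_gt.DB.S.FR1
import Pool.Agent.Lib.MP_478c11_gt.DB.S.NM1
import Pool.Agent.Lib.MP_478c11_gt.DB.S.LOC
import Pool.Agent.Lib.MP_478c11_gt.DB.S.CCP
import Pool.Agent.Lib.MP_478c11_gt.DB.S.CFR
import Pool.Agent.Lib.MP_478c11_gt.DB.S.COP

set_option autoImplicit false

namespace Pool.Agent.Lib.MP478c11.DB.S

theorem hLOC : SpecLOC := specLOC hCHT hISO specNMB specBD1 specFR1 specNM1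
theorem hCCP : SpecCCP := specCCP specBD1
theorem hCOP : SpecCOP := specCOP hCHT hISO specNMB specFR1 hCCP specCFR

theorem toDumb {h : ℝ → ℝ} {a b : ℝ} (hS : Sph h a b) : Dumb h a ((2 * a + b) / 3) ((a + 2 * b) / 3) b := by
  have hab := hS.ab
  exact ⟨hS.smooth, by linarith, by linarith, by linarith, hS.ha, hS.hb, hS.pos, hS.da, hS.db⟩

/-- A sphere of revolution with the a priori estimate is locally rigid. -/
theorem locRig {h : ℝ → ℝ} {a b : ℝ} (hS : Sph h a b) (hE : Est h a b) : LocRig h a b :=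
  hLOC h a _ _ b (toDumb hS) hE

/-- Families which are only continuous in the parameter are trivial. -/
theorem cunb {h : ℝ → ℝ} {a b : ℝ} (hS : Sph h a b) (hE : Est h a b) : CUnb h a b :=
  hCOP h a _ _ b (toDumb hS) hE

end Pool.Agent.Lib.MP478c11.DB.S
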