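import Pool.Agent.Lib.MP_478c11_gt.DB.GeoS

set_option autoImplicit false

namespace Pool.Agent.Lib.MP478c11.DB.S

open Set Filter Topology MeasureTheory
open scoped ContDiff

theorem specREF : SpecREF := by
  intro h a p q b hD
  have hs := hD.smooth
  have hder : ∀ z, deriv (fun z => h (-z)) z = -deriv h (-z) := by
    intro z
    have h1 : HasDerivAt h (deriv h (-z)) (-z) := (hs.differentiable (by simp) (-z)).hasDerivAt
    have h2 := (HasDerivAt.scomp z h1 (hasDerivAt_neg z)).deriv
    have h3 : (h ∘ Neg.neg) = fun z => h (-z) := rfl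
    rw [h3] at h2
    rw [h2]
    simp
  refine ⟨hs.comp contDiff_neg, ?_, ?_, ?_, ?_, ?_, ?_, ?_, ?_⟩
  · linarith [hD.qb]
  · linarith [hD.pq]
  · linarith [hD.ap]
  · show h (- -b) = 0
    rw [neg_neg]
    exact hD.hb
  · show h (- -a) = 0
    rw [neg_neg]
    exact hD.ha
  · intro z h1 h2
    exact hD.pos (-z) (by linarith) (by linarith)
  · rw [hder, neg_neg]
    linarith [hD.db]
  · rw [hder, neg_neg]
    linarith [hD.da]

end Pool.Agent.Lib.MP478c11.DB.S
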